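import Pool.Agent.Lib.MP_cf5e8f_an.Hurwitz

set_option autoImplicit false

namespace Pool.Agent.Lib.MP_cf5e8f_an

open Filter Topology Complex Metric Set MeasureTheory

/-- limit coefficients -/
noncomputable def aa (d : ℕ → ℕ → ℂ) (n : ℕ) : ℂ := (if n = 1 then 1 else 0) + ∑' j, d j n

section

variable {F : ℕ → ℂ → ℂ} {d : ℕ → ℕ → ℂ} {c : ℕ → ℝ}

lemma prod_summable (hsm : ∀ j, Summable (fun n => ‖d j n‖)) (hle : ∀ j, ∑' n, ‖d j n‖ ≤ c j)
    (hc : Summable c) : Summable (fun p : ℕ × ℕ => ‖d p.1 p.2‖) := by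
  rw [summable_prod_of_nonneg (fun _ => norm_nonneg _)]
  refine ⟨hsm, ?_⟩
  exact Summable.of_nonneg_of_le (fun j => tsum_nonneg fun n => norm_nonneg _) hle hc

lemma swap_summable (hsm : ∀ j, Summable (fun n => ‖d j n‖)) (hle : ∀ j, ∑' n, ‖d j n‖ ≤ c j)
    (hc : Summable c) : Summable (fun p : ℕ × ℕ => ‖d p.2 p.1‖) :=
  (prod_summable hsm hle hc).prod_symm

lemma col_summable (hsm : ∀ j, Summable (fun n => ‖d j n‖)) (hle : ∀ j, ∑' n, ‖d j n‖ ≤ c j)
    (hc : Summable c) (n : ℕ) : Summable (fun j => ‖d j n‖) :=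
  ((summable_prod_of_nonneg (fun _ => norm_nonneg _)).mp (swap_summable hsm hle hc)).1 n

lemma aa_summable (hsm : ∀ j, Summable (fun n => ‖d j n‖)) (hle : ∀ j, ∑' n, ‖d j n‖ ≤ c j)
    (hc : Summable c) : Summable (fun n => ‖aa d n‖) := by
  have h1 := ((summable_prod_of_nonneg (fun _ => norm_nonneg _)).mp (swap_summable hsm hle hc)).2
  have h2 : Summable (fun n : ℕ => ‖(if n = 1 then (1 : ℂ) else 0)‖) := by
    apply summable_of_ne_finset_zero (s := {1})
    intro n hn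
    simp only [Finset.mem_singleton] at hn
    simp [hn]
  refine Summable.of_nonneg_of_le (fun n => norm_nonneg _) ?_ (h2.add h1)
  intro n
  unfold aa
  refine (norm_add_le _ _).trans ?_
  gcongr
  exact norm_tsum_le_tsum_norm (col_summable hsm hle hc n)

lemma pow_le_one' {z : ℂ} (hz : ‖z‖ ≤ 1) (n : ℕ) : ‖z ^ n‖ ≤ 1 := by
  rw [norm_pow]; exact pow_le_one₀ (norm_nonneg _) hz

lemma G_eq (hsm : ∀ j, Summable (fun n => ‖d j n‖)) (hle : ∀ j, ∑' n, ‖d j n‖ ≤ c j)
    (hc : Summable c)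
    (hs : ∀ j, ∀ z : ℂ, ‖z‖ ≤ 1 → HasSum (fun n : ℕ => d j n * z ^ n) (F (j + 1) z - F j z))
    {z : ℂ} (hz : ‖z‖ ≤ 1) :
    ∑' n, aa d n * z ^ n = z + ∑' j, (F (j + 1) z - F j z) := by
  have hP : Summable (fun p : ℕ × ℕ => d p.1 p.2 * z ^ p.2) := by
    apply Summable.of_norm_bounded (prod_summable hsm hle hc)
    intro p
    rw [norm_mul]
    exact mul_le_of_le_one_right (norm_nonneg _) (pow_le_one' hz _)
  have hP' : Summable (fun p : ℕ × ℕ => d p.2 p.1 * z ^ p.1) := hP.prod_symm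
  have h1 : ∑' n, (∑' j, d j n) * z ^ n = ∑' j, (F (j + 1) z - F j z) := by
    calc ∑' n, (∑' j, d j n) * z ^ n = ∑' n, ∑' j, d j n * z ^ n := by
          apply tsum_congr
          intro n
          rw [tsum_mul_right]
      _ = ∑' j, ∑' n, d j n * z ^ n :=
          Summable.tsum_comm (f := fun j n => d j n * z ^ n) hP
      _ = ∑' j, (F (j + 1) z - F j z) := by
          apply tsum_congr
          intro j
          exact (hs j z hz).tsum_eq
  have h2 : Summable (fun n : ℕ => (∑' j, d j n) * z ^ n) := by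
    have h3 := ((summable_prod_of_nonneg (fun _ => norm_nonneg _)).mp
      (swap_summable hsm hle hc)).2
    apply Summable.of_norm_bounded h3
    intro n
    rw [norm_mul]
    refine (mul_le_of_le_one_right (norm_nonneg _) (pow_le_one' hz _)).trans ?_
    exact norm_tsum_le_tsum_norm (col_summable hsm hle hc n)
  have h3 : HasSum (fun n : ℕ => (if n = 1 then (1 : ℂ) else 0) * z ^ n) z := by
    have := hasSum_single (f := fun n : ℕ => (if n = 1 then (1 : ℂ) else 0) * z ^ n) 1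
      (fun n hn => by simp [hn])
    simpa using this
  rw [← h1]
  have h4 := h3.add h2.hasSum
  rw [← h4.tsum_eq]
  apply tsum_congr
  intro n
  unfold aa
  ring

lemma F_diff_le (hsm : ∀ j, Summable (fun n => ‖d j n‖)) (hle : ∀ j, ∑' n, ‖d j n‖ ≤ c j)
    (hs : ∀ j, ∀ z : ℂ, ‖z‖ ≤ 1 → HasSum (fun n : ℕ => d j n * z ^ n) (F (j + 1) z - F j z))
    {z : ℂ} (hz : ‖z‖ ≤ 1) (j : ℕ) : ‖F (j + 1) z - F j z‖ ≤ c j := by
  rw [← (hs j z hz).tsum_eq]
  have h1 : ∀ n, ‖d j n * z ^ n‖ ≤ ‖d j n‖ := fun n => by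
    rw [norm_mul]
    exact mul_le_of_le_one_right (norm_nonneg _) (pow_le_one' hz _)
  exact (tsum_of_norm_bounded (hsm j).hasSum h1).trans (hle j)

lemma G_close (hsm : ∀ j, Summable (fun n => ‖d j n‖)) (hle : ∀ j, ∑' n, ‖d j n‖ ≤ c j)
    (hc : Summable c) (hF0 : ∀ z, F 0 z = z)
    (hs : ∀ j, ∀ z : ℂ, ‖z‖ ≤ 1 → HasSum (fun n : ℕ => d j n * z ^ n) (F (j + 1) z - F j z))
    {z : ℂ} (hz : ‖z‖ ≤ 1) (j : ℕ) :
    ‖∑' n, aa d n * z ^ n - F j z‖ ≤ ∑' i, c (i + j) := by
  have h1 := F_diff_le hsm hle hs hz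
  have h2 : Summable (fun j => F (j + 1) z - F j z) := Summable.of_norm_bounded hc h1
  have h3 : ∑ i ∈ Finset.range j, (F (i + 1) z - F i z) = F j z - z := by
    rw [Finset.sum_range_sub (fun i => F i z), hF0]
  have h4 := h2.sum_add_tsum_nat_add j
  rw [G_eq hsm hle hc hs hz, ← h4, h3]
  have e : z + (F j z - z + ∑' i, (F (i + j + 1) z - F (i + j) z)) - F j z =
      ∑' i, (F (i + j + 1) z - F (i + j) z) := by ring
  rw [e]
  apply tsum_of_norm_bounded ((summable_nat_add_iff j).mpr hc).hasSum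
  intro i
  exact h1 (i + j)

end

theorem assemble (F : ℕ → ℂ → ℂ) (d : ℕ → ℕ → ℂ) (c e : ℕ → ℝ) (K : ℕ → Set ℂ)
    (hsm : ∀ j, Summable (fun n => ‖d j n‖)) (hle : ∀ j, ∑' n, ‖d j n‖ ≤ c j)
    (hc : Summable c) (hF0 : ∀ z, F 0 z = z)
    (hs : ∀ j, ∀ z : ℂ, ‖z‖ ≤ 1 → HasSum (fun n : ℕ => d j n * z ^ n) (F (j + 1) z - F j z))
    (hFd : ∀ j, DifferentiableOn ℂ (F j) (ball 0 1)) (hFi : ∀ j, InjOn (F j) (ball 0 1))
    (hd0 : ∀ j, d j 0 = 0) (hd1 : ∀ j, ‖d j 1‖ ≤ (1 / 4) ^ (j + 1))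
    (hK : ∀ j, IsCompact (K j)) (hKs : ∀ j, K (j + 1) ⊆ K j)
    (hKv : ∀ j, ENNReal.ofReal (1 / 2) ≤ volume (K j))
    (hKc : ∀ j, ∀ x ∈ K j, ∃ ζ : ℂ, ‖ζ‖ = 1 ∧ ‖x - F j ζ‖ ^ 2 ≤ e j)
    (he : Tendsto e atTop (𝓝 0)) :
    ∃ a : ℕ → ℂ, Summable (fun n => ‖a n‖) ∧ a 0 = 0 ∧ a 1 = 1 ∧
      Set.InjOn (fun z : ℂ => ∑' n, a n * z ^ n) (Metric.ball (0 : ℂ) 1) ∧
      0 < MeasureTheory.volume
        ((fun z : ℂ => ∑' n, a n * z ^ n) '' Metric.sphere (0 : ℂ) 1) := by
  set G : ℂ → ℂ := fun z => ∑' n, aa d n * z ^ n with hG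
  set T : ℕ → ℝ := fun j => ∑' i, c (i + j) with hT
  have hT0 : Tendsto T atTop (𝓝 0) := tendsto_sum_nat_add c
  have hGF : ∀ j, ∀ z : ℂ, ‖z‖ ≤ 1 → ‖G z - F j z‖ ≤ T j :=
    fun j z hz => G_close hsm hle hc hF0 hs hz j
  have has := aa_summable hsm hle hc
  have ha0 : aa d 0 = 0 := by simp [aa, hd0]
  have ha1 : aa d 1 ≠ 0 := by
    have h1 : ‖∑' j, d j 1‖ ≤ 1 / 3 := by
      have hgeo : HasSum (fun j : ℕ => ((1 : ℝ) / 4) ^ (j + 1)) (1 / 3) := by
        have h2 := (hasSum_geometric_of_lt_one (show (0 : ℝ) ≤ 1 / 4 by norm_num)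
          (show (1 : ℝ) / 4 < 1 by norm_num)).mul_left (1 / 4)
        have e1 : (1 / 4 : ℝ) * (1 - 1 / 4)⁻¹ = 1 / 3 := by norm_num
        rw [e1] at h2
        refine h2.congr_fun ?_ |> fun h => h
        intro j
        rw [pow_succ']
      exact tsum_of_norm_bounded hgeo hd1
    intro h0
    simp only [aa, if_true] at h0
    have h2 : ∑' j, d j 1 = -1 := by linear_combination h0
    rw [h2, norm_neg, norm_one] at h1
    norm_num at h1
  -- regularity of G
  have hbound : ∀ n : ℕ, ∀ z ∈ closedBall (0 : ℂ) 1, ‖aa d n * z ^ n‖ ≤ ‖aa d n‖ := by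
    intro n z hz
    rw [norm_mul]
    exact mul_le_of_le_one_right (norm_nonneg _) (pow_le_one' (by simpa using hz) _)
  have hGc : ContinuousOn G (closedBall 0 1) :=
    continuousOn_tsum (fun n => (continuous_const.mul (continuous_pow n)).continuousOn) has hbound
  have hdn : ∀ n : ℕ, DifferentiableOn ℂ (fun z : ℂ => aa d n * z ^ n) (ball 0 1) :=
    fun n => ((differentiable_id.pow n).const_mul _).differentiableOn
  have hGd : DifferentiableOn ℂ G (ball 0 1) :=
    differentiableOn_tsum_of_summable_norm has hdn isOpen_ball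
      (fun n z hz => hbound n z (ball_subset_closedBall hz))
  have hG0 : deriv G 0 ≠ 0 := by
    have h1 := hasSum_deriv_of_summable_norm has hdn isOpen_ball
      (fun n z hz => hbound n z (ball_subset_closedBall hz)) (mem_ball_self one_pos)
    have h2 : HasSum (fun n : ℕ => deriv (fun z : ℂ => aa d n * z ^ n) 0) (aa d 1) := by
      have h3 : ∀ n : ℕ, deriv (fun z : ℂ => aa d n * z ^ n) 0 =
          aa d n * (n * 0 ^ (n - 1)) := by
        intro n
        exact ((hasDerivAt_pow n (0 : ℂ)).const_mul (aa d n)).deriv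
      have h4 := hasSum_single (f := fun n : ℕ => deriv (fun z : ℂ => aa d n * z ^ n) 0) 1
        (by
          intro n hn
          rw [h3]
          rcases Nat.eq_zero_or_pos n with h5 | h5
          · rw [h5]; simp
          · have : n - 1 ≠ 0 := by omega
            rw [zero_pow this]; simp)
      rw [h3 1] at h4
      simpa using h4
    rw [h1.unique h2]
    exact ha1
  have hGi : InjOn G (ball 0 1) :=
    hurwitz hFd hFi hGd hG0 hT0 (fun j z hz => hGF j z (by
      rw [mem_ball, dist_zero_right] at hz; exact hz.le))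
  -- measure
  have hcomp : IsCompact (G '' sphere 0 1) :=
    (isCompact_sphere 0 1).image_of_continuousOn (hGc.mono sphere_subset_closedBall)
  have hKsub : (⋂ j, K j) ⊆ G '' sphere 0 1 := by
    intro x hx
    rw [mem_iInter] at hx
    rw [← hcomp.isClosed.closure_eq, Metric.mem_closure_iff]
    intro ε hε
    have h1 := he.eventually_lt_const (show (0 : ℝ) < (ε / 2) ^ 2 by positivity)
    have h2 := hT0.eventually_lt_const (show (0 : ℝ) < ε / 2 by positivity)
    obtain ⟨j, h1, h2⟩ := (h1.and h2).exists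
    obtain ⟨ζ, hζ, h3⟩ := hKc j x (hx j)
    refine ⟨G ζ, mem_image_of_mem G (by simp [hζ]), ?_⟩
    have h4 : ‖x - F j ζ‖ < ε / 2 := by
      have := h3.trans_lt h1
      exact lt_of_pow_lt_pow_left₀ 2 (by positivity) this
    have h5 := hGF j ζ hζ.le
    rw [dist_eq_norm]
    calc ‖x - G ζ‖ = ‖(x - F j ζ) - (G ζ - F j ζ)‖ := by ring_nf
      _ ≤ ‖x - F j ζ‖ + ‖G ζ - F j ζ‖ := norm_sub_le _ _
      _ < ε := by linarith
  have hKant : Antitone K := antitone_nat_of_succ_le hKs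
  have hvol : ENNReal.ofReal (1 / 2) ≤ volume (⋂ j, K j) := by
    have h1 := tendsto_measure_iInter_atTop (μ := volume)
      (fun j => (hK j).isClosed.measurableSet.nullMeasurableSet) hKant
      ⟨0, (hK 0).measure_lt_top.ne⟩
    exact ge_of_tendsto' h1 hKv
  have hpos : 0 < volume (G '' sphere 0 1) :=
    lt_of_lt_of_le (by simp) (hvol.trans (measure_mono hKsub))
  -- normalise
  have hfun : ∀ z : ℂ, ∑' n, aa d n / aa d 1 * z ^ n = G z / aa d 1 := by
    intro z
    simp only [hG]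
    rw [← tsum_div_const]
    apply tsum_congr
    intro n
    ring
  refine ⟨fun n => aa d n / aa d 1, ?_, ?_, ?_, ?_, ?_⟩
  · simp only [norm_div]
    exact has.div_const _
  · simp [ha0]
  · simp [ha1]
  · intro z hz z' hz' h
    simp only [hfun] at h
    apply hGi hz hz'
    field_simp at h
    exact h
  · simp only [hfun]
    rw [pos_iff_ne_zero]
    intro h0
    apply hpos.ne'
    have h1 : G '' sphere 0 1 =
        (fun w => aa d 1 * w) '' ((fun z => G z / aa d 1) '' sphere 0 1) := by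
      rw [image_image]
      apply image_congr
      intro z _
      field_simp
    rw [h1]
    apply addHaar_image_eq_zero_of_differentiableOn_of_addHaar_eq_zero volume _ h0
    have : Differentiable ℂ (fun w : ℂ => aa d 1 * w) := by fun_prop
    exact (this.restrictScalars ℝ).differentiableOn

end Pool.Agent.Lib.MP_cf5e8f_an
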