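import Pool.Agent.Lib.MP_cf5e8f_an.TrigAvg

set_option autoImplicit false

namespace Pool.Agent.Lib.MP_cf5e8f_an

open Filter Topology Complex Metric Set ComplexConjugate

/-- half of the long side of the cell -/
noncomputable def hh : ℝ := Real.sqrt 2 / 2

lemma hh_pos : 0 < hh := by unfold hh; positivity

lemma hh_sq : hh ^ 2 = 1 / 2 := by
  unfold hh
  rw [div_pow, Real.sq_sqrt (by norm_num)]; norm_num

lemma hh_le_one : hh ≤ 1 := by
  have := hh_sq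
  nlinarith [hh_pos]

/-- the closed rectangle `[ε,1] × [-hh,hh]` -/
def RR (ε : ℝ) : Set ℂ := {a | ε ≤ a.re ∧ a.re ≤ 1 ∧ |a.im| ≤ hh}

/-- the rectangle together with the stem `[0,1]` -/
def TT (ε : ℝ) : Set ℂ := {a | 0 ≤ a.re ∧ a.re ≤ 1 ∧ |a.im| ≤ hh ∧ (a.im = 0 ∨ ε ≤ a.re)}

lemma RR_subset_TT {ε : ℝ} (h : 0 ≤ ε) : RR ε ⊆ TT ε := by
  intro a ha
  exact ⟨h.trans ha.1, ha.2.1, ha.2.2, Or.inr ha.1⟩

lemma TT_isClosed (ε : ℝ) : IsClosed (TT ε) := by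
  unfold TT
  apply IsClosed.inter (isClosed_le continuous_const continuous_re)
  apply IsClosed.inter (isClosed_le continuous_re continuous_const)
  apply IsClosed.inter (isClosed_le continuous_im.abs continuous_const)
  apply IsClosed.union
  · exact isClosed_eq continuous_im continuous_const
  · exact isClosed_le continuous_const continuous_re

lemma TT_bound {ε : ℝ} {a : ℂ} (ha : a ∈ TT ε) : ‖a‖ ≤ 2 := by
  have h1 : |a.re| ≤ 1 := abs_le.mpr ⟨by linarith [ha.1], ha.2.1⟩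
  have h2 : |a.im| ≤ 1 := ha.2.2.1.trans hh_le_one
  calc ‖a‖ ≤ |a.re| + |a.im| := Complex.norm_le_abs_re_add_abs_im a
    _ ≤ 2 := by linarith

lemma TT_isCompact (ε : ℝ) : IsCompact (TT ε) := by
  apply Metric.isCompact_of_isClosed_isBounded (TT_isClosed ε)
  rw [isBounded_iff_forall_norm_le]
  exact ⟨2, fun a ha => TT_bound ha⟩

lemma real_mem_TT {ε t : ℝ} (h0 : 0 ≤ t) (h1 : t ≤ 1) : (t : ℂ) ∈ TT ε := by
  refine ⟨by simpa using h0, by simpa using h1, ?_, Or.inl (by simp)⟩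
  simp [hh_pos.le]

lemma TT_re_zero {ε : ℝ} (hε : 0 < ε) {a : ℂ} (ha : a ∈ TT ε) (h : a.re = 0) : a = 0 := by
  rcases ha.2.2.2 with h1 | h1
  · exact Complex.ext h h1
  · linarith

/-- the denominators `1 - r ζ̄ z` -/
noncomputable def sv (ζ : ℂ) (θ : ℝ) (z : ℂ) : ℂ := 1 - rt θ * conj ζ * z

/-- the perturbed function -/
noncomputable def Fn {ι : Type} [Fintype ι] (F : ℂ → ℂ) (ζ u : ι → ℂ) (θ : ℝ) (z : ℂ) : ℂ :=
  F z - wt θ * ∑ v, u v * log (sv (ζ v) θ z)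

/-- normalized height -/
noncomputable def tau (ζ : ℂ) (θ : ℝ) (z : ℂ) : ℝ := - wt θ * Real.log ‖sv ζ θ z‖

lemma re_lt_one_of {x : ℂ} (h : ‖x‖ ≤ 1) (hx : x ≠ 1) : x.re < 1 := by
  rcases lt_or_eq_of_le ((Complex.re_le_norm x).trans h) with h1 | h1
  · exact h1
  · exfalso
    apply hx
    have h2 := Complex.sq_norm_sub_sq_re x
    rw [h1] at h2
    have h3 : ‖x‖ ^ 2 ≤ 1 := by nlinarith [norm_nonneg x]
    have h4 : x.im ^ 2 ≤ 0 := by linarith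
    have h5 : x.im = 0 := by nlinarith [sq_nonneg x.im]
    apply Complex.ext
    · simp [h1]
    · simp [h5]

lemma sv_re_ge {ζ z : ℂ} {θ : ℝ} (hζ : ‖ζ‖ = 1) (h0 : 0 < θ) (h1 : θ < 1) (hz : ‖z‖ ≤ 1) :
    θ ^ 2 ≤ (sv ζ θ z).re := by
  unfold sv
  have h2 : ‖(rt θ : ℂ) * conj ζ * z‖ ≤ rt θ := by
    rw [norm_mul, norm_mul, Complex.norm_real, Real.norm_eq_abs, abs_of_pos (rt_mem h0 h1).1,
      RCLike.norm_conj, hζ, mul_one]
    exact mul_le_of_le_one_right (rt_mem h0 h1).1.le hz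
  have h3 := Complex.re_le_norm ((rt θ : ℂ) * conj ζ * z)
  rw [Complex.sub_re, Complex.one_re]
  unfold rt at *
  linarith

lemma sv_re_pos {ζ z : ℂ} {θ : ℝ} (hζ : ‖ζ‖ = 1) (h0 : 0 < θ) (h1 : θ < 1) (hz : ‖z‖ ≤ 1) :
    0 < (sv ζ θ z).re := lt_of_lt_of_le (by positivity) (sv_re_ge hζ h0 h1 hz)

lemma sv_norm_le {ζ z : ℂ} {θ : ℝ} (hζ : ‖ζ‖ = 1) (h0 : 0 < θ) (h1 : θ < 1) (hz : ‖z‖ ≤ 1) :
    ‖sv ζ θ z‖ ≤ 2 := by
  unfold sv
  have h2 : ‖(rt θ : ℂ) * conj ζ * z‖ ≤ 1 := by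
    rw [norm_mul, norm_mul, Complex.norm_real, Real.norm_eq_abs, abs_of_pos (rt_mem h0 h1).1,
      RCLike.norm_conj, hζ, mul_one]
    exact mul_le_one₀ (rt_mem h0 h1).2.le (norm_nonneg _) hz
  calc ‖1 - (rt θ : ℂ) * conj ζ * z‖ ≤ ‖(1 : ℂ)‖ + ‖(rt θ : ℂ) * conj ζ * z‖ := norm_sub_le _ _
    _ ≤ 2 := by rw [norm_one]; linarith

lemma sv_norm_ge {ζ z : ℂ} {θ : ℝ} (hζ : ‖ζ‖ = 1) (h0 : 0 < θ) (h1 : θ < 1) (hz : ‖z‖ ≤ 1) :
    θ ^ 2 ≤ ‖sv ζ θ z‖ := (sv_re_ge hζ h0 h1 hz).trans (Complex.re_le_norm _)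

lemma wt_mul_log_theta {θ : ℝ} (h0 : 0 < θ) (h1 : θ < 1) : wt θ * Real.log θ = - (1 / 2) := by
  unfold wt
  have hl : 0 < Real.log (1 / θ) := Real.log_pos (by rw [lt_div_iff₀ h0]; linarith)
  have : Real.log θ = - Real.log (1 / θ) := by rw [one_div, Real.log_inv]; ring
  rw [this]
  field_simp

lemma tau_le {ζ z : ℂ} {θ : ℝ} (hζ : ‖ζ‖ = 1) (h0 : 0 < θ) (h1 : θ < 1) (hz : ‖z‖ ≤ 1) :
    tau ζ θ z ≤ 1 := by
  unfold tau
  have h2 := sv_norm_ge hζ h0 h1 hz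
  have h3 : Real.log (θ ^ 2) ≤ Real.log ‖sv ζ θ z‖ := Real.log_le_log (by positivity) h2
  rw [Real.log_pow] at h3
  have h4 := wt_mul_log_theta h0 h1
  have h5 := wt_pos h0 h1
  push_cast at h3
  nlinarith

lemma tau_ge {ζ z : ℂ} {θ : ℝ} (hζ : ‖ζ‖ = 1) (h0 : 0 < θ) (h1 : θ < 1) (hz : ‖z‖ ≤ 1) :
    - wt θ ≤ tau ζ θ z := by
  unfold tau
  have h2 := sv_norm_le hζ h0 h1 hz
  have h2' : 0 < ‖sv ζ θ z‖ := lt_of_lt_of_le (by positivity) (sv_norm_ge hζ h0 h1 hz)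
  have h3 : Real.log ‖sv ζ θ z‖ ≤ Real.log 2 := Real.log_le_log h2' h2
  have h4 : Real.log 2 ≤ 1 := by linarith [Real.log_two_lt_d9]
  have h5 := wt_pos h0 h1
  nlinarith

/-- Noshiro and Warschawski criterion -/
lemma injOn_of_re_deriv_pos {S : Set ℂ} (hS : Convex ℝ S) {f f' : ℂ → ℂ} {c : ℂ}
    (hd : ∀ y ∈ S, HasDerivAt f (f' y) y) (hp : ∀ y ∈ S, 0 < (c * f' y).re) : InjOn f S := by
  intro z hz z' hz' hzz
  by_contra hne
  have hsub : z - z' ≠ 0 := sub_ne_zero.mpr hne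
  set g : ℝ → ℂ := fun t => z' + t * (z - z') with hg
  have hgS : ∀ t ∈ Icc (0 : ℝ) 1, g t ∈ S := by
    intro t ht
    have := hS hz' hz (show (0 : ℝ) ≤ 1 - t by linarith [ht.2]) ht.1 (by ring)
    have e : g t = (1 - t) • z' + t • z := by
      simp only [hg, Complex.real_smul]; push_cast; ring
    rw [e]; exact this
  set φ : ℝ → ℝ := fun t => (c * f (g t) / (z - z')).re with hφ
  have hgd : ∀ t : ℝ, HasDerivAt g (z - z') t := by
    intro t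
    have h1 : HasDerivAt (fun t : ℝ => (t : ℂ)) 1 t := Complex.ofRealCLM.hasDerivAt
    have h2 := (h1.mul_const (z - z')).const_add z'
    rw [one_mul] at h2
    exact h2
  have hφd : ∀ t ∈ Icc (0 : ℝ) 1, HasDerivAt φ ((c * f' (g t)).re) t := by
    intro t ht
    have h1 : HasDerivAt (fun t : ℝ => f (g t)) (f' (g t) * (z - z')) t :=
      (hd (g t) (hgS t ht)).comp t (hgd t)
    have h2 : HasDerivAt (fun t : ℝ => c * f (g t) / (z - z')) (c * f' (g t)) t := by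
      have h3 := (h1.const_mul c).div_const (z - z')
      have e : c * (f' (g t) * (z - z')) / (z - z') = c * f' (g t) := by
        field_simp
      rw [e] at h3
      exact h3
    have h4 := (Complex.reCLM.hasFDerivAt.comp_hasDerivAt t h2)
    exact h4
  obtain ⟨t, ht, hslope⟩ := exists_hasDerivAt_eq_slope φ (fun t => (c * f' (g t)).re)
    (show (0 : ℝ) < 1 by norm_num)
    (fun t ht => (hφd t ht).continuousAt.continuousWithinAt)
    (fun t ht => hφd t ⟨ht.1.le, ht.2.le⟩)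
  have h5 : φ 1 = φ 0 := by
    simp only [hφ, hg]
    simp [hzz]
  rw [h5, sub_self, zero_div] at hslope
  have h6 := hp (g t) (hgS t ⟨ht.1.le, ht.2.le⟩)
  have h7 : (c * f' (g t)).re = 0 := hslope
  linarith

end Pool.Agent.Lib.MP_cf5e8f_an
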