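import Pool.Agent.Lib.MP_cf5e8f_an.Step

set_option autoImplicit false

namespace Pool.Agent.Lib.MP_cf5e8f_an

open Filter Topology Complex Metric Set ComplexConjugate MeasureTheory

lemma volume_RR (ε : ℝ) : volume (RR ε) = ENNReal.ofReal (1 - ε) * ENNReal.ofReal (2 * hh) := by
  have h : RR ε = Complex.measurableEquivRealProd ⁻¹' (Icc ε 1 ×ˢ Icc (-hh) hh) := by
    ext a
    simp only [RR, mem_ofPred_eq, mem_preimage, Complex.measurableEquivRealProd_apply, mem_prod,
      mem_Icc, abs_le]
    tauto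
  rw [h, Complex.volume_preserving_equiv_real_prod.measure_preimage
    (measurableSet_Icc.prod measurableSet_Icc).nullMeasurableSet, Measure.volume_eq_prod,
    Measure.prod_prod, Real.volume_Icc, Real.volume_Icc]
  congr 2
  ring

lemma volume_cell (c u : ℂ) (ε : ℝ) :
    volume (cell c u ε) = ENNReal.ofReal (‖u‖ ^ 2) * volume (RR ε) := by
  have h : cell c u ε = (fun x => c + x) '' ((LinearMap.mul ℝ ℂ u) '' RR ε) := by
    unfold cell
    rw [image_image]
    rfl
  have hdet : LinearMap.det (LinearMap.mul ℝ ℂ u) = ‖u‖ ^ 2 := by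
    have h1 := Algebra.norm_complex_apply u
    rw [Algebra.norm_apply, Complex.normSq_eq_norm_sq] at h1
    exact h1
  rw [h, image_add_left, measure_preimage_add, Measure.addHaar_image_linearMap, hdet,
    abs_of_nonneg (by positivity)]

lemma RR_isCompact (ε : ℝ) (hε : 0 ≤ ε) : IsCompact (RR ε) := by
  apply IsCompact.of_isClosed_subset (TT_isCompact ε) _ (RR_subset_TT hε)
  unfold RR
  apply IsClosed.inter (isClosed_le continuous_const continuous_re)
  apply IsClosed.inter (isClosed_le continuous_re continuous_const)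
  exact isClosed_le continuous_im.abs continuous_const

lemma cell_isCompact (c u : ℂ) (ε : ℝ) (hε : 0 ≤ ε) : IsCompact (cell c u ε) := by
  apply (RR_isCompact ε hε).image
  fun_prop

lemma two_hh : 7 / 5 ≤ 2 * hh := by
  have := hh_sq
  nlinarith [hh_pos]

/-- total area of the cells -/
lemma volume_cells {ι : Type} [Fintype ι] {F : ℂ → ℂ} {ζ u : ι → ℂ} {ε : ℝ}
    (h : Geo F ζ u ε) (hε : 0 ≤ ε) (hε1 : ε ≤ 1 / 8) {m : ℝ} (hm : ∀ v, ‖u v‖ ^ 2 = m)
    (hM : 1 / 2 ≤ (Fintype.card ι : ℝ) * m) :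
    ENNReal.ofReal (1 / 2) ≤ volume (⋃ v, cell (F (ζ v)) (u v) ε) := by
  rw [measure_iUnion]
  · rw [tsum_fintype]
    have h1 : ∀ v, volume (cell (F (ζ v)) (u v) ε) = ENNReal.ofReal m * volume (RR ε) := by
      intro v
      rw [volume_cell, hm v]
    have h2 : ENNReal.ofReal 1 ≤ volume (RR ε) := by
      rw [volume_RR, ← ENNReal.ofReal_mul (by linarith)]
      apply ENNReal.ofReal_le_ofReal
      nlinarith [two_hh]
    rw [Finset.sum_congr rfl fun v _ => h1 v, Finset.sum_const, Finset.card_univ, nsmul_eq_mul]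
    rw [ENNReal.ofReal_one] at h2
    calc ENNReal.ofReal (1 / 2) ≤ ENNReal.ofReal ((Fintype.card ι : ℝ) * m) :=
          ENNReal.ofReal_le_ofReal hM
      _ = (Fintype.card ι : ENNReal) * ENNReal.ofReal m := by
          rw [ENNReal.ofReal_mul (by positivity), ENNReal.ofReal_natCast]
      _ = (Fintype.card ι : ENNReal) * (ENNReal.ofReal m * 1) := by rw [mul_one]
      _ ≤ _ := by gcongr
  · intro v v' hv
    rw [Function.onFun, Set.disjoint_left]
    rintro x ⟨a, ha, rfl⟩ ⟨b, hb, hab⟩
    exact h.disj v v' hv a (RR_subset_TT hε ha) b (RR_subset_TT hε hb) hab.symm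
  · intro v
    exact (cell_isCompact _ _ _ hε).isClosed.measurableSet

end Pool.Agent.Lib.MP_cf5e8f_an
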