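import Pool.Agent.Lib.MP_cf5e8f_an.Local

set_option autoImplicit false

namespace Pool.Agent.Lib.MP_cf5e8f_an

open Filter Topology Complex Metric Set ComplexConjugate

/-- new gate position -/
noncomputable def zn (ζ : ℂ) (σ θ : ℝ) : ℂ := ζ * cexp ((σ * θ : ℝ) * I)

/-- new gate vector -/
noncomputable def un (u : ℂ) (κ σ : ℝ) : ℂ := I * σ * κ * u

/-- the value of `sv` at the new gate -/
noncomputable def s0 (σ θ : ℝ) : ℂ := 1 - rt θ * cexp ((σ * θ : ℝ) * I)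

lemma conj_mul_self' {ζ : ℂ} (hζ : ‖ζ‖ = 1) : conj ζ * ζ = 1 := by
  rw [mul_comm, Complex.mul_conj, Complex.normSq_eq_norm_sq, hζ]; simp

lemma sv_zn {ζ : ℂ} (hζ : ‖ζ‖ = 1) (σ θ : ℝ) : sv ζ θ (zn ζ σ θ) = s0 σ θ := by
  unfold sv zn s0
  have : (rt θ : ℂ) * conj ζ * (ζ * cexp ((σ * θ : ℝ) * I)) =
      rt θ * (conj ζ * ζ) * cexp ((σ * θ : ℝ) * I) := by ring
  rw [this, conj_mul_self' hζ, mul_one]

lemma norm_zn {ζ : ℂ} (hζ : ‖ζ‖ = 1) (σ θ : ℝ) : ‖zn ζ σ θ‖ = 1 := by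
  unfold zn
  rw [norm_mul, hζ, Complex.norm_exp_ofReal_mul_I, one_mul]

lemma tendsto_id_zero : Tendsto (fun θ : ℝ => θ) (𝓝[>] 0) (𝓝 0) := nhdsWithin_le_nhds

lemma tendsto_ofReal_zero : Tendsto (fun θ : ℝ => (θ : ℂ)) (𝓝[>] 0) (𝓝 0) := by
  have h := (Complex.continuous_ofReal.tendsto 0).comp tendsto_id_zero
  rw [Complex.ofReal_zero] at h
  exact h

lemma tendsto_zn (ζ : ℂ) (σ : ℝ) : Tendsto (fun θ => zn ζ σ θ) (𝓝[>] 0) (𝓝 ζ) := by
  have h := (tendsto_exp σ).const_mul ζ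
  rw [mul_one] at h
  exact h

lemma tendsto_s0 (σ : ℝ) : Tendsto (fun θ : ℝ => s0 σ θ / θ) (𝓝[>] 0) (𝓝 (-σ * I)) := by
  have h1 : HasDerivAt (fun θ : ℝ => cexp ((σ * θ : ℝ) * I)) (σ * I) 0 := by
    have ha : HasDerivAt (fun θ : ℝ => ((σ * θ : ℝ) : ℂ) * I) (σ * I) 0 := by
      have hb : HasDerivAt (fun θ : ℝ => ((θ : ℝ) : ℂ)) 1 0 := Complex.ofRealCLM.hasDerivAt
      have hc := (hb.const_mul (σ : ℂ)).mul_const I
      rw [mul_one] at hc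
      refine hc.congr_of_eventuallyEq ?_
      filter_upwards with θ
      push_cast; ring
    have hd := ha.cexp
    simpa using hd
  have h2 := h1.tendsto_slope_zero_right
  have h3 : Tendsto (fun θ : ℝ => (θ : ℂ) * cexp ((σ * θ : ℝ) * I)) (𝓝[>] 0) (𝓝 0) := by
    have := tendsto_ofReal_zero.mul (tendsto_exp σ)
    rw [zero_mul] at this
    exact this
  have h4 := h2.neg.add h3
  rw [add_zero] at h4
  have e : -(σ * I : ℂ) = -σ * I := by ring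
  rw [e] at h4
  refine h4.congr' ?_
  filter_upwards [eventually_Ioo] with θ hθ
  have hθ0 : (θ : ℂ) ≠ 0 := by exact_mod_cast hθ.1.ne'
  unfold s0 rt
  rw [Complex.real_smul]
  push_cast
  simp only [zero_add, mul_zero, zero_mul, Complex.exp_zero]
  field_simp
  ring

/-- `θ * log (1/θ) → 0` in the shape needed -/
lemma tendsto_theta_div_wt : Tendsto (fun θ : ℝ => θ / wt θ) (𝓝[>] 0) (𝓝 0) := by
  have h := tendsto_log_mul_rpow_nhdsGT_zero (show (0 : ℝ) < 1 by norm_num)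
  have h2 := h.const_mul (-2 : ℝ)
  rw [mul_zero] at h2
  refine h2.congr' ?_
  filter_upwards [eventually_Ioo] with θ hθ
  unfold wt
  rw [Real.rpow_one, one_div θ, Real.log_inv]
  field_simp

lemma tendsto_sqrt_div_wt : Tendsto (fun θ : ℝ => θ ^ (1 / 2 : ℝ) / wt θ) (𝓝[>] 0) (𝓝 0) := by
  have h := tendsto_log_mul_rpow_nhdsGT_zero (show (0 : ℝ) < 1 / 2 by norm_num)
  have h2 := h.const_mul (-2 : ℝ)
  rw [mul_zero] at h2
  refine h2.congr' ?_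
  filter_upwards [eventually_Ioo] with θ hθ
  unfold wt
  rw [one_div θ, Real.log_inv]
  field_simp

/-- if the height tends to `1/2`, then `|s|/w → 0` -/
lemma norm_div_wt_tendsto {l : Filter ℝ} (hl : l ≤ 𝓝[>] 0) {ζ : ℂ} {z : ℝ → ℂ}
    (hζ : ‖ζ‖ = 1) (hz : ∀ᶠ θ in l, ‖z θ‖ ≤ 1)
    (ht : Tendsto (fun θ => tau ζ θ (z θ)) l (𝓝 (1 / 2))) :
    Tendsto (fun θ => ‖sv ζ θ (z θ)‖ / wt θ) l (𝓝 0) := by
  have h1 : ∀ᶠ θ in l, 1 / 4 < tau ζ θ (z θ) := ht.eventually_const_lt (by norm_num)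
  have h2 := eventually_Ioo.filter_mono hl
  refine squeeze_zero' ?_ ?_ (tendsto_sqrt_div_wt.mono_left hl)
  · filter_upwards [h2] with θ hθ
    exact div_nonneg (norm_nonneg _) (wt_pos hθ.1 hθ.2).le
  · filter_upwards [h1, h2, hz] with θ h1 h2 h3
    apply div_le_div_of_nonneg_right _ (wt_pos h2.1 h2.2).le
    have hpos : 0 < ‖sv ζ θ (z θ)‖ := lt_of_lt_of_le (by have := h2.1; positivity)
      (sv_norm_ge hζ h2.1 h2.2 h3)
    rw [← Real.log_le_log_iff hpos (Real.rpow_pos_of_pos h2.1 _), Real.log_rpow h2.1]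
    unfold tau at h1
    have h4 := wt_mul_log_theta h2.1 h2.2
    have h5 := wt_pos h2.1 h2.2
    by_contra hcon
    push Not at hcon
    nlinarith

lemma tendsto_tau_zn {ζ : ℂ} (hζ : ‖ζ‖ = 1) {σ : ℝ} (hσ : |σ| = 1) :
    Tendsto (fun θ => tau ζ θ (zn ζ σ θ)) (𝓝[>] 0) (𝓝 (1 / 2)) := by
  have h1 : Tendsto (fun θ : ℝ => ‖s0 σ θ / θ‖) (𝓝[>] 0) (𝓝 1) := by
    have := (tendsto_s0 σ).norm
    have e : ‖(-σ * I : ℂ)‖ = 1 := by
      rw [norm_mul, norm_neg, Complex.norm_real, Complex.norm_I, Real.norm_eq_abs, hσ, mul_one]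
    rw [e] at this
    exact this
  have h2 := h1.log one_ne_zero
  have h3 := tendsto_wt.mul h2
  rw [zero_mul] at h3
  have h4 := (tendsto_const_nhds (x := (1 / 2 : ℝ))).sub h3
  rw [sub_zero] at h4
  refine h4.congr' ?_
  have h5 : ∀ᶠ θ : ℝ in 𝓝[>] 0, ‖s0 σ θ / θ‖ ≠ 0 := h1.eventually_ne one_ne_zero
  filter_upwards [eventually_Ioo, h5] with θ hθ h5
  unfold tau
  rw [sv_zn hζ]
  have hs : s0 σ θ ≠ 0 := by
    intro h; apply h5; rw [h]; simp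
  rw [norm_div, Real.log_div (norm_ne_zero_iff.mpr hs)
    (norm_ne_zero_iff.mpr (by exact_mod_cast hθ.1.ne')), Complex.norm_real, Real.norm_eq_abs,
    abs_of_pos hθ.1]
  have := wt_mul_log_theta hθ.1 hθ.2
  linarith

section

variable {ι : Type} [Fintype ι] {F : ℂ → ℂ} {ζ u : ι → ℂ} {ε : ℝ}

lemma tendsto_Fn_zn (h : Geo F ζ u ε) (v : ι) {σ : ℝ} (hσ : |σ| = 1) :
    Tendsto (fun θ => Fn F ζ u θ (zn (ζ v) σ θ)) (𝓝[>] 0) (𝓝 (F (ζ v) + u v * (1 / 2))) := by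
  have := Fn_tendsto_at h (l := 𝓝[>] 0) (θ := fun θ => θ) (z := fun θ => zn (ζ v) σ θ)
    tendsto_id (tendsto_zn (ζ v) σ) (tendsto_tau_zn (h.norm_zeta v) hσ)
  simpa using this

/-- (C3) direction of the new gates -/
lemma dir_new (h : Geo F ζ u ε) (v : ι) {σ κ : ℝ} (hσ : |σ| = 1) (hκ : 0 < κ) :
    ∀ᶠ θ in 𝓝[>] (0 : ℝ), 0 < (zn (ζ v) σ θ * Fd F ζ u θ (zn (ζ v) σ θ) / un (u v) κ σ).re := by
  classical
  have hθ : Tendsto (fun θ : ℝ => θ) (𝓝[>] 0) (𝓝[>] 0) := tendsto_id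
  have hz := tendsto_zn (ζ v) σ
  have hp : ‖ζ v‖ ≤ 1 := (h.norm_zeta v).le
  have hF : Tendsto (fun θ : ℝ => deriv F (zn (ζ v) σ θ)) (𝓝[>] 0) (𝓝 (deriv F (ζ v))) :=
    (h.deriv_contAt hp).tendsto.comp hz
  have h2 : Tendsto (fun θ : ℝ => ∑ v' ∈ Finset.univ.erase v, u v' *
      (wt θ * (rt θ * conj (ζ v') / sv (ζ v') θ (zn (ζ v) σ θ)))) (𝓝[>] 0)
      (𝓝 (∑ v' ∈ Finset.univ.erase v, u v' * (0 : ℂ))) := by
    apply tendsto_finsetSum
    intro v' hv'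
    exact (term_tendsto_away hθ hz hp (h.norm_zeta v')
      (h.zeta_ne (Finset.ne_of_mem_erase hv').symm)).const_mul _
  simp only [mul_zero, Finset.sum_const_zero] at h2
  have h3 : Tendsto (fun θ : ℝ => ((θ / wt θ : ℝ) : ℂ)) (𝓝[>] 0) (𝓝 0) := by
    have h := (Complex.continuous_ofReal.tendsto 0).comp tendsto_theta_div_wt
    rw [Complex.ofReal_zero] at h
    exact h
  have hσ2 : (σ : ℂ) * σ = 1 := by
    have : σ * σ = 1 := by rw [← abs_mul_abs_self, hσ, one_mul]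
    exact_mod_cast this
  have hσ0 : (σ : ℂ) ≠ 0 := by
    intro h0; rw [h0] at hσ2; simp at hσ2
  have hκ0 : (κ : ℂ) ≠ 0 := by exact_mod_cast hκ.ne'
  -- main term
  have h4 : Tendsto (fun θ : ℝ => cexp ((σ * θ : ℝ) * I) * rt θ / (s0 σ θ / θ) / (I * σ * κ))
      (𝓝[>] 0) (𝓝 (1 * 1 / (-σ * I) / (I * σ * κ))) := by
    apply Tendsto.div_const
    apply Tendsto.div _ (tendsto_s0 σ)
    · simp [hσ0]
    · exact (tendsto_exp σ).mul (tendsto_rt_comp hθ)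
  have e4 : (1 * 1 / (-σ * I) / (I * σ * κ) : ℂ) = 1 / κ := by
    have : (-σ * I * (I * σ * κ) : ℂ) = κ := by
      calc (-σ * I * (I * σ * κ) : ℂ) = -(I * I) * (σ * σ) * κ := by ring
        _ = κ := by rw [Complex.I_mul_I, hσ2]; ring
    rw [one_mul, div_div, this]
  rw [e4] at h4
  have h5 := ((h3.mul ((hz.mul (hF.add h2)).div_const (un (u v) κ σ)))).add h4
  rw [zero_mul, zero_add] at h5
  have h6 := (Complex.continuous_re.tendsto _).comp h5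
  have h7 : (0 : ℝ) < (1 / κ : ℂ).re := by
    have : (1 / κ : ℂ) = ((1 / κ : ℝ) : ℂ) := by push_cast; ring
    rw [this, Complex.ofReal_re]; positivity
  have h8 := h6.eventually_const_lt h7
  filter_upwards [h8, eventually_Ioo] with θ h8 hθ1
  have hw := wt_pos hθ1.1 hθ1.2
  have hs0 : s0 σ θ ≠ 0 := by
    rw [← sv_zn (h.norm_zeta v)]
    intro h0
    have := sv_re_pos (h.norm_zeta v) hθ1.1 hθ1.2 (norm_zn (h.norm_zeta v) σ θ).le
    rw [h0] at this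
    simp at this
  have hu := h.u_ne v
  have hw0 : (wt θ : ℂ) ≠ 0 := by exact_mod_cast hw.ne'
  have hθ0 : (θ : ℂ) ≠ 0 := by exact_mod_cast hθ1.1.ne'
  have e : ((θ / wt θ : ℝ) : ℂ) * (zn (ζ v) σ θ * Fd F ζ u θ (zn (ζ v) σ θ) / un (u v) κ σ) =
      ((θ / wt θ : ℝ) : ℂ) * (zn (ζ v) σ θ * (deriv F (zn (ζ v) σ θ) +
        ∑ v' ∈ Finset.univ.erase v, u v' *
      (wt θ * (rt θ * conj (ζ v') / sv (ζ v') θ (zn (ζ v) σ θ)))) / un (u v) κ σ) +
      cexp ((σ * θ : ℝ) * I) * rt θ / (s0 σ θ / θ) / (I * σ * κ) := by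
    unfold Fd
    rw [← Finset.add_sum_erase Finset.univ _ (Finset.mem_univ v), sv_zn (h.norm_zeta v)]
    have e2 : ((θ / wt θ : ℝ) : ℂ) * (zn (ζ v) σ θ *
        (u v * (wt θ * (rt θ * conj (ζ v) / s0 σ θ))) / un (u v) κ σ) =
        cexp ((σ * θ : ℝ) * I) * rt θ / (s0 σ θ / θ) / (I * σ * κ) := by
      unfold zn un
      push_cast
      have hc := conj_mul_self' (h.norm_zeta v)
      calc _ = (conj (ζ v) * ζ v) * (cexp (σ * θ * I) * rt θ / (s0 σ θ / θ) / (I * σ * κ)) *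
          ((wt θ / wt θ) * (u v / u v)) := by
            field_simp
        _ = _ := by rw [hc, div_self hw0, div_self hu]; ring
    rw [← e2]
    ring
  have h9 : 0 < (((θ / wt θ : ℝ) : ℂ) * (zn (ζ v) σ θ * Fd F ζ u θ (zn (ζ v) σ θ) /
      un (u v) κ σ)).re := by
    rw [e]; exact h8
  rw [Complex.re_ofReal_mul] at h9
  exact pos_of_mul_pos_right h9 (div_pos hθ1.1 hw).le

end

end Pool.Agent.Lib.MP_cf5e8f_an
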