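import Pool.Agent.Lib.MP_cf5e8f_an.Gates

set_option autoImplicit false

namespace Pool.Agent.Lib.MP_cf5e8f_an

open Filter Topology Complex Metric Set ComplexConjugate

lemma contain_RR {ε κ σ : ℝ} (hε : 0 < ε) (hε1 : ε ≤ 1 / 4) (hκ : κ = (1 - 4 * ε) * hh)
    (hσ : |σ| = 1) {a e : ℂ} (ha : a ∈ RR 0) (he : ‖e‖ ≤ ε) :
    1 / 2 + I * σ * κ * a + e ∈ RR ε := by
  have hre : (1 / 2 + I * σ * κ * a + e).re = 1 / 2 - σ * κ * a.im + e.re := by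
    simp [Complex.mul_re, Complex.mul_im]
    ring
  have him : (1 / 2 + I * σ * κ * a + e).im = σ * κ * a.re + e.im := by
    simp [Complex.mul_re, Complex.mul_im]
  have hκ0 : 0 ≤ κ := by rw [hκ]; exact mul_nonneg (by linarith) hh_pos.le
  have e1 : |σ * κ * a.im| ≤ (1 - 4 * ε) / 2 := by
    rw [abs_mul, abs_mul, hσ, one_mul, abs_of_nonneg hκ0]
    calc κ * |a.im| ≤ κ * hh := mul_le_mul_of_nonneg_left ha.2.2 hκ0
      _ = (1 - 4 * ε) * hh ^ 2 := by rw [hκ]; ring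
      _ = (1 - 4 * ε) / 2 := by rw [hh_sq]; ring
  have e2 : |σ * κ * a.re| ≤ (1 - 4 * ε) * hh := by
    rw [abs_mul, abs_mul, hσ, one_mul, abs_of_nonneg hκ0, abs_of_nonneg ha.1, hκ]
    exact mul_le_of_le_one_right (mul_nonneg (by linarith) hh_pos.le) ha.2.1
  have e3 := (Complex.abs_re_le_norm e).trans he
  have e4 := (Complex.abs_im_le_norm e).trans he
  rw [abs_le] at e1 e2 e3 e4
  have hh2 : (1 : ℝ) / 4 ≤ hh := by nlinarith [hh_pos, hh_sq, hh_le_one]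
  refine ⟨?_, ?_, ?_⟩
  · rw [hre]; linarith
  · rw [hre]; linarith
  · rw [him, abs_le]
    constructor <;> nlinarith

lemma TT_subset_RR {ε : ℝ} : TT ε ⊆ RR 0 := fun _ ha => ⟨ha.1, ha.2.1, ha.2.2.1⟩

section

variable {ι : Type} [Fintype ι] {F : ℂ → ℂ} {ζ u : ι → ℂ} {ε : ℝ}

/-- (C6) the new cells are inside the old ones -/
lemma new_contain (h : Geo F ζ u ε) (v : ι) {σ κ : ℝ} (hε : 0 < ε) (hε1 : ε ≤ 1 / 4)
    (hκ : κ = (1 - 4 * ε) * hh) (hσ : |σ| = 1) :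
    ∀ᶠ θ in 𝓝[>] (0 : ℝ), ∀ a ∈ RR 0, ∃ b ∈ RR ε,
      Fn F ζ u θ (zn (ζ v) σ θ) + un (u v) κ σ * a = F (ζ v) + u v * b := by
  have h1 := tendsto_Fn_zn h v hσ
  have h2 := (h1.sub_const (F (ζ v) + u v * (1 / 2))).div_const (u v)
  rw [sub_self, zero_div] at h2
  have h3 := h2.norm
  rw [norm_zero] at h3
  filter_upwards [h3.eventually_lt_const hε] with θ hθ a ha
  refine ⟨1 / 2 + I * σ * κ * a +
    (Fn F ζ u θ (zn (ζ v) σ θ) - (F (ζ v) + u v * (1 / 2))) / u v,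
    contain_RR hε hε1 hκ hσ ha hθ.le, ?_⟩
  have hu := h.u_ne v
  unfold un
  field_simp
  ring

open Classical in
/-- the perturbed function without the singular term at gate `v` -/
noncomputable def Gf {ι : Type} [Fintype ι] (F : ℂ → ℂ) (ζ u : ι → ℂ) (v : ι) (θ : ℝ) (z : ℂ) :
    ℂ :=
  F z - ∑ v' ∈ Finset.univ.erase v, u v' * (wt θ * log (sv (ζ v') θ z))

open Classical in
/-- its derivative -/
noncomputable def Gd {ι : Type} [Fintype ι] (F : ℂ → ℂ) (ζ u : ι → ℂ) (v : ι) (θ : ℝ) (z : ℂ) :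
    ℂ :=
  deriv F z + ∑ v' ∈ Finset.univ.erase v, u v' * (wt θ * (rt θ * conj (ζ v') / sv (ζ v') θ z))

lemma Fn_eq_Gf (v : ι) (θ : ℝ) (z : ℂ) :
    Fn F ζ u θ z = Gf F ζ u v θ z - u v * (wt θ * log (sv (ζ v) θ z)) := by
  classical
  unfold Fn Gf
  rw [Finset.mul_sum, ← Finset.add_sum_erase Finset.univ _ (Finset.mem_univ v)]
  have : ∀ v' : ι, (wt θ : ℂ) * (u v' * log (sv (ζ v') θ z)) =
      u v' * (wt θ * log (sv (ζ v') θ z)) := fun v' => by ring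
  simp only [this]
  have e : ∀ s : ℂ, F z - (u v * (wt θ * log (sv (ζ v) θ z)) + s) =
      F z - s - u v * (wt θ * log (sv (ζ v) θ z)) := fun s => by ring
  rw [e]

lemma Gf_hasDerivAt (h : Geo F ζ u ε) (v : ι) {θ : ℝ} (h0 : 0 < θ) (h1 : θ < 1) {y : ℂ}
    (hy : ‖y‖ ≤ 1) : HasDerivAt (Gf F ζ u v θ) (Gd F ζ u v θ y) y := by
  classical
  have h2 : HasDerivAt (fun z => ∑ v' ∈ Finset.univ.erase v,
      u v' * (wt θ * log (sv (ζ v') θ z)))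
      (∑ v' ∈ Finset.univ.erase v, u v' * (wt θ * (-(rt θ * conj (ζ v') / sv (ζ v') θ y)))) y := by
    apply HasDerivAt.fun_sum
    intro v' _
    exact ((logsv_hasDerivAt (Or.inl (sv_re_pos (h.norm_zeta v') h0 h1 hy))).const_mul _).const_mul _
  have h3 := (h.diffAt hy).hasDerivAt.sub h2
  have e : deriv F y - ∑ v' ∈ Finset.univ.erase v,
      u v' * (wt θ * (-(rt θ * conj (ζ v') / sv (ζ v') θ y))) =
      deriv F y + ∑ v' ∈ Finset.univ.erase v,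
      u v' * (wt θ * (rt θ * conj (ζ v') / sv (ζ v') θ y)) := by
    rw [sub_eq_add_neg, ← Finset.sum_neg_distrib]
    congr 1
    apply Finset.sum_congr rfl
    intro v' _; ring
  rw [e] at h3
  unfold Gf Gd
  exact h3

lemma Gd_bound (h : Geo F ζ u ε) (v : ι) :
    ∃ C : ℝ, 0 < C ∧ ∃ ρ > 0, ∀ᶠ θ in 𝓝[>] (0 : ℝ), ∀ y ∈ ball (ζ v) ρ ∩ closedBall 0 1,
      ‖Gd F ζ u v θ y‖ ≤ C := by
  classical
  refine ⟨‖deriv F (ζ v)‖ + 1, by positivity, ?_⟩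
  have hp : ‖ζ v‖ ≤ 1 := (h.norm_zeta v).le
  set l : Filter (ℝ × ℂ) := (𝓝[>] 0) ×ˢ (𝓝[closedBall 0 1] (ζ v)) with hl
  have hθ : Tendsto (fun q : ℝ × ℂ => q.1) l (𝓝[>] 0) := tendsto_fst
  have hz : Tendsto (fun q : ℝ × ℂ => q.2) l (𝓝 (ζ v)) :=
    tendsto_snd.mono_right nhdsWithin_le_nhds
  have hF : Tendsto (fun q : ℝ × ℂ => deriv F q.2) l (𝓝 (deriv F (ζ v))) :=
    (h.deriv_contAt hp).tendsto.comp hz
  have h2 : Tendsto (fun q : ℝ × ℂ => ∑ v' ∈ Finset.univ.erase v, u v' *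
      (wt q.1 * (rt q.1 * conj (ζ v') / sv (ζ v') q.1 q.2))) l
      (𝓝 (∑ v' ∈ Finset.univ.erase v, u v' * (0 : ℂ))) := by
    apply tendsto_finsetSum
    intro v' hv'
    exact (term_tendsto_away hθ hz hp (h.norm_zeta v')
      (h.zeta_ne (Finset.ne_of_mem_erase hv').symm)).const_mul _
  simp only [mul_zero, Finset.sum_const_zero] at h2
  have h3 := (hF.add h2).norm
  rw [add_zero] at h3
  have h4 : ∀ᶠ q : ℝ × ℂ in l, ‖Gd F ζ u v q.1 q.2‖ < ‖deriv F (ζ v)‖ + 1 := by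
    have := h3.eventually_lt_const (show ‖deriv F (ζ v)‖ < ‖deriv F (ζ v)‖ + 1 by linarith)
    filter_upwards [this] with q hq
    unfold Gd
    exact hq
  rw [eventually_prod_iff] at h4
  obtain ⟨pa, hpa, pb, hpb, hab⟩ := h4
  rw [Filter.Eventually, Metric.mem_nhdsWithin_iff] at hpb
  obtain ⟨ρ, hρ, hsub⟩ := hpb
  refine ⟨ρ, hρ, ?_⟩
  filter_upwards [hpa] with θ hθ y hy
  exact (hab hθ (hsub hy)).le

lemma Gf_lip (h : Geo F ζ u ε) (v : ι) :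
    ∃ C : ℝ, 0 < C ∧ ∃ ρ > 0, ∀ᶠ θ in 𝓝[>] (0 : ℝ), ∀ y ∈ ball (ζ v) ρ ∩ closedBall 0 1,
      ∀ y' ∈ ball (ζ v) ρ ∩ closedBall 0 1,
      ‖Gf F ζ u v θ y - Gf F ζ u v θ y'‖ ≤ C * ‖y - y'‖ := by
  obtain ⟨C, hC, ρ, hρ, hev⟩ := Gd_bound (u := u) h v
  refine ⟨C, hC, ρ, hρ, ?_⟩
  filter_upwards [hev, eventually_Ioo] with θ hθ h01 y hy y' hy'
  have hconv : Convex ℝ (ball (ζ v) ρ ∩ closedBall (0 : ℂ) 1) :=
    (convex_ball _ ρ).inter (convex_closedBall 0 1)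
  exact hconv.norm_image_sub_le_of_norm_hasDerivWithin_le
    (fun z hz => (Gf_hasDerivAt h v h01.1 h01.2 (by simpa using hz.2)).hasDerivWithinAt)
    (fun z hz => hθ z hz) hy' hy

/-- the argument of `s0` -/
lemma tendsto_log_s0 {σ : ℝ} (hσ : |σ| = 1) :
    Tendsto (fun θ : ℝ => arg (s0 σ θ)) (𝓝[>] 0) (𝓝 (-σ * (Real.pi / 2))) := by
  have h1 := tendsto_s0 σ
  have hσ' : σ = 1 ∨ σ = -1 := eq_or_eq_neg_of_abs_eq hσ
  have h2 : (-σ * I : ℂ) ∈ slitPlane := by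
    right
    rcases hσ' with h | h <;> rw [h] <;> simp
  have h3 := (continuousAt_arg h2).tendsto.comp h1
  have e : arg (-σ * I : ℂ) = -σ * (Real.pi / 2) := by
    rcases hσ' with h | h
    · rw [h]; simp
    · rw [h]; simp
  rw [e] at h3
  refine h3.congr' ?_
  filter_upwards [eventually_Ioo] with θ hθ
  simp only [Function.comp_apply]
  have : s0 σ θ / θ = ((θ⁻¹ : ℝ) : ℂ) * s0 σ θ := by
    push_cast; ring
  rw [this, Complex.arg_real_mul _ (inv_pos.mpr hθ.1)]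

end

end Pool.Agent.Lib.MP_cf5e8f_an
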