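import Pool.Agent.Lib.MP_cf5e8f_an.Gates2

set_option autoImplicit false

namespace Pool.Agent.Lib.MP_cf5e8f_an

open Filter Topology Complex Metric Set ComplexConjugate

lemma norm_zn_sub_le {ζ : ℂ} (hζ : ‖ζ‖ = 1) {σ θ : ℝ} (hσ : |σ| = 1) (h0 : 0 < θ) (h1 : θ < 1) :
    ‖zn ζ σ θ - ζ‖ ≤ 2 * θ := by
  have e : zn ζ σ θ - ζ = ζ * (cexp ((σ * θ : ℝ) * I) - 1) := by unfold zn; ring
  have e2 : ‖((σ * θ : ℝ) : ℂ) * I‖ = θ := by
    rw [norm_mul, Complex.norm_I, mul_one, Complex.norm_real, Real.norm_eq_abs, abs_mul, hσ,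
      one_mul, abs_of_pos h0]
  rw [e, norm_mul, hζ, one_mul]
  have := Complex.norm_exp_sub_one_le (x := ((σ * θ : ℝ) : ℂ) * I) (by rw [e2]; exact h1.le)
  rw [e2] at this
  exact this

section

variable {ι : Type} [Fintype ι] {F : ℂ → ℂ} {ζ u : ι → ℂ} {ε : ℝ}

/-- (C4) sibling cells are disjoint -/
lemma sibling_disj (h : Geo F ζ u ε) (v : ι) {κ : ℝ} (hκ : 0 < κ) :
    ∀ᶠ θ in 𝓝[>] (0 : ℝ), ∀ a ∈ RR 0, ∀ b ∈ RR 0,
      Fn F ζ u θ (zn (ζ v) 1 θ) + un (u v) κ 1 * a ≠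
        Fn F ζ u θ (zn (ζ v) (-1) θ) + un (u v) κ (-1) * b := by
  obtain ⟨C, hC, ρ, hρ, hlip⟩ := Gf_lip (u := u) h v
  have hσ1 : |(1 : ℝ)| = 1 := by norm_num
  have hσ2 : |(-1 : ℝ)| = 1 := by norm_num
  have hu := h.u_ne v
  have hun : 0 < ‖u v‖ := norm_pos_iff.mpr hu
  have ha1 := tendsto_log_s0 hσ1
  have ha2 := tendsto_log_s0 hσ2
  have ha3 := ha1.sub ha2
  have e3 : -(1 : ℝ) * (Real.pi / 2) - -(-1 : ℝ) * (Real.pi / 2) = - Real.pi := by ring
  rw [e3] at ha3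
  have ha4 := ha3.eventually_lt_const (show - Real.pi < -2 by linarith [Real.pi_gt_three])
  have hw1 := tendsto_theta_div_wt.const_mul (C * 4 / ‖u v‖)
  rw [mul_zero] at hw1
  have hw2 := hw1.eventually_lt_const (show (0 : ℝ) < 1 by norm_num)
  have hz1 := (tendsto_zn (ζ v) 1).eventually (ball_mem_nhds (ζ v) hρ)
  have hz2 := (tendsto_zn (ζ v) (-1)).eventually (ball_mem_nhds (ζ v) hρ)
  filter_upwards [hlip, ha4, hw2, hz1, hz2, eventually_Ioo] with θ hl ha hw hz1 hz2 h01 a haR b hbR heq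
  have hwp := wt_pos h01.1 h01.2
  have hm1 : zn (ζ v) 1 θ ∈ ball (ζ v) ρ ∩ closedBall 0 1 :=
    ⟨hz1, by simp [norm_zn (h.norm_zeta v)]⟩
  have hm2 : zn (ζ v) (-1) θ ∈ ball (ζ v) ρ ∩ closedBall 0 1 :=
    ⟨hz2, by simp [norm_zn (h.norm_zeta v)]⟩
  have hl' := hl _ hm1 _ hm2
  have hd : ‖zn (ζ v) 1 θ - zn (ζ v) (-1) θ‖ ≤ 4 * θ := by
    have a1 := norm_zn_sub_le (h.norm_zeta v) hσ1 h01.1 h01.2
    have a2 := norm_zn_sub_le (h.norm_zeta v) hσ2 h01.1 h01.2
    calc ‖zn (ζ v) 1 θ - zn (ζ v) (-1) θ‖ =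
        ‖(zn (ζ v) 1 θ - ζ v) - (zn (ζ v) (-1) θ - ζ v)‖ := by ring_nf
      _ ≤ _ := (norm_sub_le _ _).trans (by linarith)
  set D : ℂ := (Gf F ζ u v θ (zn (ζ v) 1 θ) - Gf F ζ u v θ (zn (ζ v) (-1) θ)) / u v with hD
  have hDn : ‖D‖ ≤ C * 4 / ‖u v‖ * θ := by
    rw [hD, norm_div, div_le_iff₀ hun]
    calc _ ≤ C * ‖zn (ζ v) 1 θ - zn (ζ v) (-1) θ‖ := hl'
      _ ≤ C * (4 * θ) := mul_le_mul_of_nonneg_left hd hC.le
      _ = _ := by field_simp
  rw [Fn_eq_Gf v, Fn_eq_Gf v, sv_zn (h.norm_zeta v), sv_zn (h.norm_zeta v)] at heq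
  have key : D - wt θ * (log (s0 1 θ) - log (s0 (-1) θ)) = -(I * κ * (a + b)) := by
    rw [hD]
    unfold un at heq
    push_cast at heq
    field_simp
    linear_combination heq
  have him := congrArg Complex.im key
  rw [Complex.sub_im, Complex.im_ofReal_mul, Complex.sub_im, Complex.log_im, Complex.log_im,
    Complex.neg_im] at him
  have e5 : (I * κ * (a + b)).im = κ * (a.re + b.re) := by
    simp [Complex.mul_re, Complex.mul_im]
  rw [e5] at him
  have hpos : 0 ≤ κ * (a.re + b.re) := mul_nonneg hκ.le (add_nonneg haR.1 hbR.1)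
  have hDi := (Complex.abs_im_le_norm D).trans hDn
  rw [abs_le] at hDi
  have hw3 : C * 4 / ‖u v‖ * θ < wt θ := by
    rw [← mul_div_assoc, div_lt_one hwp] at hw
    exact hw
  nlinarith [hDi.1]

/-- local analysis for (C5) -/
lemma clear_local (h : Geo F ζ u ε) (v : ι) {σ κ : ℝ} (hσ : |σ| = 1) (hκ : 0 < κ)
    {l : Filter ℝ} [l.NeBot] (hl : l ≤ 𝓝[>] 0) {y : ℝ → ℂ} {A : ℝ → ℝ}
    (hy : ∀ᶠ θ in l, ‖y θ‖ ≤ 1) (hyl : Tendsto y l (𝓝 (ζ v)))
    (htau : Tendsto (fun θ => tau (ζ v) θ (y θ)) l (𝓝 (1 / 2)))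
    (hA : ∀ᶠ θ in l, 0 < A θ)
    (heq : ∀ᶠ θ in l, Fn F ζ u θ (y θ) =
      Fn F ζ u θ (zn (ζ v) σ θ) + un (u v) κ σ * A θ) : False := by
  obtain ⟨C, hC, ρ, hρ, hlip⟩ := Gf_lip (u := u) h v
  have hu := h.u_ne v
  have hun : 0 < ‖u v‖ := norm_pos_iff.mpr hu
  have hζ := h.norm_zeta v
  have hσσ : σ * σ = 1 := by rw [← abs_mul_abs_self, hσ, one_mul]
  set s : ℝ → ℂ := fun θ => sv (ζ v) θ (y θ) with hs
  set t : ℝ → ℂ := fun θ => s0 σ θ with ht
  set x : ℝ → ℂ := fun θ => log (s θ) - log (t θ) with hx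
  set D : ℝ → ℂ := fun θ => (Gf F ζ u v θ (y θ) - Gf F ζ u v θ (zn (ζ v) σ θ)) / u v with hD
  have hev : ∀ᶠ θ in l, 0 < θ ∧ θ < 1 := eventually_Ioo.filter_mono hl
  have hz : Tendsto (zn (ζ v) σ) l (𝓝 (ζ v)) := (tendsto_zn (ζ v) σ).mono_left hl
  have hzn : ∀ θ, ‖zn (ζ v) σ θ‖ ≤ 1 := fun θ => (norm_zn hζ σ θ).le
  have htz : ∀ θ, t θ = sv (ζ v) θ (zn (ζ v) σ θ) := fun θ => (sv_zn hζ σ θ).symm
  have hsre : ∀ᶠ θ in l, 0 < (s θ).re := by
    filter_upwards [hev, hy] with θ h1 h2 using sv_re_pos hζ h1.1 h1.2 h2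
  have htre : ∀ᶠ θ in l, 0 < (t θ).re := by
    filter_upwards [hev] with θ h1
    rw [htz]
    exact sv_re_pos hζ h1.1 h1.2 (hzn θ)
  have hsw : Tendsto (fun θ => ‖s θ‖ / wt θ) l (𝓝 0) := norm_div_wt_tendsto hl hζ hy htau
  have htw : Tendsto (fun θ => ‖t θ‖ / wt θ) l (𝓝 0) := by
    have := norm_div_wt_tendsto hl hζ (z := zn (ζ v) σ) (Eventually.of_forall hzn)
      ((tendsto_tau_zn hζ hσ).mono_left hl)
    simpa only [htz] using this
  have hDx : ∀ᶠ θ in l, D θ - wt θ * x θ = I * σ * κ * A θ := by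
    filter_upwards [heq] with θ h1
    rw [Fn_eq_Gf v, Fn_eq_Gf v, ← htz] at h1
    simp only [hD, hx, hs]
    unfold un at h1
    field_simp
    linear_combination h1
  set C1 : ℝ := 2 * C / ‖u v‖ with hC1
  have hC1p : 0 < C1 := by positivity
  have hrt : ∀ᶠ θ in l, 1 / 2 < rt θ := (tendsto_rt.mono_left hl).eventually_const_lt (by norm_num)
  have hst : ∀ θ, s θ - t θ = -(rt θ * conj (ζ v) * (y θ - zn (ζ v) σ θ)) := by
    intro θ
    rw [htz]
    simp only [hs, sv]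
    ring
  have hD1 : ∀ᶠ θ in l, ‖D θ‖ ≤ C1 * ‖s θ - t θ‖ := by
    filter_upwards [hlip.filter_mono hl, hrt, hev, hy, hyl.eventually (ball_mem_nhds (ζ v) hρ),
      hz.eventually (ball_mem_nhds (ζ v) hρ)] with θ h1 h2 h3 h4 h5 h6
    have h7 := h1 (y θ) ⟨h5, by simpa using h4⟩ (zn (ζ v) σ θ) ⟨h6, by simpa using hzn θ⟩
    have h8 : ‖s θ - t θ‖ = rt θ * ‖y θ - zn (ζ v) σ θ‖ := by
      rw [hst, norm_neg, norm_mul, norm_mul, Complex.norm_real, Real.norm_eq_abs,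
        abs_of_pos (rt_mem h3.1 h3.2).1, RCLike.norm_conj, hζ, mul_one]
    simp only [hD]
    rw [norm_div, div_le_iff₀ hun, h8, hC1]
    calc _ ≤ C * ‖y θ - zn (ζ v) σ θ‖ := h7
      _ ≤ C * (2 * (rt θ * ‖y θ - zn (ζ v) σ θ‖)) := by
          apply mul_le_mul_of_nonneg_left _ hC.le
          nlinarith [norm_nonneg (y θ - zn (ζ v) σ θ)]
      _ = _ := by field_simp
  have hD2 : Tendsto (fun θ => ‖D θ‖ / wt θ) l (𝓝 0) := by
    have h1 := (hsw.add htw).const_mul C1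
    rw [add_zero, mul_zero] at h1
    refine squeeze_zero' ?_ ?_ h1
    · filter_upwards [hev] with θ h2
      exact div_nonneg (norm_nonneg _) (wt_pos h2.1 h2.2).le
    · filter_upwards [hev, hD1] with θ h2 h3
      have hwp := wt_pos h2.1 h2.2
      rw [← add_div, ← mul_div_assoc]
      apply div_le_div_of_nonneg_right _ hwp.le
      exact h3.trans (mul_le_mul_of_nonneg_left (norm_sub_le _ _) hC1p.le)
  have hxre : Tendsto (fun θ => (x θ).re) l (𝓝 0) := by
    refine squeeze_zero_norm' ?_ hD2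
    filter_upwards [hev, hDx] with θ h2 h3
    have hwp := wt_pos h2.1 h2.2
    have h4 := congrArg Complex.re h3
    have e4 : (I * σ * κ * A θ).re = 0 := by simp [Complex.mul_re]
    rw [e4, Complex.sub_re, Complex.re_ofReal_mul] at h4
    rw [Real.norm_eq_abs, le_div_iff₀ hwp]
    have h5 : (D θ).re = wt θ * (x θ).re := by linarith
    have h6 := Complex.abs_re_le_norm (D θ)
    rw [h5, abs_mul, abs_of_pos hwp] at h6
    linarith
  have hxim : Tendsto (fun θ => σ * (x θ).im) l (𝓝 0) := by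
    have hlow : Tendsto (fun θ : ℝ => -(Real.pi / 2) - σ * arg (s0 σ θ)) l (𝓝 0) := by
      have h1 := ((tendsto_log_s0 hσ).mono_left hl).const_mul σ
      have h2 := (tendsto_const_nhds (x := -(Real.pi / 2))).sub h1
      have e : -(Real.pi / 2) - σ * (-σ * (Real.pi / 2)) = 0 := by
        have : σ * (-σ * (Real.pi / 2)) = -(σ * σ) * (Real.pi / 2) := by ring
        rw [this, hσσ]; ring
      rw [e] at h2
      exact h2
    refine tendsto_of_tendsto_of_tendsto_of_le_of_le' hlow hD2 ?_ ?_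
    · filter_upwards [hsre] with θ h1
      simp only [hx, Complex.sub_im, Complex.log_im]
      have h2 : |arg (s θ)| < Real.pi / 2 := Complex.abs_arg_lt_pi_div_two_iff.mpr (Or.inl h1)
      have h3 : |σ * arg (s θ)| < Real.pi / 2 := by rw [abs_mul, hσ, one_mul]; exact h2
      rw [abs_lt] at h3
      have : σ * (arg (s θ) - arg (t θ)) = σ * arg (s θ) - σ * arg (s0 σ θ) := by
        simp only [ht]; ring
      rw [this]
      linarith
    · filter_upwards [hev, hDx, hA] with θ h2 h3 h4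
      have hwp := wt_pos h2.1 h2.2
      have h5 := congrArg Complex.im h3
      have e5 : (I * σ * κ * A θ).im = σ * κ * A θ := by simp [Complex.mul_im, Complex.mul_re]
      rw [e5, Complex.sub_im, Complex.im_ofReal_mul] at h5
      rw [le_div_iff₀ hwp]
      have h6 : |σ * (D θ).im| ≤ ‖D θ‖ := by
        rw [abs_mul, hσ, one_mul]; exact Complex.abs_im_le_norm _
      have h7 : σ * (D θ).im - wt θ * (σ * (x θ).im) = κ * A θ := by
        calc _ = σ * ((D θ).im - wt θ * (x θ).im) := by ring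
          _ = (σ * σ) * (κ * A θ) := by rw [h5]; ring
          _ = _ := by rw [hσσ, one_mul]
      have h8 : 0 < κ * A θ := mul_pos hκ h4
      rw [abs_le] at h6
      nlinarith [h6.2]
  have hxim' : Tendsto (fun θ => (x θ).im) l (𝓝 0) := by
    have h1 := hxim.const_mul σ
    rw [mul_zero] at h1
    refine h1.congr fun θ => ?_
    rw [← mul_assoc, hσσ, one_mul]
  have hx0 : Tendsto x l (𝓝 0) := by
    have h1 : Tendsto (fun θ => (((x θ).re : ℝ) : ℂ) + (((x θ).im : ℝ) : ℂ) * I) l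
        (𝓝 (((0 : ℝ) : ℂ) + ((0 : ℝ) : ℂ) * I)) :=
      ((Complex.continuous_ofReal.tendsto 0).comp hxre).add
        (((Complex.continuous_ofReal.tendsto 0).comp hxim').mul_const I)
    simp only [Complex.ofReal_zero, zero_mul, add_zero] at h1
    refine h1.congr fun θ => ?_
    exact Complex.re_add_im (x θ)
  have hexp : ∀ᶠ θ in l, s θ = t θ * cexp (x θ) := by
    filter_upwards [hsre, htre] with θ h1 h2
    have hs0 : s θ ≠ 0 := by intro h0; rw [h0] at h1; simp at h1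
    have ht0 : t θ ≠ 0 := by intro h0; rw [h0] at h2; simp at h2
    simp only [hx]
    rw [Complex.exp_sub, Complex.exp_log hs0, Complex.exp_log ht0]
    field_simp
  have hxne : ∀ᶠ θ in l, x θ ≠ 0 := by
    filter_upwards [hexp, hD1, hDx, hA] with θ h1 h2 h3 h4 h5
    rw [h5, Complex.exp_zero, mul_one] at h1
    rw [h1, sub_self, norm_zero, mul_zero] at h2
    have h6 : D θ = 0 := norm_le_zero_iff.mp h2
    rw [h6, h5, mul_zero, sub_zero] at h3
    have hσ0 : (σ : ℂ) ≠ 0 := by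
      have : σ ≠ 0 := by intro h0; rw [h0] at hσσ; simp at hσσ
      exact_mod_cast this
    have hκ0 : (κ : ℂ) ≠ 0 := by exact_mod_cast hκ.ne'
    have hA0 : (A θ : ℂ) ≠ 0 := by exact_mod_cast h4.ne'
    exact mul_ne_zero (mul_ne_zero (mul_ne_zero Complex.I_ne_zero hσ0) hκ0) hA0 h3.symm
  have hxn : Tendsto (fun θ => ‖x θ‖) l (𝓝 0) := by
    have := hx0.norm
    rwa [norm_zero] at this
  have hx1 : ∀ᶠ θ in l, ‖x θ‖ < 1 := hxn.eventually_lt_const (by norm_num)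
  have hD3 : Tendsto (fun θ => ‖D θ‖ / (wt θ * ‖x θ‖)) l (𝓝 0) := by
    have h1 := htw.const_mul (C1 * 2)
    rw [mul_zero] at h1
    refine squeeze_zero' ?_ ?_ h1
    · filter_upwards [hev] with θ h2
      exact div_nonneg (norm_nonneg _) (mul_nonneg (wt_pos h2.1 h2.2).le (norm_nonneg _))
    · filter_upwards [hev, hD1, hexp, hxne, hx1] with θ h2 h3 h4 h5 h6
      have hwp := wt_pos h2.1 h2.2
      have hxp : 0 < ‖x θ‖ := norm_pos_iff.mpr h5
      have h7 : ‖s θ - t θ‖ ≤ ‖t θ‖ * (2 * ‖x θ‖) := by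
        have e : s θ - t θ = t θ * (cexp (x θ) - 1) := by rw [h4]; ring
        rw [e, norm_mul]
        exact mul_le_mul_of_nonneg_left (Complex.norm_exp_sub_one_le h6.le) (norm_nonneg _)
      rw [div_le_iff₀ (mul_pos hwp hxp)]
      calc ‖D θ‖ ≤ C1 * (‖t θ‖ * (2 * ‖x θ‖)) :=
            h3.trans (mul_le_mul_of_nonneg_left h7 hC1p.le)
        _ = _ := by field_simp
  set ξ : ℝ → ℂ := fun θ => x θ / ‖x θ‖ with hξd
  set m : ℝ → ℝ := fun θ => κ * A θ / (wt θ * ‖x θ‖) with hmd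
  have hξm : ∀ᶠ θ in l, ξ θ = D θ / ((wt θ * ‖x θ‖ : ℝ) : ℂ) - I * σ * m θ := by
    filter_upwards [hev, hDx, hxne] with θ h2 h3 h5
    have hwp : (wt θ : ℂ) ≠ 0 := by exact_mod_cast (wt_pos h2.1 h2.2).ne'
    have hxp : (‖x θ‖ : ℂ) ≠ 0 := by exact_mod_cast (norm_pos_iff.mpr h5).ne'
    simp only [hξd, hmd]
    push_cast
    field_simp
    linear_combination (-1 : ℂ) * h3
  have hm : Tendsto m l (𝓝 1) := by
    rw [tendsto_iff_norm_sub_tendsto_zero]
    refine squeeze_zero_norm' ?_ hD3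
    filter_upwards [hev, hξm, hxne, hA] with θ h2 h3 h5 h6
    have hwp := wt_pos h2.1 h2.2
    have hxp : 0 < ‖x θ‖ := norm_pos_iff.mpr h5
    have hmp : 0 < m θ := div_pos (mul_pos hκ h6) (mul_pos hwp hxp)
    have n1 : ‖ξ θ‖ = 1 := by
      simp only [hξd]
      rw [norm_div, Complex.norm_real, norm_norm, div_self hxp.ne']
    have n2 : ‖I * σ * m θ‖ = m θ := by
      rw [norm_mul, norm_mul, Complex.norm_I, Complex.norm_real, Complex.norm_real,
        Real.norm_eq_abs, Real.norm_eq_abs, hσ, abs_of_pos hmp, one_mul, one_mul]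
    have n3 : D θ / ((wt θ * ‖x θ‖ : ℝ) : ℂ) = I * σ * m θ - -ξ θ := by
      rw [h3]; ring
    have n4 : ‖D θ‖ / (wt θ * ‖x θ‖) = ‖I * σ * m θ - -ξ θ‖ := by
      rw [← n3, norm_div (D θ) ((wt θ * ‖x θ‖ : ℝ) : ℂ), Complex.norm_real, Real.norm_eq_abs,
        abs_of_pos (mul_pos hwp hxp)]
    rw [n4, norm_norm, Real.norm_eq_abs]
    have n5 := abs_norm_sub_norm_le (I * σ * m θ) (-ξ θ)
    rw [norm_neg, n1, n2] at n5
    exact n5
  have hξ : Tendsto ξ l (𝓝 (-(I * σ))) := by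
    have h1 : Tendsto (fun θ => D θ / ((wt θ * ‖x θ‖ : ℝ) : ℂ)) l (𝓝 0) := by
      rw [tendsto_zero_iff_norm_tendsto_zero]
      refine hD3.congr' ?_
      filter_upwards [hev, hxne] with θ h2 h5
      have hwp := wt_pos h2.1 h2.2
      have hxp : 0 < ‖x θ‖ := norm_pos_iff.mpr h5
      rw [norm_div (D θ) ((wt θ * ‖x θ‖ : ℝ) : ℂ), Complex.norm_real, Real.norm_eq_abs,
        abs_of_pos (mul_pos hwp hxp)]
    have h2 : Tendsto (fun θ => I * σ * (m θ : ℂ)) l (𝓝 (I * σ * ((1 : ℝ) : ℂ))) :=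
      ((Complex.continuous_ofReal.tendsto 1).comp hm).const_mul _
    have h3 := h1.sub h2
    rw [Complex.ofReal_one, mul_one, zero_sub] at h3
    exact h3.congr' (hξm.mono fun θ h => h.symm)
  have hex : Tendsto (fun θ => (cexp (x θ) - 1) / ‖x θ‖) l (𝓝 (-(I * σ))) := by
    have h1 : Tendsto (fun θ => (cexp (x θ) - 1 - x θ) / ‖x θ‖) l (𝓝 0) := by
      rw [tendsto_zero_iff_norm_tendsto_zero]
      refine squeeze_zero' ?_ ?_ hxn
      · exact Eventually.of_forall fun θ => norm_nonneg _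
      · filter_upwards [hxne, hx1] with θ h5 h6
        have hxp : 0 < ‖x θ‖ := norm_pos_iff.mpr h5
        rw [norm_div, Complex.norm_real, norm_norm, div_le_iff₀ hxp, ← sq]
        exact Complex.norm_exp_sub_one_sub_id_le h6.le
    have h2 := h1.add hξ
    rw [zero_add] at h2
    refine h2.congr fun θ => ?_
    simp only [hξd]
    rw [← add_div]
    congr 1
    ring
  have ht0 : Tendsto t l (𝓝 0) := by
    have h1 := tendsto_sv (ζ := ζ v) (θ := fun θ => θ) (l := l) hl hz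
    rw [conj_mul_self' hζ, sub_self] at h1
    refine h1.congr fun θ => ?_
    rw [htz]
  have hlim : Tendsto (fun θ => conj (1 - t θ) * (t θ / θ) * ((cexp (x θ) - 1) / ‖x θ‖)) l
      (𝓝 (conj (1 - 0) * (-σ * I) * (-(I * σ)))) := by
    apply Tendsto.mul _ hex
    apply Tendsto.mul _ ((tendsto_s0 σ).mono_left hl)
    exact (Complex.continuous_conj.tendsto _).comp (tendsto_const_nhds.sub ht0)
  have e1 : (conj (1 - 0 : ℂ) * (-σ * I) * (-(I * σ))) = -1 := by
    have : (σ : ℂ) * σ = 1 := by exact_mod_cast hσσ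
    simp only [sub_zero, map_one, one_mul]
    calc (-σ * I * (-(I * σ)) : ℂ) = (σ * σ) * (I * I) := by ring
      _ = -1 := by rw [this, Complex.I_mul_I, one_mul]
  rw [e1] at hlim
  have hlim2 := (Complex.continuous_re.tendsto _).comp hlim
  have hneg := hlim2.eventually_lt_const (show (-1 : ℂ).re < 0 by simp)
  have hnn : ∀ᶠ θ in l, 0 ≤ (conj (1 - t θ) * (t θ / θ) * ((cexp (x θ) - 1) / ‖x θ‖)).re := by
    filter_upwards [hev, hexp, hxne, hy] with θ h1 h2 h3 h4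
    have hxp : 0 < ‖x θ‖ := norm_pos_iff.mpr h3
    have hr := rt_mem h1.1 h1.2
    have n1 : ‖1 - t θ‖ = rt θ := by
      simp only [ht, s0]
      rw [sub_sub_cancel, norm_mul, Complex.norm_exp_ofReal_mul_I, mul_one, Complex.norm_real,
        Real.norm_eq_abs, abs_of_pos hr.1]
    have n2 : ‖1 - s θ‖ ≤ rt θ := by
      simp only [hs, sv]
      rw [sub_sub_cancel, norm_mul, norm_mul, Complex.norm_real, Real.norm_eq_abs,
        abs_of_pos hr.1, RCLike.norm_conj, hζ, mul_one]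
      exact mul_le_of_le_one_right hr.1.le h4
    have n3 : 0 ≤ (conj (1 - t θ) * (s θ - t θ)).re := by
      have e : conj (1 - t θ) * (s θ - t θ) =
          conj (1 - t θ) * (1 - t θ) - conj (1 - t θ) * (1 - s θ) := by ring
      have e2 : (conj (1 - t θ) * (1 - t θ)).re = rt θ ^ 2 := by
        rw [← Complex.normSq_eq_conj_mul_self, Complex.ofReal_re, Complex.normSq_eq_norm_sq, n1]
      have e3 : (conj (1 - t θ) * (1 - s θ)).re ≤ rt θ ^ 2 := by
        refine (Complex.re_le_norm _).trans ?_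
        rw [norm_mul, RCLike.norm_conj, n1, sq]
        exact mul_le_mul_of_nonneg_left n2 hr.1.le
      rw [e, Complex.sub_re, e2]
      linarith
    have e4 : conj (1 - t θ) * (t θ / θ) * ((cexp (x θ) - 1) / ‖x θ‖) =
        ((1 / (θ * ‖x θ‖) : ℝ) : ℂ) * (conj (1 - t θ) * (s θ - t θ)) := by
      rw [h2]
      push_cast
      have hθ0 : (θ : ℂ) ≠ 0 := by exact_mod_cast h1.1.ne'
      have hx0 : (‖x θ‖ : ℂ) ≠ 0 := by exact_mod_cast hxp.ne'
      field_simp
    rw [e4, Complex.re_ofReal_mul]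
    exact mul_nonneg (by have := h1.1; positivity) n3
  obtain ⟨θ, hθ1, hθ2⟩ := (hneg.and hnn).exists
  simp only [Function.comp_apply] at hθ1
  linarith

/-- (C5) -/
lemma new_clear (h : Geo F ζ u ε) (v : ι) {σ κ ε' : ℝ} (hε : 0 < ε) (hε1 : ε ≤ 1 / 8)
    (hε' : 0 < ε') (hκ : κ = (1 - 4 * ε) * hh) (hσ : |σ| = 1) :
    ∀ᶠ θ in 𝓝[>] (0 : ℝ), ∀ y ∈ closedBall (0 : ℂ) 1, ∀ a ∈ TT ε',
      Fn F ζ u θ y = Fn F ζ u θ (zn (ζ v) σ θ) + un (u v) κ σ * a → a = 0 := by
  have hκ0 : 0 < κ := by rw [hκ]; exact mul_pos (by linarith) hh_pos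
  have hσσ : σ * σ = 1 := by rw [← abs_mul_abs_self, hσ, one_mul]
  have hu := h.u_ne v
  by_contra hcon
  obtain ⟨U, hU1, hU2⟩ := exists_ultra hcon
  have h1 : ∀ᶠ θ in (U : Filter ℝ), ∃ q : ℂ × ℂ, ‖q.1‖ ≤ 1 ∧ q.2 ∈ TT ε' ∧
      Fn F ζ u θ q.1 = Fn F ζ u θ (zn (ζ v) σ θ) + un (u v) κ σ * q.2 ∧ q.2 ≠ 0 := by
    filter_upwards [hU2] with θ hθ
    push Not at hθ
    obtain ⟨y, hy, a, ha, he, hne⟩ := hθ
    exact ⟨(y, a), by simpa using hy, ha, he, hne⟩
  obtain ⟨q, hq⟩ := h1.choice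
  have hθ : Tendsto (fun θ : ℝ => θ) U (𝓝[>] 0) := hU1
  obtain ⟨A, hA, hAl⟩ := (TT_isCompact ε').ultrafilter_le_nhds' (U.map fun θ => (q θ).2)
    (hq.mono fun θ h => h.2.1)
  have hAl' : Tendsto (fun θ => (q θ).2) U (𝓝 A) := hAl
  obtain ⟨p, hp, hpl, hpc⟩ := Fn_ultra (z := fun θ => (q θ).1) h U hθ (hq.mono fun a ha => ha.1)
  have hrhs : Tendsto (fun θ => Fn F ζ u θ (zn (ζ v) σ θ) + un (u v) κ σ * (q θ).2) U
      (𝓝 (F (ζ v) + u v * (1 / 2) + un (u v) κ σ * A)) :=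
    ((tendsto_Fn_zn h v hσ).mono_left hU1).add (hAl'.const_mul _)
  have heq : (fun θ => Fn F ζ u θ (q θ).1) =ᶠ[(U : Filter ℝ)]
      fun θ => Fn F ζ u θ (zn (ζ v) σ θ) + un (u v) κ σ * (q θ).2 :=
    hq.mono fun a ha => ha.2.2.1
  have hb : 1 / 2 + I * σ * κ * A + 0 ∈ RR ε :=
    contain_RR hε (by linarith) hκ hσ (TT_subset_RR hA) (by simpa using hε.le)
  rw [add_zero] at hb
  have hbT := RR_subset_TT hε.le hb
  have hbeq : F (ζ v) + u v * (1 / 2) + un (u v) κ σ * A =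
      F (ζ v) + u v * (1 / 2 + I * σ * κ * A) := by unfold un; ring
  rw [hbeq] at hrhs
  rcases hpc with ⟨hne, hl⟩ | ⟨v', hv', t, ht0, ht1, htau, hl⟩
  · have e := tendsto_nhds_unique (hl.congr' heq) hrhs
    have e2 := h.clear v p (by simpa using hp) _ hbT e
    have e3 := hb.1
    rw [e2] at e3
    simp at e3
    linarith
  · have e := tendsto_nhds_unique (hl.congr' heq) hrhs
    by_cases hvv : v' = v
    · subst hvv
      have e2 : (t : ℂ) = 1 / 2 + I * σ * κ * A := by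
        have := add_left_cancel e
        exact mul_left_cancel₀ hu this
      have e3 := congrArg Complex.im e2
      have e4 : (1 / 2 + I * σ * κ * A).im = σ * κ * A.re := by
        simp [Complex.mul_re, Complex.mul_im]
      rw [e4, Complex.ofReal_im] at e3
      have hσ0 : σ ≠ 0 := by intro h0; rw [h0] at hσσ; simp at hσσ
      have e5 : A.re = 0 := by
        rcases mul_eq_zero.mp e3.symm with h6 | h6
        · rcases mul_eq_zero.mp h6 with h7 | h7
          · exact absurd h7 hσ0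
          · exact absurd h7 hκ0.ne'
        · exact h6
      have e6 : A = 0 := TT_re_zero hε' hA e5
      rw [e6, mul_zero, add_zero] at e2
      have e7 : t = 1 / 2 := by
        have := congrArg Complex.re e2
        simpa using this
      rw [e7] at htau
      rw [e6] at hAl'
      subst hv'
      have hAn := hAl'.norm
      rw [norm_zero] at hAn
      have hsmall := hAn.eventually_lt_const hε'
      have hreal : ∀ᶠ θ in (U : Filter ℝ), (q θ).2 = (((q θ).2.re : ℝ) : ℂ) ∧ 0 < (q θ).2.re := by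
        filter_upwards [hsmall, hq] with θ h1 h2
        have h3 := (Complex.re_le_norm (q θ).2).trans_lt h1
        have h4 : (q θ).2.im = 0 := by
          rcases h2.2.1.2.2.2 with h5 | h5
          · exact h5
          · linarith
        have h5 : (q θ).2 = (((q θ).2.re : ℝ) : ℂ) := by
          apply Complex.ext
          · simp
          · simpa using h4
        refine ⟨h5, lt_of_le_of_ne h2.2.1.1 ?_⟩
        intro h6
        apply h2.2.2.2
        rw [h5, ← h6]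
        simp
      refine clear_local h v' hσ hκ0 hU1 (y := fun θ => (q θ).1) (A := fun θ => (q θ).2.re)
        (hq.mono fun a ha => ha.1) hpl htau (hreal.mono fun θ h => h.2) ?_
      filter_upwards [hq, hreal] with θ h1 h2
      rw [← h2.1]
      exact h1.2.2.1
    · exact h.disj v' v hvv _ (real_mem_TT ht0 ht1) _ hbT e

end

end Pool.Agent.Lib.MP_cf5e8f_an
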