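import Mathlib

set_option autoImplicit false

namespace Pool.Agent.Lib.MP_cf5e8f_an

open Filter Topology Complex Metric Set

/-- Hurwitz' theorem for injectivity, in the form needed. -/
theorem hurwitz {F : ℕ → ℂ → ℂ} {G : ℂ → ℂ} {T : ℕ → ℝ}
    (hFd : ∀ j, DifferentiableOn ℂ (F j) (ball 0 1)) (hFi : ∀ j, InjOn (F j) (ball 0 1))
    (hG : DifferentiableOn ℂ G (ball 0 1)) (hG0 : deriv G 0 ≠ 0)
    (hT : Tendsto T atTop (𝓝 0)) (hGF : ∀ j, ∀ z ∈ ball (0 : ℂ) 1, ‖G z - F j z‖ ≤ T j) :
    InjOn G (ball 0 1) := by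
  intro z1 hz1 z2 hz2 heq
  by_contra hne
  set g : ℂ → ℂ := fun z => G z - G z1 with hg
  have hgd : DifferentiableOn ℂ g (ball 0 1) := hG.sub_const _
  have hga : AnalyticOnNhd ℂ g (ball 0 1) := hgd.analyticOnNhd isOpen_ball
  have hgz2 : g z2 = 0 := by simp only [hg, heq, sub_self]
  rcases (hga z2 hz2).eventually_eq_zero_or_eventually_ne_zero with h | h
  · have h1 : EqOn g 0 (ball 0 1) :=
      hga.eqOn_zero_of_preconnected_of_eventuallyEq_zero
        (convex_ball (0 : ℂ) 1).isPreconnected hz2 h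
    apply hG0
    have h2 : G =ᶠ[𝓝 0] fun _ => G z1 := by
      filter_upwards [ball_mem_nhds (0 : ℂ) one_pos] with z hz
      have := h1 hz
      simp only [hg, Pi.zero_apply] at this
      exact sub_eq_zero.mp this
    rw [h2.deriv_eq]
    simp
  · rw [eventually_nhdsWithin_iff, Metric.eventually_nhds_iff_ball] at h
    obtain ⟨ρ, hρ, h⟩ := h
    have hz2' : ‖z2‖ < 1 := by simpa using hz2
    have hz12 : 0 < ‖z1 - z2‖ := norm_pos_iff.mpr (sub_ne_zero.mpr hne)
    set r : ℝ := min (ρ / 2) (min ((1 - ‖z2‖) / 2) (‖z1 - z2‖ / 2)) with hr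
    have hr0 : 0 < r := lt_min (by linarith) (lt_min (by linarith) (by linarith))
    have hr1 : r < ρ := (min_le_left _ _).trans_lt (by linarith)
    have hr2 : r < 1 - ‖z2‖ :=
      ((min_le_right _ _).trans (min_le_left _ _)).trans_lt (by linarith)
    have hr3 : r < ‖z1 - z2‖ :=
      ((min_le_right _ _).trans (min_le_right _ _)).trans_lt (by linarith)
    have hsub : closedBall z2 r ⊆ ball (0 : ℂ) 1 := by
      intro z hz
      rw [mem_closedBall, dist_eq_norm] at hz
      rw [mem_ball, dist_zero_right]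
      calc ‖z‖ = ‖(z - z2) + z2‖ := by ring_nf
        _ ≤ ‖z - z2‖ + ‖z2‖ := norm_add_le _ _
        _ < 1 := by linarith
    have hsph : IsCompact (sphere z2 r) := isCompact_sphere z2 r
    have hnon : (sphere z2 r).Nonempty := NormedSpace.sphere_nonempty.mpr hr0.le
    have hcont : ContinuousOn (fun z => ‖g z‖) (sphere z2 r) :=
      (hgd.continuousOn.mono (sphere_subset_closedBall.trans hsub)).norm
    obtain ⟨w, hw, hmin⟩ := hsph.exists_isMinOn hnon hcont
    have hm0 : 0 < ‖g w‖ := by
      rw [norm_pos_iff]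
      apply h w
      · rw [mem_ball]
        rw [mem_sphere] at hw
        rw [hw]; exact hr1
      · intro hww
        rw [mem_singleton_iff] at hww
        rw [hww, mem_sphere, dist_self] at hw
        linarith
    set m : ℝ := ‖g w‖ with hm
    obtain ⟨j, hj⟩ := (hT.eventually_lt_const (show 0 < m / 4 by linarith)).exists
    set gj : ℂ → ℂ := fun z => F j z - F j z1 with hgj
    have hclose : ∀ z ∈ ball (0 : ℂ) 1, ‖g z - gj z‖ ≤ 2 * T j := by
      intro z hz
      have e : g z - gj z = (G z - F j z) - (G z1 - F j z1) := by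
        simp only [hg, hgj]; ring
      rw [e]
      calc _ ≤ ‖G z - F j z‖ + ‖G z1 - F j z1‖ := norm_sub_le _ _
        _ ≤ 2 * T j := by linarith [hGF j z hz, hGF j z1 hz1]
    have hgj0 : ∀ z ∈ closedBall z2 r, gj z ≠ 0 := by
      intro z hz h0
      have h1 : F j z = F j z1 := sub_eq_zero.mp h0
      have h2 := hFi j (hsub hz) hz1 h1
      rw [h2, mem_closedBall, dist_eq_norm] at hz
      linarith
    have hd : DiffContOnCl ℂ (fun z => (gj z)⁻¹) (ball z2 r) := by
      apply DifferentiableOn.diffContOnCl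
      rw [closure_ball z2 hr0.ne']
      exact (((hFd j).mono hsub).sub_const _).inv hgj0
    have hbd := Complex.norm_le_of_forall_mem_frontier_norm_le (C := 2 / m) isBounded_ball hd
      (by
        intro z hz
        rw [frontier_ball z2 hr0.ne'] at hz
        have h1 : m ≤ ‖g z‖ := hmin hz
        have h2 := hclose z (hsub (sphere_subset_closedBall hz))
        have h3 : m / 2 ≤ ‖gj z‖ := by
          have := norm_sub_norm_le (g z) (gj z)
          linarith
        rw [norm_inv, inv_eq_one_div, div_le_div_iff₀ (by linarith) hm0]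
        linarith)
      (z := z2) (by rw [closure_ball z2 hr0.ne']; exact mem_closedBall_self hr0.le)
    rw [norm_inv] at hbd
    have hz2c : z2 ∈ closedBall z2 r := mem_closedBall_self hr0.le
    have h4 := hclose z2 hz2
    rw [hgz2, zero_sub, norm_neg] at h4
    have h5 : 0 < ‖gj z2‖ := norm_pos_iff.mpr (hgj0 z2 hz2c)
    rw [inv_eq_one_div, div_le_div_iff₀ h5 hm0] at hbd
    linarith

end Pool.Agent.Lib.MP_cf5e8f_an
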