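import Pool.Agent.Lib.MP_cf5e8f_an.Basics

set_option autoImplicit false

namespace Pool.Agent.Lib.MP_cf5e8f_an

open Filter Topology Complex Metric Set ComplexConjugate

/-- The geometric part of the inductive state. -/
structure Geo {ι : Type} [Fintype ι] (F : ℂ → ℂ) (ζ u : ι → ℂ) (ε : ℝ) : Prop where
  diff : ∃ R : ℝ, 1 < R ∧ DifferentiableOn ℂ F (ball 0 R)
  inj : InjOn F (closedBall 0 1)
  deriv_ne : ∀ z ∈ closedBall (0 : ℂ) 1, deriv F z ≠ 0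
  norm_zeta : ∀ v, ‖ζ v‖ = 1
  u_ne : ∀ v, u v ≠ 0
  dir : ∀ v, 0 < (ζ v * deriv F (ζ v) / u v).re
  disj : ∀ v v', v ≠ v' → ∀ a ∈ TT ε, ∀ b ∈ TT ε, F (ζ v) + u v * a ≠ F (ζ v') + u v' * b
  clear : ∀ v, ∀ z ∈ closedBall (0 : ℂ) 1, ∀ a ∈ TT ε, F z = F (ζ v) + u v * a → a = 0

section

variable {α : Type} {l : Filter α} {θ : α → ℝ} {z : α → ℂ} {p ζ : ℂ}

lemma one_sub_conj_mul_re_pos (hp : ‖p‖ ≤ 1) (hζ : ‖ζ‖ = 1) (hne : p ≠ ζ) :
    0 < (1 - conj ζ * p).re := by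
  have h1 : ‖conj ζ * p‖ ≤ 1 := by
    rw [norm_mul, RCLike.norm_conj, hζ, one_mul]; exact hp
  have h2 : conj ζ * p ≠ 1 := by
    intro h
    apply hne
    have h3 : ζ * conj ζ = 1 := by
      rw [Complex.mul_conj, Complex.normSq_eq_norm_sq, hζ]; simp
    calc p = (ζ * conj ζ) * p := by rw [h3, one_mul]
      _ = ζ * (conj ζ * p) := by ring
      _ = ζ := by rw [h, mul_one]
  have := re_lt_one_of h1 h2
  rw [Complex.sub_re, Complex.one_re]
  linarith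

lemma tendsto_wt_comp (hθ : Tendsto θ l (𝓝[>] 0)) :
    Tendsto (fun a => (wt (θ a) : ℂ)) l (𝓝 0) := by
  have h := (Complex.continuous_ofReal.tendsto 0).comp (tendsto_wt.comp hθ)
  rw [Complex.ofReal_zero] at h
  exact h

lemma tendsto_rt_comp (hθ : Tendsto θ l (𝓝[>] 0)) :
    Tendsto (fun a => (rt (θ a) : ℂ)) l (𝓝 1) := by
  have h := (Complex.continuous_ofReal.tendsto 1).comp (tendsto_rt.comp hθ)
  rw [Complex.ofReal_one] at h
  exact h

lemma tendsto_sv (hθ : Tendsto θ l (𝓝[>] 0)) (hz : Tendsto z l (𝓝 p)) :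
    Tendsto (fun a => sv ζ (θ a) (z a)) l (𝓝 (1 - conj ζ * p)) := by
  unfold sv
  have h := ((tendsto_rt_comp hθ).mul_const (conj ζ)).mul hz
  rw [one_mul] at h
  exact tendsto_const_nhds.sub h

lemma lim_log_away (hθ : Tendsto θ l (𝓝[>] 0)) (hz : Tendsto z l (𝓝 p)) (hp : ‖p‖ ≤ 1)
    (hζ : ‖ζ‖ = 1) (hne : p ≠ ζ) :
    Tendsto (fun a => (wt (θ a) : ℂ) * log (sv ζ (θ a) (z a))) l (𝓝 0) := by
  have h1 := tendsto_sv (ζ := ζ) hθ hz
  have h2 : 1 - conj ζ * p ∈ slitPlane := Or.inl (one_sub_conj_mul_re_pos hp hζ hne)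
  have h3 := (tendsto_wt_comp hθ).mul (h1.clog h2)
  rw [zero_mul] at h3
  exact h3

lemma lim_log_at {t : ℝ} (hθ : Tendsto θ l (𝓝[>] 0))
    (ht : Tendsto (fun a => tau ζ (θ a) (z a)) l (𝓝 t)) :
    Tendsto (fun a => (wt (θ a) : ℂ) * log (sv ζ (θ a) (z a))) l (𝓝 (-t)) := by
  have h1 : Tendsto (fun a => (tau ζ (θ a) (z a) : ℂ)) l (𝓝 t) :=
    (Complex.continuous_ofReal.tendsto t).comp ht
  have h2 : Tendsto (fun a => (wt (θ a) : ℂ) * ((arg (sv ζ (θ a) (z a)) : ℂ) * I)) l (𝓝 0) := by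
    apply Tendsto.zero_mul_isBoundedUnder_le (tendsto_wt_comp hθ)
    apply isBoundedUnder_of
    refine ⟨Real.pi, fun a => ?_⟩
    simp only [Function.comp_apply, norm_mul, Complex.norm_real, Complex.norm_I, mul_one,
      Real.norm_eq_abs]
    exact Complex.abs_arg_le_pi _
  have h3 := h1.neg.add h2
  rw [add_zero] at h3
  refine h3.congr fun a => ?_
  rw [← Complex.re_add_im (log (sv ζ (θ a) (z a))), Complex.log_re, Complex.log_im]
  unfold tau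
  push_cast
  ring

end

section

variable {ι : Type} [Fintype ι] {F : ℂ → ℂ} {ζ u : ι → ℂ} {ε : ℝ}

lemma Geo.zeta_ne (h : Geo F ζ u ε) {v v' : ι} (hv : v ≠ v') : ζ v ≠ ζ v' := by
  intro he
  have h0 : (0 : ℂ) ∈ TT ε := by simpa using real_mem_TT (ε := ε) le_rfl zero_le_one
  exact h.disj v v' hv 0 h0 0 h0 (by rw [he]; simp)

lemma Geo.diffAt (h : Geo F ζ u ε) {p : ℂ} (hp : ‖p‖ ≤ 1) : DifferentiableAt ℂ F p := by
  obtain ⟨R, hR, hd⟩ := h.diff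
  exact hd.differentiableAt (isOpen_ball.mem_nhds (by simp; linarith))

lemma Geo.contAt (h : Geo F ζ u ε) {p : ℂ} (hp : ‖p‖ ≤ 1) : ContinuousAt F p :=
  (h.diffAt hp).continuousAt

lemma Geo.deriv_contAt (h : Geo F ζ u ε) {p : ℂ} (hp : ‖p‖ ≤ 1) : ContinuousAt (deriv F) p := by
  obtain ⟨R, hR, hd⟩ := h.diff
  have := (hd.deriv isOpen_ball).differentiableAt (isOpen_ball.mem_nhds (x := p)
    (by simp; linarith))
  exact this.continuousAt

variable {α : Type} {l : Filter α} {θ : α → ℝ} {z : α → ℂ} {p : ℂ}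

lemma Fn_tendsto_away (h : Geo F ζ u ε) (hθ : Tendsto θ l (𝓝[>] 0)) (hz : Tendsto z l (𝓝 p))
    (hp : ‖p‖ ≤ 1) (hne : ∀ v, p ≠ ζ v) :
    Tendsto (fun a => Fn F ζ u (θ a) (z a)) l (𝓝 (F p)) := by
  have h1 : Tendsto (fun a => F (z a)) l (𝓝 (F p)) := (h.contAt hp).tendsto.comp hz
  have h2 : Tendsto (fun a => ∑ v, u v * ((wt (θ a) : ℂ) * log (sv (ζ v) (θ a) (z a)))) l
      (𝓝 (∑ v, u v * (0 : ℂ))) := by
    apply tendsto_finsetSum
    intro v _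
    exact (lim_log_away hθ hz hp (h.norm_zeta v) (hne v)).const_mul _
  simp only [mul_zero, Finset.sum_const_zero] at h2
  have h3 := h1.sub h2
  rw [sub_zero] at h3
  refine h3.congr fun a => ?_
  unfold Fn
  rw [Finset.mul_sum]
  congr 1
  apply Finset.sum_congr rfl
  intro v _; ring

lemma Fn_tendsto_at (h : Geo F ζ u ε) {v : ι} {t : ℝ} (hθ : Tendsto θ l (𝓝[>] 0))
    (hz : Tendsto z l (𝓝 (ζ v))) (ht : Tendsto (fun a => tau (ζ v) (θ a) (z a)) l (𝓝 t)) :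
    Tendsto (fun a => Fn F ζ u (θ a) (z a)) l (𝓝 (F (ζ v) + u v * t)) := by
  classical
  have hp : ‖ζ v‖ ≤ 1 := (h.norm_zeta v).le
  have h1 : Tendsto (fun a => F (z a)) l (𝓝 (F (ζ v))) := (h.contAt hp).tendsto.comp hz
  have h2 : Tendsto (fun a => ∑ v', u v' * ((wt (θ a) : ℂ) * log (sv (ζ v') (θ a) (z a)))) l
      (𝓝 (∑ v', u v' * (if v' = v then (-t : ℂ) else 0))) := by
    apply tendsto_finsetSum
    intro v' _
    apply Tendsto.const_mul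
    split_ifs with hv
    · subst hv
      exact lim_log_at hθ ht
    · exact lim_log_away hθ hz hp (h.norm_zeta v') (h.zeta_ne (Ne.symm hv))
  simp only [mul_ite, mul_zero, Finset.sum_ite_eq', Finset.mem_univ, if_true] at h2
  have h3 := h1.sub h2
  rw [mul_neg, sub_neg_eq_add] at h3
  refine h3.congr fun a => ?_
  unfold Fn
  rw [Finset.mul_sum]
  congr 1
  apply Finset.sum_congr rfl
  intro v' _; ring

/-- limits along an ultrafilter -/
lemma Fn_ultra (h : Geo F ζ u ε) (U : Ultrafilter α) (hθ : Tendsto θ U (𝓝[>] 0))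
    (hz : ∀ᶠ a in (U : Filter α), ‖z a‖ ≤ 1) :
    ∃ p : ℂ, ‖p‖ ≤ 1 ∧ Tendsto z U (𝓝 p) ∧
      (((∀ v, p ≠ ζ v) ∧ Tendsto (fun a => Fn F ζ u (θ a) (z a)) U (𝓝 (F p))) ∨
      (∃ v, p = ζ v ∧ ∃ t : ℝ, 0 ≤ t ∧ t ≤ 1 ∧
        Tendsto (fun a => tau (ζ v) (θ a) (z a)) U (𝓝 t) ∧
        Tendsto (fun a => Fn F ζ u (θ a) (z a)) U (𝓝 (F (ζ v) + u v * t)))) := by
  have hK : IsCompact (closedBall (0 : ℂ) 1) := isCompact_closedBall 0 1
  have h1 : ∀ᶠ a in (U : Filter α), z a ∈ closedBall (0 : ℂ) 1 := by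
    filter_upwards [hz] with a ha
    simpa using ha
  obtain ⟨p, hp, hpl⟩ := hK.ultrafilter_le_nhds' (U.map z) h1
  have hp' : ‖p‖ ≤ 1 := by simpa using hp
  refine ⟨p, hp', hpl, ?_⟩
  by_cases hne : ∀ v, p ≠ ζ v
  · exact Or.inl ⟨hne, Fn_tendsto_away h hθ hpl hp' hne⟩
  · push Not at hne
    obtain ⟨v, hv⟩ := hne
    right
    refine ⟨v, hv, ?_⟩
    have hev : ∀ᶠ a in (U : Filter α), 0 < θ a ∧ θ a < 1 := hθ.eventually eventually_Ioo
    have hwt : Tendsto (fun a => wt (θ a)) U (𝓝 0) := tendsto_wt.comp hθ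
    have hwt1 : ∀ᶠ a in (U : Filter α), wt (θ a) < 1 := hwt.eventually_lt_const (by norm_num)
    have h2 : ∀ᶠ a in (U : Filter α), tau (ζ v) (θ a) (z a) ∈ Icc (-1 : ℝ) 1 := by
      filter_upwards [hev, hz, hwt1] with a ha hb hc
      have := tau_ge (h.norm_zeta v) ha.1 ha.2 hb
      exact ⟨by linarith, tau_le (h.norm_zeta v) ha.1 ha.2 hb⟩
    obtain ⟨t, ht, htl⟩ := (isCompact_Icc (a := (-1 : ℝ)) (b := 1)).ultrafilter_le_nhds'
      (U.map fun a => tau (ζ v) (θ a) (z a)) h2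
    have ht0 : 0 ≤ t := by
      have h3 : Tendsto (fun a => - wt (θ a)) U (𝓝 0) := by simpa using hwt.neg
      refine le_of_tendsto_of_tendsto h3 htl ?_
      filter_upwards [hev, hz] with a ha hb
      exact tau_ge (h.norm_zeta v) ha.1 ha.2 hb
    refine ⟨t, ht0, ht.2, htl, ?_⟩
    subst hv
    exact Fn_tendsto_at h hθ hpl htl

end

end Pool.Agent.Lib.MP_cf5e8f_an
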