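import Pool.Agent.Lib.MP_cf5e8f_an.Limits

set_option autoImplicit false

namespace Pool.Agent.Lib.MP_cf5e8f_an

open Filter Topology Complex Metric Set ComplexConjugate

section

variable {α : Type} {l : Filter α} {θ : α → ℝ} {z : α → ℂ} {p ζ : ℂ}

lemma term_tendsto_away (hθ : Tendsto θ l (𝓝[>] 0)) (hz : Tendsto z l (𝓝 p)) (hp : ‖p‖ ≤ 1)
    (hζ : ‖ζ‖ = 1) (hne : p ≠ ζ) :
    Tendsto (fun a => (wt (θ a) : ℂ) * (rt (θ a) * conj ζ / sv ζ (θ a) (z a))) l (𝓝 0) := by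
  have h1 := tendsto_sv (ζ := ζ) hθ hz
  have h2 : 1 - conj ζ * p ≠ 0 := by
    intro h
    have := one_sub_conj_mul_re_pos hp hζ hne
    rw [h] at this
    simp at this
  have h3 := (tendsto_wt_comp hθ).mul (((tendsto_rt_comp hθ).mul_const (conj ζ)).div h1 h2)
  rw [zero_mul] at h3
  exact h3

end

section

variable {ι : Type} [Fintype ι] {F : ℂ → ℂ} {ζ u : ι → ℂ} {ε : ℝ}

/-- derivative of the perturbed function -/
noncomputable def Fd {ι : Type} [Fintype ι] (F : ℂ → ℂ) (ζ u : ι → ℂ) (θ : ℝ) (y : ℂ) : ℂ :=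
  deriv F y + ∑ v, u v * (wt θ * (rt θ * conj (ζ v) / sv (ζ v) θ y))

lemma sv_hasDerivAt (ζ : ℂ) (θ : ℝ) (y : ℂ) :
    HasDerivAt (sv ζ θ) (-(rt θ * conj ζ)) y := by
  unfold sv
  have h1 : HasDerivAt (fun z : ℂ => (rt θ : ℂ) * conj ζ * z) ((rt θ : ℂ) * conj ζ * 1) y :=
    (hasDerivAt_id y).const_mul _
  have h2 := h1.const_sub 1
  rw [mul_one] at h2
  exact h2

lemma logsv_hasDerivAt {ζ : ℂ} {θ : ℝ} {y : ℂ} (h : sv ζ θ y ∈ slitPlane) :
    HasDerivAt (fun z => log (sv ζ θ z)) (-(rt θ * conj ζ / sv ζ θ y)) y := by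
  have h1 := (sv_hasDerivAt ζ θ y).clog h
  rw [neg_div] at h1
  exact h1

lemma Fn_hasDerivAt' {θ : ℝ} {y : ℂ} (hF : DifferentiableAt ℂ F y)
    (hs : ∀ v, sv (ζ v) θ y ∈ slitPlane) :
    HasDerivAt (Fn F ζ u θ) (Fd F ζ u θ y) y := by
  have h1 : HasDerivAt (fun z => ∑ v, u v * log (sv (ζ v) θ z))
      (∑ v, u v * (-(rt θ * conj (ζ v) / sv (ζ v) θ y))) y := by
    apply HasDerivAt.fun_sum
    intro v _
    exact (logsv_hasDerivAt (hs v)).const_mul _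
  have h2 := hF.hasDerivAt.sub (h1.const_mul (wt θ : ℂ))
  have e : deriv F y - wt θ * ∑ v, u v * (-(rt θ * conj (ζ v) / sv (ζ v) θ y)) =
      Fd F ζ u θ y := by
    unfold Fd
    rw [Finset.mul_sum, sub_eq_add_neg, ← Finset.sum_neg_distrib]
    congr 1
    apply Finset.sum_congr rfl
    intro v _; ring
  rw [e] at h2
  exact h2

lemma Fn_hasDerivAt (h : Geo F ζ u ε) {θ : ℝ} (h0 : 0 < θ) (h1 : θ < 1) {y : ℂ} (hy : ‖y‖ ≤ 1) :
    HasDerivAt (Fn F ζ u θ) (Fd F ζ u θ y) y :=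
  Fn_hasDerivAt' (h.diffAt hy) fun v => Or.inl (sv_re_pos (h.norm_zeta v) h0 h1 hy)

/-- local real-part positivity, along a filter -/
lemma Fd_local (h : Geo F ζ u ε) {p : ℂ} (hp : ‖p‖ ≤ 1) :
    ∃ c : ℂ, ∀ᶠ q : ℝ × ℂ in (𝓝[>] 0) ×ˢ (𝓝[closedBall 0 1] p), 0 < (c * Fd F ζ u q.1 q.2).re := by
  classical
  set l : Filter (ℝ × ℂ) := (𝓝[>] 0) ×ˢ (𝓝[closedBall 0 1] p) with hl
  have hθ : Tendsto (fun q : ℝ × ℂ => q.1) l (𝓝[>] 0) := tendsto_fst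
  have hz : Tendsto (fun q : ℝ × ℂ => q.2) l (𝓝 p) :=
    tendsto_snd.mono_right nhdsWithin_le_nhds
  have hzb : ∀ᶠ q : ℝ × ℂ in l, ‖q.2‖ ≤ 1 := by
    have : ∀ᶠ y in 𝓝[closedBall 0 1] p, y ∈ closedBall (0 : ℂ) 1 := self_mem_nhdsWithin
    have h2 := (tendsto_snd (f := (𝓝[>] (0 : ℝ))) (g := 𝓝[closedBall 0 1] p)).eventually this
    filter_upwards [h2] with q hq
    simpa using hq
  have hF : Tendsto (fun q : ℝ × ℂ => deriv F q.2) l (𝓝 (deriv F p)) :=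
    (h.deriv_contAt hp).tendsto.comp hz
  by_cases hne : ∀ v, p ≠ ζ v
  · refine ⟨(deriv F p)⁻¹, ?_⟩
    have h2 : Tendsto (fun q : ℝ × ℂ => ∑ v, u v *
        (wt q.1 * (rt q.1 * conj (ζ v) / sv (ζ v) q.1 q.2))) l (𝓝 (∑ v, u v * (0 : ℂ))) := by
      apply tendsto_finsetSum
      intro v _
      exact (term_tendsto_away hθ hz hp (h.norm_zeta v) (hne v)).const_mul _
    simp only [mul_zero, Finset.sum_const_zero] at h2
    have h3 := (hF.add h2).const_mul (deriv F p)⁻¹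
    rw [add_zero, inv_mul_cancel₀ (h.deriv_ne p (by simpa using hp))] at h3
    have h4 := (Complex.continuous_re.tendsto 1).comp h3
    exact h4.eventually_const_lt (by simp)
  · push Not at hne
    obtain ⟨v, hv⟩ := hne
    subst hv
    refine ⟨ζ v / u v, ?_⟩
    have h2 : Tendsto (fun q : ℝ × ℂ => ∑ v' ∈ Finset.univ.erase v, u v' *
        (wt q.1 * (rt q.1 * conj (ζ v') / sv (ζ v') q.1 q.2))) l
        (𝓝 (∑ v' ∈ Finset.univ.erase v, u v' * (0 : ℂ))) := by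
      apply tendsto_finsetSum
      intro v' hv'
      exact (term_tendsto_away hθ hz hp (h.norm_zeta v')
        (h.zeta_ne (Finset.ne_of_mem_erase hv').symm)).const_mul _
    simp only [mul_zero, Finset.sum_const_zero] at h2
    have h3 := (hF.add h2).const_mul (ζ v / u v)
    rw [add_zero] at h3
    have h4 := (Complex.continuous_re.tendsto _).comp h3
    have h5 : 0 < (ζ v / u v * deriv F (ζ v)).re := by
      have := h.dir v
      rw [show ζ v / u v * deriv F (ζ v) = ζ v * deriv F (ζ v) / u v by ring]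
      exact this
    have h6 := h4.eventually_const_lt h5
    have hev : ∀ᶠ q : ℝ × ℂ in l, 0 < q.1 ∧ q.1 < 1 := hθ.eventually eventually_Ioo
    filter_upwards [h6, hev, hzb] with q h6 hq hqb
    have e : ζ v / u v * Fd F ζ u q.1 q.2 = ζ v / u v * (deriv F q.2 +
        ∑ v' ∈ Finset.univ.erase v, u v' *
        (wt q.1 * (rt q.1 * conj (ζ v') / sv (ζ v') q.1 q.2))) +
        ((wt q.1 * rt q.1 : ℝ) : ℂ) * (sv (ζ v) q.1 q.2)⁻¹ := by
      unfold Fd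
      rw [← Finset.add_sum_erase Finset.univ _ (Finset.mem_univ v)]
      have hu := h.u_ne v
      have hzz : ζ v * conj (ζ v) = 1 := by
        rw [Complex.mul_conj, Complex.normSq_eq_norm_sq, h.norm_zeta v]; simp
      have e2 : ζ v / u v * (u v * (wt q.1 * (rt q.1 * conj (ζ v) / sv (ζ v) q.1 q.2))) =
          ((wt q.1 * rt q.1 : ℝ) : ℂ) * (sv (ζ v) q.1 q.2)⁻¹ := by
        push_cast
        calc _ = (ζ v * conj (ζ v)) * ((u v / u v) * (wt q.1 * rt q.1 *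
            (sv (ζ v) q.1 q.2)⁻¹)) := by ring
          _ = _ := by rw [hzz, div_self hu, one_mul, one_mul]
      rw [← e2]
      ring
    rw [e, Complex.add_re]
    have h7 : 0 ≤ (((wt q.1 * rt q.1 : ℝ) : ℂ) * (sv (ζ v) q.1 q.2)⁻¹).re := by
      rw [Complex.re_ofReal_mul]
      apply mul_nonneg (mul_nonneg (wt_pos hq.1 hq.2).le (rt_mem hq.1 hq.2).1.le)
      rw [Complex.inv_re]
      exact div_nonneg (sv_re_pos (h.norm_zeta v) hq.1 hq.2 hqb).le (Complex.normSq_nonneg _)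
    have h8 : 0 < (ζ v / u v * (deriv F q.2 +
        ∑ v' ∈ Finset.univ.erase v, u v' *
        (wt q.1 * (rt q.1 * conj (ζ v') / sv (ζ v') q.1 q.2)))).re := h6
    linarith

lemma Fd_local' (h : Geo F ζ u ε) {p : ℂ} (hp : ‖p‖ ≤ 1) :
    ∃ c : ℂ, ∃ ρ > 0, ∀ᶠ θ : ℝ in 𝓝[>] 0, ∀ y ∈ ball p ρ ∩ closedBall 0 1,
      0 < (c * Fd F ζ u θ y).re := by
  obtain ⟨c, hc⟩ := Fd_local (u := u) h hp
  rw [eventually_prod_iff] at hc
  obtain ⟨pa, hpa, pb, hpb, hab⟩ := hc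
  rw [Filter.Eventually, Metric.mem_nhdsWithin_iff] at hpb
  obtain ⟨ρ, hρ, hsub⟩ := hpb
  refine ⟨c, ρ, hρ, ?_⟩
  filter_upwards [hpa] with θ hθ y hy
  exact hab hθ (hsub hy)

lemma exists_ultra {f : Filter ℝ} {P : ℝ → Prop} (h : ¬ ∀ᶠ θ in f, P θ) :
    ∃ U : Ultrafilter ℝ, (U : Filter ℝ) ≤ f ∧ ∀ᶠ θ in (U : Filter ℝ), ¬ P θ := by
  rw [not_eventually, frequently_iff_neBot] at h
  refine ⟨Ultrafilter.of (f ⊓ 𝓟 {x | ¬ P x}), ?_, ?_⟩
  · exact (Ultrafilter.of_le _).trans inf_le_left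
  · have h1 : ((Ultrafilter.of (f ⊓ 𝓟 {x | ¬ P x}) : Ultrafilter ℝ) : Filter ℝ) ≤
        𝓟 {x | ¬ P x} := (Ultrafilter.of_le _).trans inf_le_right
    exact h1 (mem_principal_self _)

/-- (C2): derivative nonvanishing -/
lemma Fd_ne_zero (h : Geo F ζ u ε) :
    ∀ᶠ θ : ℝ in 𝓝[>] 0, ∀ y ∈ closedBall (0 : ℂ) 1, Fd F ζ u θ y ≠ 0 := by
  by_contra hcon
  obtain ⟨U, hU1, hU2⟩ := exists_ultra hcon
  have h1 : ∀ᶠ θ in (U : Filter ℝ), ∃ y : ℂ, ‖y‖ ≤ 1 ∧ Fd F ζ u θ y = 0 := by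
    filter_upwards [hU2] with θ hθ
    push Not at hθ
    obtain ⟨y, hy, hy2⟩ := hθ
    exact ⟨y, by simpa using hy, hy2⟩
  obtain ⟨y, hy⟩ := h1.choice
  have hθ : Tendsto (fun θ : ℝ => θ) U (𝓝[>] 0) := hU1
  obtain ⟨p, hp, hpl, -⟩ := Fn_ultra (z := y) h U hθ (hy.mono fun a ha => ha.1)
  obtain ⟨c, ρ, hρ, hev⟩ := Fd_local' (u := u) h hp
  have h2 : ∀ᶠ θ in (U : Filter ℝ), y θ ∈ ball p ρ := hpl (ball_mem_nhds p hρ)
  have h3 := hU1 hev
  obtain ⟨θ, h4, h5, h6⟩ := (h2.and (hy.and h3)).exists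
  have := h6 (y θ) ⟨h4, by simpa using h5.1⟩
  rw [h5.2] at this
  simp at this

/-- (C1): injectivity -/
lemma Fn_injOn (h : Geo F ζ u ε) :
    ∀ᶠ θ : ℝ in 𝓝[>] 0, InjOn (Fn F ζ u θ) (closedBall (0 : ℂ) 1) := by
  by_contra hcon
  obtain ⟨U, hU1, hU2⟩ := exists_ultra hcon
  have h1 : ∀ᶠ θ in (U : Filter ℝ), ∃ y : ℂ × ℂ, ‖y.1‖ ≤ 1 ∧ ‖y.2‖ ≤ 1 ∧
      Fn F ζ u θ y.1 = Fn F ζ u θ y.2 ∧ y.1 ≠ y.2 := by
    filter_upwards [hU2] with θ hθ
    unfold InjOn at hθ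
    push Not at hθ
    obtain ⟨y, hy, y', hy', he, hne⟩ := hθ
    exact ⟨(y, y'), by simpa using hy, by simpa using hy', he, hne⟩
  obtain ⟨y, hy⟩ := h1.choice
  have hθ : Tendsto (fun θ : ℝ => θ) U (𝓝[>] 0) := hU1
  obtain ⟨p, hp, hpl, hpc⟩ := Fn_ultra (z := fun θ => (y θ).1) h U hθ (hy.mono fun a ha => ha.1)
  obtain ⟨p', hp', hpl', hpc'⟩ := Fn_ultra (z := fun θ => (y θ).2) h U hθ
    (hy.mono fun a ha => ha.2.1)
  have heq : (fun θ => Fn F ζ u θ (y θ).1) =ᶠ[(U : Filter ℝ)] fun θ => Fn F ζ u θ (y θ).2 :=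
    hy.mono fun a ha => ha.2.2.1
  have hpB : p ∈ closedBall (0 : ℂ) 1 := by simpa using hp
  have hpB' : p' ∈ closedBall (0 : ℂ) 1 := by simpa using hp'
  have hpp : p = p' := by
    rcases hpc with ⟨hne, hl⟩ | ⟨v, hv, t, ht0, ht1, -, hl⟩
    · rcases hpc' with ⟨hne', hl'⟩ | ⟨v', hv', t', ht0', ht1', -, hl'⟩
      · have := tendsto_nhds_unique (hl.congr' heq) hl'
        exact h.inj hpB hpB' this
      · have e := tendsto_nhds_unique (hl.congr' heq) hl'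
        have e2 := h.clear v' p hpB t' (real_mem_TT ht0' ht1') e
        rw [e2] at e
        rw [hv']
        apply h.inj hpB (hv' ▸ hpB')
        simpa using e
    · rcases hpc' with ⟨hne', hl'⟩ | ⟨v', hv', t', ht0', ht1', -, hl'⟩
      · have e := tendsto_nhds_unique (hl.congr' heq) hl'
        have e2 := h.clear v p' hpB' t (real_mem_TT ht0 ht1) e.symm
        rw [e2] at e
        rw [hv]
        apply h.inj (hv ▸ hpB) hpB'
        simpa using e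
      · have e := tendsto_nhds_unique (hl.congr' heq) hl'
        by_cases hvv : v = v'
        · rw [hv, hv', hvv]
        · exact absurd e (h.disj v v' hvv _ (real_mem_TT ht0 ht1) _ (real_mem_TT ht0' ht1'))
  subst hpp
  obtain ⟨c, ρ, hρ, hev⟩ := Fd_local' (u := u) h hp
  have h2 : ∀ᶠ θ in (U : Filter ℝ), (y θ).1 ∈ ball p ρ := hpl (ball_mem_nhds p hρ)
  have h2' : ∀ᶠ θ in (U : Filter ℝ), (y θ).2 ∈ ball p ρ := hpl' (ball_mem_nhds p hρ)
  have h3 := hev.filter_mono hU1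
  have h3' := eventually_Ioo.filter_mono hU1
  obtain ⟨θ, h4, h4', h5, h6, h7⟩ := (h2.and (h2'.and (hy.and (h3.and h3')))).exists
  have hconv : Convex ℝ (ball p ρ ∩ closedBall (0 : ℂ) 1) :=
    (convex_ball p ρ).inter (convex_closedBall 0 1)
  have hinj := injOn_of_re_deriv_pos hconv (f := Fn F ζ u θ) (f' := Fd F ζ u θ) (c := c)
    (fun y hy => Fn_hasDerivAt h h7.1 h7.2 (by simpa using hy.2)) h6
  exact h5.2.2.2 (hinj ⟨h4, by simpa using h5.1⟩ ⟨h4', by simpa using h5.2.1⟩ h5.2.2.1)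

end

end Pool.Agent.Lib.MP_cf5e8f_an
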