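import Pool.Agent.Lib.MP_cf5e8f_an.Cells

set_option autoImplicit false

namespace Pool.Agent.Lib.MP_cf5e8f_an

open Filter Topology Complex Metric Set ComplexConjugate MeasureTheory

/-- the gap parameter at level `j` -/
noncomputable def eps (j : ℕ) : ℝ := (1 / 4) ^ j / 64

lemma eps_pos (j : ℕ) : 0 < eps j := by unfold eps; positivity

lemma quarter_pow_le (j : ℕ) : ((1 : ℝ) / 4) ^ j ≤ 1 := pow_le_one₀ (by norm_num) (by norm_num)

lemma eps_le (j : ℕ) : eps j ≤ 1 / 8 := by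
  unfold eps
  have := quarter_pow_le j
  linarith

/-- the cost ratio -/
noncomputable def cc : ℝ := Real.sqrt 2 * (2 / 3)

lemma cc_pos : 0 < cc := by unfold cc; positivity

lemma cc_lt_one : cc < 1 := by
  unfold cc
  have h : Real.sqrt 2 < 3 / 2 := by
    rw [Real.sqrt_lt' (by norm_num)]
    norm_num
  linarith

/-- state of the construction at level `j` -/
structure St (j : ℕ) where
  ι : Type
  inst : Fintype ι
  F : ℂ → ℂ
  ζ : ι → ℂ
  u : ι → ℂ
  B : ℕ → ℝ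
  m : ℝ
  geo : Geo F ζ u (eps j)
  ta : TA B (cc ^ j)
  bB : ∀ n, ‖bb ζ u n‖ ≤ B n
  hm : ∀ v, ‖u v‖ ^ 2 = m
  low : 1 / 2 * (1 + (1 / 4) ^ j) ≤ (Fintype.card ι : ℝ) * m
  up : m ≤ (1 / 2) ^ j

/-- the union of the cells -/
def St.K {j : ℕ} (S : St j) : Set ℂ := ⋃ v, cell (S.F (S.ζ v)) (S.u v) (eps j)

/-- relation between consecutive states -/
structure Rel {j : ℕ} (S : St j) (S' : St (j + 1)) (d : ℕ → ℂ) : Prop where
  sm : Summable (fun n => ‖d n‖)
  le : ∑' n, ‖d n‖ ≤ 2 * cc ^ j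
  d0 : d 0 = 0
  d1 : ‖d 1‖ ≤ (1 / 4) ^ (j + 1)
  hs : ∀ z : ℂ, ‖z‖ ≤ 1 → HasSum (fun n : ℕ => d n * z ^ n) (S'.F z - S.F z)
  sub : S'.K ⊆ S.K

lemma TT_norm_sq_lt {ε : ℝ} {a : ℂ} (ha : a ∈ TT ε) : ‖a‖ ≤ 2 := TT_bound ha

/-- the initial state -/
lemma geo0 : Geo (ι := Unit) (fun z => z) (fun _ => 1) (fun _ => 1) (eps 0) := by
  refine { diff := ⟨2, by norm_num, differentiableOn_id⟩
           inj := fun a _ b _ h => h
           deriv_ne := ?_
           norm_zeta := fun _ => norm_one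
           u_ne := fun _ => one_ne_zero
           dir := ?_
           disj := ?_
           clear := ?_ }
  · intro z _
    simp
  · intro v
    simp
  · intro v v' hv
    exact absurd (Subsingleton.elim v v') hv
  · intro v z hz a ha heq
    simp only [one_mul] at heq
    have hz' : ‖z‖ ≤ 1 := by simpa using hz
    have h1 := (Complex.re_le_norm z).trans hz'
    rw [heq, Complex.add_re, Complex.one_re] at h1
    have h2 : a.re = 0 := le_antisymm (by linarith) ha.1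
    exact TT_re_zero (eps_pos 0) ha h2

/-- the initial state -/
noncomputable def St0 : St 0 where
  ι := Unit
  inst := inferInstance
  F := fun z => z
  ζ := fun _ => 1
  u := fun _ => 1
  B := fun _ => 1
  m := 1
  geo := geo0
  ta := by
    unfold TA
    have : (fun _ : ℕ => (((1 : ℝ) : ℂ)) - ((cc ^ 0 : ℝ) : ℂ)) = 0 := by
      funext n; simp
    rw [this]
    exact NT.zero_mem
  bB := by intro n; simp [bb]
  hm := by intro v; simp
  low := by norm_num
  up := by norm_num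

theorem exists_step {j : ℕ} (S : St j) : ∃ (S' : St (j + 1)) (d : ℕ → ℂ), Rel S S' d := by
  obtain ⟨ι, inst, F, ζ, u, B, m, geo, ta, bB, hm, low, up⟩ := S
  set κ : ℝ := (1 - 4 * eps j) * hh with hκ
  have hκ2 : κ ^ 2 = (1 - 4 * eps j) ^ 2 / 2 := by
    rw [hκ, mul_pow, hh_sq]; ring
  obtain ⟨θ, g1, g2, g3, g4, g5, g6, g7, g8, g9⟩ := full_step (κ := κ) (η := (1 / 4) ^ (j + 1)) geo
    (eps_pos j) (eps_le j) (eps_pos (j + 1)) hκ ta (pow_pos cc_pos j) bB (by positivity)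
  have hq0 : (0 : ℝ) ≤ (1 / 4) ^ j := by positivity
  have hq1 := quarter_pow_le j
  have hδ : 4 * eps j = (1 / 4) ^ j / 16 := by unfold eps; ring
  have hm' : ∀ q : ι × Bool, ‖uN u κ q‖ ^ 2 = κ ^ 2 * m := by
    intro q
    unfold uN un
    rw [norm_mul, norm_mul, norm_mul, Complex.norm_I, Complex.norm_real, Complex.norm_real,
      Real.norm_eq_abs, Real.norm_eq_abs, abs_sg, one_mul, one_mul, mul_pow, sq_abs, hm q.1]
  refine ⟨{ ι := ι × Bool
            inst := inferInstance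
            F := Fn F ζ u θ
            ζ := zN ζ θ
            u := uN u κ
            B := fun n => Real.sqrt 2 * Pmaj (n * θ) * B n
            m := κ ^ 2 * m
            geo := g1
            ta := ?_
            bB := g4
            hm := hm'
            low := ?_
            up := ?_ }, dd ζ u θ, ?_⟩
  · rw [pow_succ']
    exact g3
  · rw [Fintype.card_prod, Fintype.card_bool, hκ2, hδ]
    push_cast
    have e : (Fintype.card ι : ℝ) * 2 * ((1 - (1 / 4) ^ j / 16) ^ 2 / 2 * m) =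
        (1 - (1 / 4) ^ j / 16) ^ 2 * ((Fintype.card ι : ℝ) * m) := by ring
    rw [e, pow_succ]
    set q : ℝ := (1 / 4) ^ j with hq
    calc 1 / 2 * (1 + q * (1 / 4)) ≤ (1 - q / 16) ^ 2 * (1 / 2 * (1 + q)) := by
          nlinarith [mul_nonneg hq0 hq0, mul_nonneg hq0 (sub_nonneg.mpr hq1),
            mul_nonneg (mul_nonneg hq0 hq0) (sub_nonneg.mpr hq1),
            mul_nonneg (mul_nonneg hq0 hq0) hq0]
      _ ≤ _ := mul_le_mul_of_nonneg_left low (sq_nonneg _)
  · rw [hκ2, hδ, pow_succ]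
    have h1 : (1 - (1 / 4 : ℝ) ^ j / 16) ^ 2 ≤ 1 := by nlinarith
    have h2 : (0 : ℝ) ≤ (1 / 2) ^ j := by positivity
    have h3 : (0 : ℝ) ≤ (1 - (1 / 4 : ℝ) ^ j / 16) ^ 2 := sq_nonneg _
    calc (1 - (1 / 4 : ℝ) ^ j / 16) ^ 2 / 2 * m ≤ (1 - (1 / 4 : ℝ) ^ j / 16) ^ 2 / 2 * (1 / 2) ^ j :=
          mul_le_mul_of_nonneg_left up (by positivity)
      _ ≤ 1 / 2 * (1 / 2) ^ j := mul_le_mul_of_nonneg_right (by linarith) h2
      _ = _ := by ring
  · refine { sm := g5, le := g6, d0 := g7, d1 := g8, hs := g9, sub := ?_ }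
    intro x hx
    simp only [St.K, mem_iUnion] at hx ⊢
    obtain ⟨q, a, ha, rfl⟩ := hx
    obtain ⟨b, hb, he⟩ := g2 q a ⟨(eps_pos (j + 1)).le.trans ha.1, ha.2.1, ha.2.2⟩
    exact ⟨q.1, b, hb, he.symm⟩

/-- the sequence of states -/
noncomputable def SQ : (j : ℕ) → St j
  | 0 => St0
  | (j + 1) => (exists_step (SQ j)).choose

/-- the sequence of perturbations -/
noncomputable def DQ (j : ℕ) : ℕ → ℂ := (exists_step (SQ j)).choose_spec.choose

lemma SQ_rel (j : ℕ) : Rel (SQ j) (SQ (j + 1)) (DQ j) := (exists_step (SQ j)).choose_spec.choose_spec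

lemma F_diff {j : ℕ} (S : St j) : DifferentiableOn ℂ S.F (ball 0 1) := by
  let _ := S.inst
  obtain ⟨R, hR, hd⟩ := S.geo.diff
  exact hd.mono (ball_subset_ball hR.le)

lemma F_inj {j : ℕ} (S : St j) : InjOn S.F (ball 0 1) := by
  let _ := S.inst
  exact S.geo.inj.mono ball_subset_closedBall

lemma K_compact {j : ℕ} (S : St j) : IsCompact S.K := by
  let _ := S.inst
  apply isCompact_iUnion
  intro v
  exact cell_isCompact _ _ _ (eps_pos j).le

lemma K_volume {j : ℕ} (S : St j) : ENNReal.ofReal (1 / 2) ≤ volume S.K := by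
  let _ := S.inst
  apply volume_cells S.geo (eps_pos j).le (eps_le j) S.hm
  refine le_trans ?_ S.low
  have : (0 : ℝ) ≤ (1 / 4) ^ j := by positivity
  linarith

lemma K_close {j : ℕ} (S : St j) {x : ℂ} (hx : x ∈ S.K) :
    ∃ ζ : ℂ, ‖ζ‖ = 1 ∧ ‖x - S.F ζ‖ ^ 2 ≤ 4 * (1 / 2) ^ j := by
  let _ := S.inst
  simp only [St.K, mem_iUnion] at hx
  obtain ⟨v, a, ha, rfl⟩ := hx
  refine ⟨S.ζ v, S.geo.norm_zeta v, ?_⟩
  simp only [add_sub_cancel_left]
  rw [norm_mul, mul_pow, S.hm v]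
  have h1 : ‖a‖ ^ 2 ≤ 4 := by
    have := TT_bound (RR_subset_TT (eps_pos j).le ha)
    nlinarith [norm_nonneg a]
  have h2 : 0 ≤ S.m := by rw [← S.hm v]; positivity
  calc S.m * ‖a‖ ^ 2 ≤ S.m * 4 := mul_le_mul_of_nonneg_left h1 h2
    _ ≤ 4 * (1 / 2) ^ j := by linarith [S.up]

end Pool.Agent.Lib.MP_cf5e8f_an
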