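import Pool.Agent.Lib.MP_cf5e8f_an.State
import Pool.Agent.Lib.MP_cf5e8f_an.Assemble

/-! The construction of `State` started with a cell of size `ρ`, and a quantitative assembly. -/

set_option autoImplicit false

namespace Pool.Agent.Lib.MP_cf5e8f_an

open Filter Topology Complex Metric Set ComplexConjugate MeasureTheory

/-- total area of the cells -/
lemma volume_cells_ge {ι : Type} [Fintype ι] {F : ℂ → ℂ} {ζ u : ι → ℂ} {ε : ℝ}
    (h : Geo F ζ u ε) (hε : 0 ≤ ε) (hε1 : ε ≤ 1 / 8) {m M : ℝ} (hm : ∀ v, ‖u v‖ ^ 2 = m)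
    (hM : M ≤ (Fintype.card ι : ℝ) * m) :
    ENNReal.ofReal M ≤ volume (⋃ v, cell (F (ζ v)) (u v) ε) := by
  rw [measure_iUnion]
  · rw [tsum_fintype]
    have h1 : ∀ v, volume (cell (F (ζ v)) (u v) ε) = ENNReal.ofReal m * volume (RR ε) := by
      intro v
      rw [volume_cell, hm v]
    have h2 : ENNReal.ofReal 1 ≤ volume (RR ε) := by
      rw [volume_RR, ← ENNReal.ofReal_mul (by linarith)]
      apply ENNReal.ofReal_le_ofReal
      nlinarith [two_hh]
    rw [Finset.sum_congr rfl fun v _ => h1 v, Finset.sum_const, Finset.card_univ, nsmul_eq_mul]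
    rw [ENNReal.ofReal_one] at h2
    calc ENNReal.ofReal M ≤ ENNReal.ofReal ((Fintype.card ι : ℝ) * m) :=
          ENNReal.ofReal_le_ofReal hM
      _ = (Fintype.card ι : ENNReal) * ENNReal.ofReal m := by
          rw [ENNReal.ofReal_mul (by positivity), ENNReal.ofReal_natCast]
      _ = (Fintype.card ι : ENNReal) * (ENNReal.ofReal m * 1) := by rw [mul_one]
      _ ≤ _ := by gcongr
  · intro v v' hv
    rw [Function.onFun, Set.disjoint_left]
    rintro x ⟨a, ha, rfl⟩ ⟨b, hb, hab⟩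
    exact h.disj v v' hv a (RR_subset_TT hε ha) b (RR_subset_TT hε hb) hab.symm
  · intro v
    exact (cell_isCompact _ _ _ hε).isClosed.measurableSet

/-- state of the construction at level `j`, started with a cell of size `ρ` -/
structure StR (ρ : ℝ) (j : ℕ) where
  ι : Type
  inst : Fintype ι
  F : ℂ → ℂ
  ζ : ι → ℂ
  u : ι → ℂ
  B : ℕ → ℝ
  m : ℝ
  geo : Geo F ζ u (eps j)
  ta : TA B (ρ * cc ^ j)
  bB : ∀ n, ‖bb ζ u n‖ ≤ B n
  hm : ∀ v, ‖u v‖ ^ 2 = m
  low : ρ ^ 2 * (1 / 2 * (1 + (1 / 4) ^ j)) ≤ (Fintype.card ι : ℝ) * m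
  up : m ≤ ρ ^ 2 * (1 / 2) ^ j

/-- the union of the cells -/
def StR.K {ρ : ℝ} {j : ℕ} (S : StR ρ j) : Set ℂ := ⋃ v, cell (S.F (S.ζ v)) (S.u v) (eps j)

/-- relation between consecutive states -/
structure RelR {ρ : ℝ} {j : ℕ} (S : StR ρ j) (S' : StR ρ (j + 1)) (d : ℕ → ℂ) : Prop where
  sm : Summable (fun n => ‖d n‖)
  le : ∑' n, ‖d n‖ ≤ 2 * (ρ * cc ^ j)
  d0 : d 0 = 0
  d1 : ‖d 1‖ ≤ (1 / 4) ^ (j + 1)
  hs : ∀ z : ℂ, ‖z‖ ≤ 1 → HasSum (fun n : ℕ => d n * z ^ n) (S'.F z - S.F z)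
  sub : S'.K ⊆ S.K

lemma geo0R {ρ : ℝ} (hρ : 0 < ρ) :
    Geo (ι := Unit) (fun z => z) (fun _ => 1) (fun _ => (ρ : ℂ)) (eps 0) := by
  refine { diff := ⟨2, by norm_num, differentiableOn_id⟩
           inj := fun a _ b _ h => h
           deriv_ne := ?_
           norm_zeta := fun _ => norm_one
           u_ne := fun _ => by exact_mod_cast hρ.ne'
           dir := ?_
           disj := ?_
           clear := ?_ }
  · intro z _
    simp
  · intro v
    rw [show (fun z : ℂ => z) = id from rfl, deriv_id, mul_one, ← Complex.ofReal_one,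
      ← Complex.ofReal_div, Complex.ofReal_re]
    positivity
  · intro v v' hv
    exact absurd (Subsingleton.elim v v') hv
  · intro v z hz a ha heq
    have hz' : ‖z‖ ≤ 1 := by simpa using hz
    have h1 := (Complex.re_le_norm z).trans hz'
    have heq' : z = 1 + (ρ : ℂ) * a := heq
    rw [heq', Complex.add_re, Complex.one_re, Complex.re_ofReal_mul] at h1
    have h3 : ρ * a.re ≤ 0 := by linarith
    have h2 : a.re = 0 := le_antisymm (by
      by_contra hcon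
      push Not at hcon
      have := mul_pos hρ hcon
      linarith) ha.1
    exact TT_re_zero (eps_pos 0) ha h2

/-- the initial state -/
noncomputable def St0R {ρ : ℝ} (hρ : 0 < ρ) : StR ρ 0 where
  ι := Unit
  inst := inferInstance
  F := fun z => z
  ζ := fun _ => 1
  u := fun _ => (ρ : ℂ)
  B := fun _ => ρ
  m := ρ ^ 2
  geo := geo0R hρ
  ta := by
    unfold TA
    have : (fun _ : ℕ => (((ρ : ℝ) : ℂ)) - ((ρ * cc ^ 0 : ℝ) : ℂ)) = 0 := by
      funext n; simp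
    rw [this]
    exact NT.zero_mem
  bB := by intro n; simp [bb, abs_of_pos hρ]
  hm := by intro v; simp
  low := by
    rw [Fintype.card_unit]
    norm_num
  up := by norm_num

theorem exists_stepR {ρ : ℝ} (hρ : 0 < ρ) {j : ℕ} (S : StR ρ j) :
    ∃ (S' : StR ρ (j + 1)) (d : ℕ → ℂ), RelR S S' d := by
  obtain ⟨ι, inst, F, ζ, u, B, m, geo, ta, bB, hm, low, up⟩ := S
  set κ : ℝ := (1 - 4 * eps j) * hh with hκ
  have hκ2 : κ ^ 2 = (1 - 4 * eps j) ^ 2 / 2 := by
    rw [hκ, mul_pow, hh_sq]; ring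
  obtain ⟨θ, g1, g2, g3, g4, g5, g6, g7, g8, g9⟩ := full_step (κ := κ) (η := (1 / 4) ^ (j + 1)) geo
    (eps_pos j) (eps_le j) (eps_pos (j + 1)) hκ ta (mul_pos hρ (pow_pos cc_pos j)) bB
    (by positivity)
  have hq0 : (0 : ℝ) ≤ (1 / 4) ^ j := by positivity
  have hq1 := quarter_pow_le j
  have hδ : 4 * eps j = (1 / 4) ^ j / 16 := by unfold eps; ring
  have hm' : ∀ q : ι × Bool, ‖uN u κ q‖ ^ 2 = κ ^ 2 * m := by
    intro q
    unfold uN un
    rw [norm_mul, norm_mul, norm_mul, Complex.norm_I, Complex.norm_real, Complex.norm_real,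
      Real.norm_eq_abs, Real.norm_eq_abs, abs_sg, one_mul, one_mul, mul_pow, sq_abs, hm q.1]
  refine ⟨{ ι := ι × Bool
            inst := inferInstance
            F := Fn F ζ u θ
            ζ := zN ζ θ
            u := uN u κ
            B := fun n => Real.sqrt 2 * Pmaj (n * θ) * B n
            m := κ ^ 2 * m
            geo := g1
            ta := ?_
            bB := g4
            hm := hm'
            low := ?_
            up := ?_ }, dd ζ u θ, ?_⟩
  · have e : ρ * cc ^ (j + 1) = Real.sqrt 2 * (2 / 3) * (ρ * cc ^ j) := by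
      rw [pow_succ']; unfold cc; ring
    rw [e]
    exact g3
  · rw [Fintype.card_prod, Fintype.card_bool, hκ2, hδ]
    push_cast
    have e : (Fintype.card ι : ℝ) * 2 * ((1 - (1 / 4) ^ j / 16) ^ 2 / 2 * m) =
        (1 - (1 / 4) ^ j / 16) ^ 2 * ((Fintype.card ι : ℝ) * m) := by ring
    rw [e, pow_succ]
    set q : ℝ := (1 / 4) ^ j with hq
    have key : 1 / 2 * (1 + q * (1 / 4)) ≤ (1 - q / 16) ^ 2 * (1 / 2 * (1 + q)) := by
      nlinarith [mul_nonneg hq0 hq0, mul_nonneg hq0 (sub_nonneg.mpr hq1),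
        mul_nonneg (mul_nonneg hq0 hq0) (sub_nonneg.mpr hq1),
        mul_nonneg (mul_nonneg hq0 hq0) hq0]
    calc ρ ^ 2 * (1 / 2 * (1 + q * (1 / 4))) ≤ ρ ^ 2 * ((1 - q / 16) ^ 2 * (1 / 2 * (1 + q))) :=
          mul_le_mul_of_nonneg_left key (sq_nonneg _)
      _ = (1 - q / 16) ^ 2 * (ρ ^ 2 * (1 / 2 * (1 + q))) := by ring
      _ ≤ _ := mul_le_mul_of_nonneg_left low (sq_nonneg _)
  · rw [hκ2, hδ, pow_succ]
    have h1 : (1 - (1 / 4 : ℝ) ^ j / 16) ^ 2 ≤ 1 := by nlinarith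
    have h2 : (0 : ℝ) ≤ ρ ^ 2 * (1 / 2) ^ j := by positivity
    have h3 : (0 : ℝ) ≤ (1 - (1 / 4 : ℝ) ^ j / 16) ^ 2 := sq_nonneg _
    calc (1 - (1 / 4 : ℝ) ^ j / 16) ^ 2 / 2 * m
        ≤ (1 - (1 / 4 : ℝ) ^ j / 16) ^ 2 / 2 * (ρ ^ 2 * (1 / 2) ^ j) :=
          mul_le_mul_of_nonneg_left up (by positivity)
      _ ≤ 1 / 2 * (ρ ^ 2 * (1 / 2) ^ j) := mul_le_mul_of_nonneg_right (by linarith) h2
      _ = _ := by ring
  · refine { sm := g5, le := g6, d0 := g7, d1 := g8, hs := g9, sub := ?_ }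
    intro x hx
    simp only [StR.K, mem_iUnion] at hx ⊢
    obtain ⟨q, a, ha, rfl⟩ := hx
    obtain ⟨b, hb, he⟩ := g2 q a ⟨(eps_pos (j + 1)).le.trans ha.1, ha.2.1, ha.2.2⟩
    exact ⟨q.1, b, hb, he.symm⟩

/-- the sequence of states -/
noncomputable def SQR {ρ : ℝ} (hρ : 0 < ρ) : (j : ℕ) → StR ρ j
  | 0 => St0R hρ
  | (j + 1) => (exists_stepR hρ (SQR hρ j)).choose

/-- the sequence of perturbations -/
noncomputable def DQR {ρ : ℝ} (hρ : 0 < ρ) (j : ℕ) : ℕ → ℂ :=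
  (exists_stepR hρ (SQR hρ j)).choose_spec.choose

lemma SQR_rel {ρ : ℝ} (hρ : 0 < ρ) (j : ℕ) : RelR (SQR hρ j) (SQR hρ (j + 1)) (DQR hρ j) :=
  (exists_stepR hρ (SQR hρ j)).choose_spec.choose_spec

lemma FR_diff {ρ : ℝ} {j : ℕ} (S : StR ρ j) : DifferentiableOn ℂ S.F (ball 0 1) := by
  let _ := S.inst
  obtain ⟨R, hR, hd⟩ := S.geo.diff
  exact hd.mono (ball_subset_ball hR.le)

lemma FR_inj {ρ : ℝ} {j : ℕ} (S : StR ρ j) : InjOn S.F (ball 0 1) := by
  let _ := S.inst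
  exact S.geo.inj.mono ball_subset_closedBall

lemma KR_compact {ρ : ℝ} {j : ℕ} (S : StR ρ j) : IsCompact S.K := by
  let _ := S.inst
  apply isCompact_iUnion
  intro v
  exact cell_isCompact _ _ _ (eps_pos j).le

lemma KR_volume {ρ : ℝ} {j : ℕ} (S : StR ρ j) : ENNReal.ofReal (ρ ^ 2 / 2) ≤ volume S.K := by
  let _ := S.inst
  apply volume_cells_ge S.geo (eps_pos j).le (eps_le j) S.hm
  refine le_trans ?_ S.low
  have h1 : (0 : ℝ) ≤ (1 / 4) ^ j := by positivity
  have h2 : (0 : ℝ) ≤ ρ ^ 2 * (1 / 4) ^ j := by positivity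
  linarith

lemma KR_close {ρ : ℝ} {j : ℕ} (S : StR ρ j) {x : ℂ} (hx : x ∈ S.K) :
    ∃ ζ : ℂ, ‖ζ‖ = 1 ∧ ‖x - S.F ζ‖ ^ 2 ≤ 4 * (ρ ^ 2 * (1 / 2) ^ j) := by
  let _ := S.inst
  simp only [StR.K, mem_iUnion] at hx
  obtain ⟨v, a, ha, rfl⟩ := hx
  refine ⟨S.ζ v, S.geo.norm_zeta v, ?_⟩
  simp only [add_sub_cancel_left]
  rw [norm_mul, mul_pow, S.hm v]
  have h1 : ‖a‖ ^ 2 ≤ 4 := by
    have := TT_bound (RR_subset_TT (eps_pos j).le ha)
    nlinarith [norm_nonneg a]
  have h2 : 0 ≤ S.m := by rw [← S.hm v]; positivity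
  calc S.m * ‖a‖ ^ 2 ≤ S.m * 4 := mul_le_mul_of_nonneg_left h1 h2
    _ ≤ 4 * (ρ ^ 2 * (1 / 2) ^ j) := by linarith [S.up]

/-- quantitative assembly -/
theorem assembleR (F : ℕ → ℂ → ℂ) (d : ℕ → ℕ → ℂ) (c e : ℕ → ℝ) (K : ℕ → Set ℂ) (V Cs : ℝ)
    (hV : 0 < V)
    (hsm : ∀ j, Summable (fun n => ‖d j n‖)) (hle : ∀ j, ∑' n, ‖d j n‖ ≤ c j)
    (hc : Summable c) (hCs : ∑' j, c j ≤ Cs) (hF0 : ∀ z, F 0 z = z)
    (hs : ∀ j, ∀ z : ℂ, ‖z‖ ≤ 1 → HasSum (fun n : ℕ => d j n * z ^ n) (F (j + 1) z - F j z))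
    (hFd : ∀ j, DifferentiableOn ℂ (F j) (ball 0 1)) (hFi : ∀ j, InjOn (F j) (ball 0 1))
    (hd0 : ∀ j, d j 0 = 0) (hd1 : ∀ j, ‖d j 1‖ ≤ (1 / 4) ^ (j + 1))
    (hK : ∀ j, IsCompact (K j)) (hKs : ∀ j, K (j + 1) ⊆ K j)
    (hKv : ∀ j, ENNReal.ofReal V ≤ volume (K j))
    (hKc : ∀ j, ∀ x ∈ K j, ∃ ζ : ℂ, ‖ζ‖ = 1 ∧ ‖x - F j ζ‖ ^ 2 ≤ e j)
    (he : Tendsto e atTop (𝓝 0)) :
    ∃ (f : ℂ → ℂ) (a : ℕ → ℂ), DifferentiableOn ℂ f (ball 0 1) ∧
      ContinuousOn f (closedBall 0 1) ∧ InjOn f (ball 0 1) ∧ f 0 = 0 ∧ HasDerivAt f 1 0 ∧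
      a 0 = 0 ∧ a 1 = 1 ∧ Summable (fun n => ‖a n‖) ∧ ∑' n, ‖a (n + 2)‖ ≤ 3 / 2 * Cs ∧
      (∀ z ∈ closedBall (0 : ℂ) 1, HasSum (fun n => a n * z ^ n) (f z)) ∧
      0 < volume (f '' sphere (0 : ℂ) 1) := by
  set G : ℂ → ℂ := fun z => ∑' n, aa d n * z ^ n with hG
  set T : ℕ → ℝ := fun j => ∑' i, c (i + j) with hT
  have hT0 : Tendsto T atTop (𝓝 0) := tendsto_sum_nat_add c
  have hGF : ∀ j, ∀ z : ℂ, ‖z‖ ≤ 1 → ‖G z - F j z‖ ≤ T j :=
    fun j z hz => G_close hsm hle hc hF0 hs hz j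
  have has := aa_summable hsm hle hc
  have ha0 : aa d 0 = 0 := by simp [aa, hd0]
  have hd1s : ‖∑' j, d j 1‖ ≤ 1 / 3 := by
    have hgeo : HasSum (fun j : ℕ => ((1 : ℝ) / 4) ^ (j + 1)) (1 / 3) := by
      have h2 := (hasSum_geometric_of_lt_one (show (0 : ℝ) ≤ 1 / 4 by norm_num)
        (show (1 : ℝ) / 4 < 1 by norm_num)).mul_left (1 / 4)
      have e1 : (1 / 4 : ℝ) * (1 - 1 / 4)⁻¹ = 1 / 3 := by norm_num
      rw [e1] at h2
      refine h2.congr_fun ?_ |> fun h => h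
      intro j
      rw [pow_succ']
    exact tsum_of_norm_bounded hgeo hd1
  have ha1n : 2 / 3 ≤ ‖aa d 1‖ := by
    have e : aa d 1 = 1 + ∑' j, d j 1 := by simp [aa]
    have h2 := norm_sub_norm_le (1 : ℂ) (-(∑' j, d j 1))
    rw [norm_neg, norm_one, sub_neg_eq_add] at h2
    rw [e]; linarith
  have ha1 : aa d 1 ≠ 0 := by
    intro h0
    rw [h0, norm_zero] at ha1n
    norm_num at ha1n
  -- regularity of G
  have hbound : ∀ n : ℕ, ∀ z ∈ closedBall (0 : ℂ) 1, ‖aa d n * z ^ n‖ ≤ ‖aa d n‖ := by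
    intro n z hz
    rw [norm_mul]
    exact mul_le_of_le_one_right (norm_nonneg _) (pow_le_one' (by simpa using hz) _)
  have hGc : ContinuousOn G (closedBall 0 1) :=
    continuousOn_tsum (fun n => (continuous_const.mul (continuous_pow n)).continuousOn) has hbound
  have hdn : ∀ n : ℕ, DifferentiableOn ℂ (fun z : ℂ => aa d n * z ^ n) (ball 0 1) :=
    fun n => ((differentiable_id.pow n).const_mul _).differentiableOn
  have hGd : DifferentiableOn ℂ G (ball 0 1) :=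
    differentiableOn_tsum_of_summable_norm has hdn isOpen_ball
      (fun n z hz => hbound n z (ball_subset_closedBall hz))
  have hG1 : deriv G 0 = aa d 1 := by
    have h1 := hasSum_deriv_of_summable_norm has hdn isOpen_ball
      (fun n z hz => hbound n z (ball_subset_closedBall hz)) (mem_ball_self one_pos)
    have h2 : HasSum (fun n : ℕ => deriv (fun z : ℂ => aa d n * z ^ n) 0) (aa d 1) := by
      have h3 : ∀ n : ℕ, deriv (fun z : ℂ => aa d n * z ^ n) 0 =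
          aa d n * (n * 0 ^ (n - 1)) := by
        intro n
        exact ((hasDerivAt_pow n (0 : ℂ)).const_mul (aa d n)).deriv
      have h4 := hasSum_single (f := fun n : ℕ => deriv (fun z : ℂ => aa d n * z ^ n) 0) 1
        (by
          intro n hn
          rw [h3]
          rcases Nat.eq_zero_or_pos n with h5 | h5
          · rw [h5]; simp
          · have : n - 1 ≠ 0 := by omega
            rw [zero_pow this]; simp)
      rw [h3 1] at h4
      simpa using h4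
    exact h1.unique h2
  have hG0 : deriv G 0 ≠ 0 := by rw [hG1]; exact ha1
  have hGi : InjOn G (ball 0 1) :=
    hurwitz hFd hFi hGd hG0 hT0 (fun j z hz => hGF j z (by
      rw [mem_ball, dist_zero_right] at hz; exact hz.le))
  -- measure
  have hcomp : IsCompact (G '' sphere 0 1) :=
    (isCompact_sphere 0 1).image_of_continuousOn (hGc.mono sphere_subset_closedBall)
  have hKsub : (⋂ j, K j) ⊆ G '' sphere 0 1 := by
    intro x hx
    rw [mem_iInter] at hx
    rw [← hcomp.isClosed.closure_eq, Metric.mem_closure_iff]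
    intro ε hε
    have h1 := he.eventually_lt_const (show (0 : ℝ) < (ε / 2) ^ 2 by positivity)
    have h2 := hT0.eventually_lt_const (show (0 : ℝ) < ε / 2 by positivity)
    obtain ⟨j, h1, h2⟩ := (h1.and h2).exists
    obtain ⟨ζ, hζ, h3⟩ := hKc j x (hx j)
    refine ⟨G ζ, mem_image_of_mem G (by simp [hζ]), ?_⟩
    have h4 : ‖x - F j ζ‖ < ε / 2 := by
      have := h3.trans_lt h1
      exact lt_of_pow_lt_pow_left₀ 2 (by positivity) this
    have h5 := hGF j ζ hζ.le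
    rw [dist_eq_norm]
    calc ‖x - G ζ‖ = ‖(x - F j ζ) - (G ζ - F j ζ)‖ := by ring_nf
      _ ≤ ‖x - F j ζ‖ + ‖G ζ - F j ζ‖ := norm_sub_le _ _
      _ < ε := by linarith
  have hKant : Antitone K := antitone_nat_of_succ_le hKs
  have hvol : ENNReal.ofReal V ≤ volume (⋂ j, K j) := by
    have h1 := tendsto_measure_iInter_atTop (μ := volume)
      (fun j => (hK j).isClosed.measurableSet.nullMeasurableSet) hKant
      ⟨0, (hK 0).measure_lt_top.ne⟩
    exact ge_of_tendsto' h1 hKv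
  have hpos : 0 < volume (G '' sphere 0 1) :=
    lt_of_lt_of_le (by simpa using hV) (hvol.trans (measure_mono hKsub))
  -- the tail
  have htail : ∑' n, ‖aa d (n + 2)‖ ≤ Cs := by
    have hsw := swap_summable hsm hle hc
    have h1 : ∀ n, ‖aa d (n + 2)‖ ≤ ∑' j, ‖d j (n + 2)‖ := by
      intro n
      have e : aa d (n + 2) = ∑' j, d j (n + 2) := by
        unfold aa
        rw [if_neg (by omega), zero_add]
      rw [e]
      exact norm_tsum_le_tsum_norm (col_summable hsm hle hc (n + 2))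
    have h2 := ((summable_prod_of_nonneg (fun _ => norm_nonneg _)).mp hsw).2
    have h3 : Summable (fun n : ℕ => ∑' j, ‖d j (n + 2)‖) := (summable_nat_add_iff 2).mpr h2
    have h4 : ∑' n, ‖aa d (n + 2)‖ ≤ ∑' n : ℕ, ∑' j, ‖d j (n + 2)‖ :=
      ((summable_nat_add_iff 2).mpr has).tsum_le_tsum h1 h3
    have h5 : ∑' n : ℕ, ∑' j, ‖d j (n + 2)‖ ≤ ∑' n : ℕ, ∑' j, ‖d j n‖ := by
      have h6 := h2.sum_add_tsum_nat_add 2
      have h7 : 0 ≤ ∑ i ∈ Finset.range 2, ∑' j, ‖d j i‖ :=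
        Finset.sum_nonneg fun i _ => tsum_nonneg fun j => norm_nonneg _
      linarith
    have h6 : ∑' n : ℕ, ∑' j, ‖d j n‖ = ∑' j, ∑' n, ‖d j n‖ :=
      Summable.tsum_comm (f := fun j n => ‖d j n‖) (prod_summable hsm hle hc)
    have h7 : ∑' j, ∑' n, ‖d j n‖ ≤ ∑' j, c j :=
      (Summable.of_nonneg_of_le (fun j => tsum_nonneg fun n => norm_nonneg _) hle hc).tsum_le_tsum
        hle hc
    linarith
  -- normalise
  set f : ℂ → ℂ := fun z => G z / aa d 1 with hf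
  have hGsum : ∀ z ∈ closedBall (0 : ℂ) 1, HasSum (fun n => aa d n * z ^ n) (G z) := by
    intro z hz
    exact (Summable.of_norm_bounded has (fun n => hbound n z hz)).hasSum
  have hG00 : G 0 = 0 := by
    have h1 := hGsum 0 (by simp)
    have h2 : HasSum (fun n => aa d n * (0 : ℂ) ^ n) 0 := by
      have : (fun n => aa d n * (0 : ℂ) ^ n) = fun _ => 0 := by
        funext n
        rcases Nat.eq_zero_or_pos n with h | h
        · rw [h, ha0, zero_mul]
        · rw [zero_pow (by omega), mul_zero]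
      rw [this]
      exact hasSum_zero
    exact h1.unique h2
  refine ⟨f, fun n => aa d n / aa d 1, hGd.div_const _, hGc.div_const _, ?_, ?_, ?_, ?_, ?_, ?_, ?_,
    ?_, ?_⟩
  · intro z hz z' hz' h
    simp only [hf] at h
    apply hGi hz hz'
    field_simp at h
    exact h
  · simp [hf, hG00]
  · have h1 : HasDerivAt G (aa d 1) 0 := by
      have h2 := (hGd.differentiableAt (isOpen_ball.mem_nhds (mem_ball_self one_pos))).hasDerivAt
      rw [hG1] at h2
      exact h2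
    have h2 := h1.div_const (aa d 1)
    rw [div_self ha1] at h2
    exact h2
  · simp [ha0]
  · simp [ha1]
  · simp only [norm_div]
    exact has.div_const _
  · simp only [norm_div]
    rw [tsum_div_const, div_le_iff₀ (by linarith)]
    have h0 : 0 ≤ Cs := le_trans (tsum_nonneg fun n => norm_nonneg _) htail
    nlinarith
  · intro z hz
    have h1 := (hGsum z hz).div_const (aa d 1)
    have e : (fun n => aa d n * z ^ n / aa d 1) = fun n => aa d n / aa d 1 * z ^ n := by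
      funext n; ring
    rw [e] at h1
    exact h1
  · rw [pos_iff_ne_zero]
    intro h0
    apply hpos.ne'
    have h1 : G '' sphere 0 1 =
        (fun w => aa d 1 * w) '' (f '' sphere 0 1) := by
      rw [image_image]
      apply image_congr
      intro z _
      simp only [hf]
      field_simp
    rw [h1]
    apply addHaar_image_eq_zero_of_differentiableOn_of_addHaar_eq_zero volume _ h0
    have : Differentiable ℂ (fun w : ℂ => aa d 1 * w) := by fun_prop
    exact (this.restrictScalars ℝ).differentiableOn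

end Pool.Agent.Lib.MP_cf5e8f_an
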