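import Pool.Agent.Lib.MP_cf5e8f_an.Gates3

set_option autoImplicit false

namespace Pool.Agent.Lib.MP_cf5e8f_an

open Filter Topology Complex Metric Set ComplexConjugate

/-- sign of a boolean -/
noncomputable def sg (b : Bool) : ℝ := if b then 1 else -1

lemma abs_sg (b : Bool) : |sg b| = 1 := by
  unfold sg
  cases b <;> simp

/-- new gate positions -/
noncomputable def zN {ι : Type} (ζ : ι → ℂ) (θ : ℝ) (q : ι × Bool) : ℂ := zn (ζ q.1) (sg q.2) θ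

/-- new gate vectors -/
noncomputable def uN {ι : Type} (u : ι → ℂ) (κ : ℝ) (q : ι × Bool) : ℂ := un (u q.1) κ (sg q.2)

/-- the cell -/
def cell (c u : ℂ) (ε : ℝ) : Set ℂ := (fun a => c + u * a) '' RR ε

section

variable {ι : Type} [Fintype ι] {F : ℂ → ℂ} {ζ u : ι → ℂ} {ε : ℝ}

lemma Fn_diff (h : Geo F ζ u ε) {θ : ℝ} (h0 : 0 < θ) (h1 : θ < 1) :
    ∃ R : ℝ, 1 < R ∧ DifferentiableOn ℂ (Fn F ζ u θ) (ball 0 R) := by
  obtain ⟨R, hR, hd⟩ := h.diff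
  have hr := rt_mem h0 h1
  refine ⟨min R (1 / rt θ), lt_min hR (by rw [lt_div_iff₀ hr.1]; linarith [hr.2]), ?_⟩
  intro y hy
  have hy' : ‖y‖ < min R (1 / rt θ) := by simpa using hy
  have hyR : ‖y‖ < R := hy'.trans_le (min_le_left _ _)
  have hyr : ‖y‖ < 1 / rt θ := hy'.trans_le (min_le_right _ _)
  have hFd : DifferentiableAt ℂ F y :=
    hd.differentiableAt (isOpen_ball.mem_nhds (by simpa using hyR))
  have hs : ∀ v, sv (ζ v) θ y ∈ slitPlane := by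
    intro v
    left
    have h2 : ‖(rt θ : ℂ) * conj (ζ v) * y‖ < 1 := by
      rw [norm_mul, norm_mul, Complex.norm_real, Real.norm_eq_abs, abs_of_pos hr.1,
        RCLike.norm_conj, h.norm_zeta v, mul_one]
      rw [lt_div_iff₀ hr.1] at hyr
      linarith
    have h3 := Complex.re_le_norm ((rt θ : ℂ) * conj (ζ v) * y)
    unfold sv
    rw [Complex.sub_re, Complex.one_re]
    linarith
  exact (Fn_hasDerivAt' hFd hs).differentiableAt.differentiableWithinAt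

lemma geo_step (h : Geo F ζ u ε) {κ ε' : ℝ} (hε : 0 < ε) (hε1 : ε ≤ 1 / 8)
    (hε' : 0 < ε') (hκ : κ = (1 - 4 * ε) * hh) :
    ∀ᶠ θ in 𝓝[>] (0 : ℝ), Geo (Fn F ζ u θ) (zN ζ θ) (uN u κ) ε' ∧
      ∀ q : ι × Bool, ∀ a ∈ RR 0, ∃ b ∈ RR ε,
        Fn F ζ u θ (zN ζ θ q) + uN u κ q * a = F (ζ q.1) + u q.1 * b := by
  have hκ0 : 0 < κ := by rw [hκ]; exact mul_pos (by linarith) hh_pos
  have e1 := Fn_injOn (u := u) h
  have e2 := Fd_ne_zero (u := u) h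
  have e3 : ∀ᶠ θ in 𝓝[>] (0 : ℝ), ∀ q : ι × Bool,
      0 < (zn (ζ q.1) (sg q.2) θ * Fd F ζ u θ (zn (ζ q.1) (sg q.2) θ) /
        un (u q.1) κ (sg q.2)).re :=
    Filter.eventually_all.mpr fun q => dir_new h q.1 (abs_sg q.2) hκ0
  have e4 : ∀ᶠ θ in 𝓝[>] (0 : ℝ), ∀ v : ι, ∀ a ∈ RR 0, ∀ b ∈ RR 0,
      Fn F ζ u θ (zn (ζ v) 1 θ) + un (u v) κ 1 * a ≠
        Fn F ζ u θ (zn (ζ v) (-1) θ) + un (u v) κ (-1) * b :=
    Filter.eventually_all.mpr fun v => sibling_disj h v hκ0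
  have e5 : ∀ᶠ θ in 𝓝[>] (0 : ℝ), ∀ q : ι × Bool, ∀ y ∈ closedBall (0 : ℂ) 1, ∀ a ∈ TT ε',
      Fn F ζ u θ y = Fn F ζ u θ (zn (ζ q.1) (sg q.2) θ) + un (u q.1) κ (sg q.2) * a → a = 0 :=
    Filter.eventually_all.mpr fun q => new_clear h q.1 hε hε1 hε' hκ (abs_sg q.2)
  have e6 : ∀ᶠ θ in 𝓝[>] (0 : ℝ), ∀ q : ι × Bool, ∀ a ∈ RR 0, ∃ b ∈ RR ε,
      Fn F ζ u θ (zn (ζ q.1) (sg q.2) θ) + un (u q.1) κ (sg q.2) * a = F (ζ q.1) + u q.1 * b :=
    Filter.eventually_all.mpr fun q => new_contain h q.1 hε (by linarith) hκ (abs_sg q.2)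
  filter_upwards [e1, e2, e3, e4, e5, e6, eventually_Ioo] with θ e1 e2 e3 e4 e5 e6 h01
  have hnz : ∀ q : ι × Bool, ‖zN ζ θ q‖ = 1 := fun q => norm_zn (h.norm_zeta q.1) _ _
  have hder : ∀ z ∈ closedBall (0 : ℂ) 1, deriv (Fn F ζ u θ) z = Fd F ζ u θ z := by
    intro z hz
    exact (Fn_hasDerivAt h h01.1 h01.2 (by simpa using hz)).deriv
  refine ⟨{ diff := Fn_diff h h01.1 h01.2
            inj := e1
            deriv_ne := ?_
            norm_zeta := hnz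
            u_ne := ?_
            dir := ?_
            disj := ?_
            clear := ?_ }, e6⟩
  · intro z hz
    rw [hder z hz]
    exact e2 z hz
  · intro q
    unfold uN un
    have hs : sg q.2 ≠ 0 := by
      intro h0
      have := abs_sg q.2
      rw [h0] at this
      simp at this
    exact mul_ne_zero (mul_ne_zero (mul_ne_zero Complex.I_ne_zero (by exact_mod_cast hs))
      (by exact_mod_cast hκ0.ne')) (h.u_ne q.1)
  · intro q
    rw [hder _ (by simp [hnz q])]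
    exact e3 q
  · intro q q' hqq a ha b hb
    by_cases hv : q.1 = q'.1
    · obtain ⟨v, s⟩ := q
      obtain ⟨v', s'⟩ := q'
      simp only at hv
      subst hv
      have hss : s ≠ s' := fun hs => hqq (by rw [hs])
      cases s <;> cases s'
      · exact absurd rfl hss
      · intro heq
        have := e4 v b (TT_subset_RR hb) a (TT_subset_RR ha)
        apply this
        simpa [zN, uN, sg] using heq.symm
      · intro heq
        have := e4 v a (TT_subset_RR ha) b (TT_subset_RR hb)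
        apply this
        simpa [zN, uN, sg] using heq
      · exact absurd rfl hss
    · intro heq
      obtain ⟨a', ha', h1⟩ := e6 q a (TT_subset_RR ha)
      obtain ⟨b', hb', h2⟩ := e6 q' b (TT_subset_RR hb)
      apply h.disj q.1 q'.1 hv a' (RR_subset_TT hε.le ha') b' (RR_subset_TT hε.le hb')
      rw [← h1, ← h2]
      exact heq
  · intro q z hz a ha heq
    exact e5 q z hz a ha heq

/-- Fourier coefficients of the gate measure -/
noncomputable def bb {ι : Type} [Fintype ι] (ζ u : ι → ℂ) (n : ℕ) : ℂ := ∑ v, u v * conj (ζ v) ^ n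

lemma bb_new (ζ u : ι → ℂ) (θ κ : ℝ) (n : ℕ) :
    bb (zN ζ θ) (uN u κ) n = 2 * κ * Real.sin (n * θ) * bb ζ u n := by
  unfold bb
  rw [Fintype.sum_prod_type, Finset.mul_sum]
  apply Finset.sum_congr rfl
  intro v _
  rw [Fintype.sum_bool]
  unfold zN uN sg un zn
  simp only [if_true, Bool.false_eq_true, if_false]
  have hc : ∀ σ : ℝ, conj (ζ v * cexp ((σ * θ : ℝ) * I)) ^ n =
      conj (ζ v) ^ n * cexp (-((σ * (n * θ) : ℝ) * I)) := by
    intro σ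
    rw [map_mul, mul_pow, ← Complex.exp_conj, ← Complex.exp_nat_mul]
    congr 2
    simp only [map_mul, Complex.conj_ofReal, Complex.conj_I]
    push_cast
    ring
  rw [hc, hc]
  have hs : (Real.sin (n * θ) : ℂ) =
      (cexp (-((n * θ : ℝ) * I)) - cexp ((n * θ : ℝ) * I)) * I / 2 := by
    rw [Complex.ofReal_sin, Complex.sin, neg_mul]
  rw [hs]
  have e1 : cexp (-(((1 : ℝ) * (n * θ) : ℝ) * I)) = cexp (-((n * θ : ℝ) * I)) := by
    rw [one_mul]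
  have e2 : cexp (-(((-1 : ℝ) * (n * θ) : ℝ) * I)) = cexp ((n * θ : ℝ) * I) := by
    congr 1
    push_cast
    ring
  rw [e1, e2]
  push_cast
  ring

lemma bb_new_bound {ζ u : ι → ℂ} {B : ℕ → ℝ} (hb : ∀ n, ‖bb ζ u n‖ ≤ B n) {θ κ : ℝ}
    (hκ0 : 0 ≤ κ) (hκ : κ ≤ hh) (n : ℕ) :
    ‖bb (zN ζ θ) (uN u κ) n‖ ≤ Real.sqrt 2 * Pmaj (n * θ) * B n := by
  rw [bb_new, norm_mul, norm_mul, norm_mul]
  have h1 : ‖(Real.sin (n * θ) : ℂ)‖ = |Real.sin (n * θ)| := by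
    rw [Complex.norm_real, Real.norm_eq_abs]
  have h2 : ‖(2 : ℂ)‖ * ‖(κ : ℂ)‖ = 2 * κ := by
    rw [Complex.norm_real, Real.norm_eq_abs, abs_of_nonneg hκ0]
    simp
  rw [h1, h2]
  have h3 : 2 * κ ≤ Real.sqrt 2 := by
    unfold hh at hκ; linarith
  have h4 := abs_sin_le_Pmaj (n * θ)
  have h5 : 0 ≤ Real.sqrt 2 := Real.sqrt_nonneg 2
  have h6 : 0 ≤ |Real.sin (n * θ)| := abs_nonneg _
  have h7 := hb n
  have h8 := norm_nonneg (bb ζ u n)
  apply mul_le_mul _ h7 h8 (mul_nonneg h5 (h6.trans h4))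
  exact mul_le_mul h3 h4 h6 h5

/-- the coefficients of the perturbation -/
noncomputable def dd {ι : Type} [Fintype ι] (ζ u : ι → ℂ) (θ : ℝ) (n : ℕ) : ℂ :=
  wt θ * ((rt θ : ℂ) ^ n / n * bb ζ u n)

lemma dd_hasSum (h : Geo F ζ u ε) {θ : ℝ} (h0 : 0 < θ) (h1 : θ < 1) {z : ℂ} (hz : ‖z‖ ≤ 1) :
    HasSum (fun n : ℕ => dd ζ u θ n * z ^ n) (Fn F ζ u θ z - F z) := by
  have hr := rt_mem h0 h1
  have key : ∀ v, HasSum (fun n : ℕ => u v * (((rt θ : ℂ) * conj (ζ v) * z) ^ n / n))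
      (u v * (-log (1 - (rt θ : ℂ) * conj (ζ v) * z))) := by
    intro v
    apply HasSum.mul_left
    apply Complex.hasSum_taylorSeries_neg_log
    rw [norm_mul, norm_mul, Complex.norm_real, Real.norm_eq_abs, abs_of_pos hr.1,
      RCLike.norm_conj, h.norm_zeta v, mul_one]
    calc rt θ * ‖z‖ ≤ rt θ * 1 := mul_le_mul_of_nonneg_left hz hr.1.le
      _ < 1 := by linarith [hr.2]
  have h2 := (hasSum_sum fun v (_ : v ∈ Finset.univ) => key v).mul_left (wt θ : ℂ)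
  have e : (wt θ : ℂ) * ∑ v, u v * (-log (1 - (rt θ : ℂ) * conj (ζ v) * z)) =
      Fn F ζ u θ z - F z := by
    unfold Fn sv
    simp only [mul_neg, Finset.sum_neg_distrib]
    ring
  rw [e] at h2
  refine h2.congr_fun ?_ |> fun h => h
  intro n
  unfold dd bb
  rw [Finset.mul_sum, Finset.mul_sum, Finset.mul_sum, Finset.sum_mul]
  apply Finset.sum_congr rfl
  intro v _
  rw [mul_pow, mul_pow]
  ring

lemma dd_bound {ζ u : ι → ℂ} {B : ℕ → ℝ} (hb : ∀ n, ‖bb ζ u n‖ ≤ B n) {θ : ℝ} (h0 : 0 < θ)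
    (h1 : θ < 1) (n : ℕ) : ‖dd ζ u θ n‖ ≤ wt θ * ((rt θ) ^ n / n * B n) := by
  unfold dd
  have hr := rt_mem h0 h1
  rw [norm_mul, norm_mul, norm_div, norm_pow, Complex.norm_real, Complex.norm_real,
    Real.norm_eq_abs, Real.norm_eq_abs, abs_of_pos hr.1, abs_of_pos (wt_pos h0 h1),
    Complex.norm_natCast]
  apply mul_le_mul_of_nonneg_left _ (wt_pos h0 h1).le
  apply mul_le_mul_of_nonneg_left (hb n)
  have := hr.1
  positivity

theorem full_step (h : Geo F ζ u ε) {κ ε' c η : ℝ} {B : ℕ → ℝ} (hε : 0 < ε) (hε1 : ε ≤ 1 / 8)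
    (hε' : 0 < ε') (hκ : κ = (1 - 4 * ε) * hh) (hB : TA B c) (hc : 0 < c)
    (hb : ∀ n, ‖bb ζ u n‖ ≤ B n) (hη : 0 < η) :
    ∃ θ : ℝ, Geo (Fn F ζ u θ) (zN ζ θ) (uN u κ) ε' ∧
      (∀ q : ι × Bool, ∀ a ∈ RR 0, ∃ b ∈ RR ε,
        Fn F ζ u θ (zN ζ θ q) + uN u κ q * a = F (ζ q.1) + u q.1 * b) ∧
      TA (fun n => Real.sqrt 2 * Pmaj (n * θ) * B n) (Real.sqrt 2 * (2 / 3) * c) ∧
      (∀ n, ‖bb (zN ζ θ) (uN u κ) n‖ ≤ Real.sqrt 2 * Pmaj (n * θ) * B n) ∧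
      Summable (fun n => ‖dd ζ u θ n‖) ∧ ∑' n, ‖dd ζ u θ n‖ ≤ 2 * c ∧
      dd ζ u θ 0 = 0 ∧ ‖dd ζ u θ 1‖ ≤ η ∧
      ∀ z : ℂ, ‖z‖ ≤ 1 → HasSum (fun n : ℕ => dd ζ u θ n * z ^ n) (Fn F ζ u θ z - F z) := by
  have hκ0 : 0 < κ := by rw [hκ]; exact mul_pos (by linarith) hh_pos
  have hκ1 : κ ≤ hh := by
    rw [hκ]
    exact mul_le_of_le_one_left hh_pos.le (by linarith)
  have e1 := geo_step (u := u) h hε hε1 hε' hκ
  have e2 := hB.mul_maj
  have e3 := hB.tendsto.eventually_lt_const (show c < 2 * c by linarith)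
  have e4 := (tendsto_wt.mul_const (B 1)).eventually_lt_const (show 0 * B 1 < η by simpa using hη)
  obtain ⟨θ, ⟨e1, e1'⟩, e2, e3, e4, h0, h1⟩ :=
    (e1.and (e2.and (e3.and (e4.and eventually_Ioo)))).exists
  have hs := (hB.summable h0 h1).mul_left (wt θ)
  have hbd := dd_bound hb h0 h1
  have hsum : Summable (fun n => ‖dd ζ u θ n‖) :=
    Summable.of_nonneg_of_le (fun n => norm_nonneg _) hbd hs
  refine ⟨θ, e1, e1', e2, bb_new_bound hb hκ0.le hκ1, hsum, ?_, ?_, ?_,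
    fun z hz => dd_hasSum h h0 h1 hz⟩
  · calc ∑' n, ‖dd ζ u θ n‖ ≤ ∑' n : ℕ, wt θ * ((rt θ) ^ n / n * B n) :=
        hsum.tsum_le_tsum hbd hs
      _ = wt θ * ∑' n : ℕ, (rt θ) ^ n / n * B n := tsum_mul_left
      _ ≤ 2 * c := e3.le
  · simp [dd]
  · have h2 := hbd 1
    have hB1 : 0 ≤ B 1 := (norm_nonneg _).trans (hb 1)
    refine h2.trans (le_trans ?_ e4.le)
    apply mul_le_mul_of_nonneg_left _ (wt_pos h0 h1).le
    simp only [pow_one, Nat.cast_one, div_one]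
    exact mul_le_of_le_one_left hB1 (rt_mem h0 h1).2.le

end

end Pool.Agent.Lib.MP_cf5e8f_an
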