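import Mathlib

set_option autoImplicit false

namespace Pool.Agent.Lib.MP_cf5e8f_an

open Filter Topology Complex

/-- Span of the nontrivial unimodular characters of `ℕ`. -/
noncomputable def NT : Submodule ℂ (ℕ → ℂ) :=
  Submodule.span ℂ {g | ∃ z : ℂ, ‖z‖ = 1 ∧ z ≠ 1 ∧ g = fun n => z ^ n}

/-- the width parameter -/
noncomputable def wt (θ : ℝ) : ℝ := 1 / (2 * Real.log (1 / θ))

/-- the radius parameter -/
noncomputable def rt (θ : ℝ) : ℝ := 1 - θ ^ 2

lemma wt_pos {θ : ℝ} (h0 : 0 < θ) (h1 : θ < 1) : 0 < wt θ := by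
  unfold wt
  have : 0 < Real.log (1 / θ) := Real.log_pos (by rw [lt_div_iff₀ h0]; linarith)
  positivity

lemma tendsto_wt : Tendsto wt (𝓝[>] 0) (𝓝 0) := by
  unfold wt
  have h1 : Tendsto (fun θ : ℝ => 1 / θ) (𝓝[>] 0) atTop := by
    simpa using tendsto_inv_nhdsGT_zero
  have h2 : Tendsto (fun θ : ℝ => 2 * Real.log (1 / θ)) (𝓝[>] 0) atTop :=
    (Real.tendsto_log_atTop.comp h1).const_mul_atTop (by norm_num)
  refine h2.inv_tendsto_atTop.congr fun θ => ?_
  rw [Pi.inv_apply, one_div (2 * Real.log (1 / θ))]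

lemma tendsto_rt : Tendsto rt (𝓝[>] 0) (𝓝 1) := by
  have : Tendsto rt (𝓝 0) (𝓝 (rt 0)) := by
    apply Continuous.tendsto
    unfold rt; fun_prop
  simp only [rt] at this
  have h := this.mono_left (nhdsWithin_le_nhds (s := Set.Ioi 0))
  simpa [rt] using h

lemma eventually_Ioo : ∀ᶠ θ : ℝ in 𝓝[>] 0, 0 < θ ∧ θ < 1 := by
  have := Ioo_mem_nhdsGT (show (0 : ℝ) < 1 by norm_num)
  filter_upwards [this] with θ hθ using hθ

lemma wt_mul_log {θ : ℝ} (h0 : 0 < θ) (h1 : θ < 1) : wt θ * (-Real.log (1 - rt θ)) = 1 := by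
  unfold wt rt
  have hl : 0 < Real.log (1 / θ) := Real.log_pos (by rw [lt_div_iff₀ h0]; linarith)
  have : Real.log (1 - (1 - θ ^ 2)) = - (2 * Real.log (1 / θ)) := by
    rw [show 1 - (1 - θ ^ 2) = θ ^ 2 by ring, Real.log_pow, one_div, Real.log_inv]; push_cast; ring
  rw [this]
  field_simp

lemma rt_mem {θ : ℝ} (h0 : 0 < θ) (h1 : θ < 1) : 0 < rt θ ∧ rt θ < 1 := by
  unfold rt
  constructor <;> nlinarith

/-- the property proved by span induction -/
lemma NT_prop (f : ℕ → ℂ) (hf : f ∈ NT) :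
    (∀ θ : ℝ, 0 < θ → θ < 1 → Summable (fun n : ℕ => (rt θ : ℂ) ^ n / n * f n)) ∧
    Tendsto (fun θ : ℝ => (wt θ : ℂ) * ∑' n : ℕ, (rt θ : ℂ) ^ n / n * f n) (𝓝[>] 0) (𝓝 0) := by
  unfold NT at hf
  induction hf using Submodule.span_induction with
  | mem g hg =>
    obtain ⟨z, hz1, hz2, rfl⟩ := hg
    have key : ∀ θ : ℝ, 0 < θ → θ < 1 →
        HasSum (fun n : ℕ => (rt θ : ℂ) ^ n / n * z ^ n) (-log (1 - rt θ * z)) := by
      intro θ h0 h1
      have hn : ‖(rt θ : ℂ) * z‖ < 1 := by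
        rw [norm_mul, hz1, mul_one, Complex.norm_real, Real.norm_eq_abs,
          abs_of_pos (rt_mem h0 h1).1]
        exact (rt_mem h0 h1).2
      have := hasSum_taylorSeries_neg_log hn
      refine this.congr_fun ?_ |> fun h => h
      intro n
      rw [mul_pow]; ring
    refine ⟨fun θ h0 h1 => (key θ h0 h1).summable, ?_⟩
    have h2 : Tendsto (fun θ : ℝ => (wt θ : ℂ) * (-log (1 - rt θ * z))) (𝓝[>] 0)
        (𝓝 ((0 : ℝ) * (-log (1 - (1 : ℝ) * z)))) := by
      apply Tendsto.mul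
      · exact (Complex.continuous_ofReal.tendsto 0).comp tendsto_wt
      · apply Tendsto.neg
        apply Tendsto.clog
        · apply Tendsto.sub tendsto_const_nhds
          apply Tendsto.mul _ tendsto_const_nhds
          exact (Complex.continuous_ofReal.tendsto 1).comp tendsto_rt
        · left
          have : z.re < 1 := by
            rcases lt_or_eq_of_le (hz1 ▸ Complex.re_le_norm z) with h | h
            · exact h
            · exfalso
              apply hz2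
              have h3 : z.re = ‖z‖ := by rw [hz1]; exact h
              have h4 : z.im = 0 := by
                have := Complex.sq_norm_sub_sq_re z
                rw [h3] at this
                have : z.im ^ 2 = 0 := by linarith
                exact pow_eq_zero_iff (two_ne_zero) |>.mp this
              apply Complex.ext
              · simp [h]
              · simp [h4]
          simp
          linarith
    simp only [Complex.ofReal_zero, zero_mul] at h2
    refine h2.congr' ?_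
    filter_upwards [eventually_Ioo] with θ hθ
    rw [(key θ hθ.1 hθ.2).tsum_eq]
  | zero =>
    constructor
    · intro θ _ _; simp
    · simp
  | add f g _ _ hf hg =>
    constructor
    · intro θ h0 h1
      have := (hf.1 θ h0 h1).add (hg.1 θ h0 h1)
      refine this.congr ?_
      intro n; simp [mul_add]
    · have := hf.2.add hg.2
      rw [add_zero] at this
      refine this.congr' ?_
      filter_upwards [eventually_Ioo] with θ hθ
      rw [← mul_add, ← (hf.1 θ hθ.1 hθ.2).tsum_add (hg.1 θ hθ.1 hθ.2)]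
      congr 1
      apply tsum_congr
      intro n; simp [mul_add]
  | smul c f _ hf =>
    constructor
    · intro θ h0 h1
      have := (hf.1 θ h0 h1).mul_left c
      refine this.congr ?_
      intro n; simp; ring
    · have := hf.2.const_mul c
      rw [mul_zero] at this
      refine this.congr' ?_
      filter_upwards [eventually_Ioo] with θ hθ
      rw [mul_left_comm, ← tsum_mul_left]
      congr 1
      apply tsum_congr
      intro n; simp; ring

lemma hasSum_log_real {r : ℝ} (h0 : 0 < r) (h1 : r < 1) :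
    HasSum (fun n : ℕ => (r : ℂ) ^ n / n) (-(Real.log (1 - r) : ℂ)) := by
  have hn : ‖(r : ℂ)‖ < 1 := by
    rw [Complex.norm_real, Real.norm_eq_abs, abs_of_pos h0]; exact h1
  have := hasSum_taylorSeries_neg_log hn
  rw [Complex.ofReal_log (by linarith)]
  push_cast
  exact this

/-- `B` is a trigonometric sequence with mean `c`. -/
def TA (B : ℕ → ℝ) (c : ℝ) : Prop := (fun n => (B n : ℂ) - (c : ℂ)) ∈ NT

lemma TA.summable {B : ℕ → ℝ} {c : ℝ} (h : TA B c) {θ : ℝ} (h0 : 0 < θ) (h1 : θ < 1) :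
    Summable (fun n : ℕ => (rt θ) ^ n / n * B n) := by
  have h2 := (NT_prop _ h).1 θ h0 h1
  have h3 := (hasSum_log_real (rt_mem h0 h1).1 (rt_mem h0 h1).2).summable.mul_right (c : ℂ)
  have h4 := h2.add h3
  have h5 : Summable (fun n : ℕ => (((rt θ) ^ n / n * B n : ℝ) : ℂ)) := by
    refine h4.congr ?_
    intro n; push_cast; ring
  exact_mod_cast h5

lemma TA.tendsto {B : ℕ → ℝ} {c : ℝ} (h : TA B c) :
    Tendsto (fun θ : ℝ => wt θ * ∑' n : ℕ, (rt θ) ^ n / n * B n) (𝓝[>] 0) (𝓝 c) := by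
  have h2 := (NT_prop _ h).2
  have h3 : Tendsto (fun θ : ℝ => (wt θ : ℂ) * ∑' n : ℕ, (rt θ : ℂ) ^ n / n *
      ((B n : ℂ) - (c : ℂ)) + c) (𝓝[>] 0) (𝓝 (0 + c)) := h2.add tendsto_const_nhds
  rw [zero_add] at h3
  have h4 : Tendsto (fun θ : ℝ => ((wt θ * ∑' n : ℕ, (rt θ) ^ n / n * B n : ℝ) : ℂ))
      (𝓝[>] 0) (𝓝 (c : ℂ)) := by
    refine h3.congr' ?_
    filter_upwards [eventually_Ioo] with θ hθ
    have e1 := hasSum_log_real (rt_mem hθ.1 hθ.2).1 (rt_mem hθ.1 hθ.2).2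
    have e2 := (NT_prop _ h).1 θ hθ.1 hθ.2
    have e3 : ∑' n : ℕ, (rt θ : ℂ) ^ n / n * (B n : ℂ) =
        ∑' n : ℕ, (rt θ : ℂ) ^ n / n * ((B n : ℂ) - (c : ℂ)) +
        ∑' n : ℕ, (rt θ : ℂ) ^ n / n * (c : ℂ) := by
      rw [← e2.tsum_add (e1.summable.mul_right _)]
      apply tsum_congr
      intro n; ring
    have e4 : (wt θ : ℂ) * (-(Real.log (1 - rt θ) : ℂ)) = 1 := by
      exact_mod_cast wt_mul_log hθ.1 hθ.2
    push_cast
    rw [e3, mul_add, tsum_mul_right, e1.tsum_eq, ← mul_assoc, e4, one_mul]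
  have h5 := (Complex.continuous_re.tendsto (c : ℂ)).comp h4
  exact h5

lemma NT_char {z : ℂ} (h1 : ‖z‖ = 1) (h2 : z ≠ 1) : (fun n : ℕ => z ^ n) ∈ NT :=
  Submodule.subset_span ⟨z, h1, h2, rfl⟩

lemma tendsto_exp (k : ℝ) :
    Tendsto (fun θ : ℝ => cexp ((k * θ : ℝ) * I)) (𝓝[>] 0) (𝓝 1) := by
  have : Continuous (fun θ : ℝ => cexp ((k * θ : ℝ) * I)) := by fun_prop
  have h := (this.tendsto 0).mono_left (nhdsWithin_le_nhds (s := Set.Ioi 0))
  simpa using h

lemma NT_mul_char (f : ℕ → ℂ) (hf : f ∈ NT) (k : ℝ) :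
    ∀ᶠ θ : ℝ in 𝓝[>] 0, (fun n : ℕ => f n * (cexp ((k * θ : ℝ) * I)) ^ n) ∈ NT := by
  unfold NT at hf
  induction hf using Submodule.span_induction with
  | mem g hg =>
    obtain ⟨z, hz1, hz2, rfl⟩ := hg
    have h := (tendsto_exp k).const_mul z
    rw [mul_one] at h
    filter_upwards [h.eventually_ne hz2] with θ hθ
    have h3 : ‖z * cexp ((k * θ : ℝ) * I)‖ = 1 := by
      rw [norm_mul, hz1, Complex.norm_exp_ofReal_mul_I, one_mul]
    have := NT_char h3 hθ
    simpa [mul_pow] using this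
  | zero =>
    filter_upwards with θ
    have := NT.zero_mem
    have h0 : (fun n : ℕ => (0 : ℕ → ℂ) n * (cexp ((k * θ : ℝ) * I)) ^ n) = 0 := by
      funext n; simp
    rw [h0]; exact this
  | add f g _ _ hf hg =>
    filter_upwards [hf, hg] with θ h1 h2
    have := NT.add_mem h1 h2
    have h0 : (fun n : ℕ => (f + g) n * (cexp ((k * θ : ℝ) * I)) ^ n) =
        (fun n : ℕ => f n * (cexp ((k * θ : ℝ) * I)) ^ n) +
        (fun n : ℕ => g n * (cexp ((k * θ : ℝ) * I)) ^ n) := by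
      funext n; simp [add_mul]
    rw [h0]; exact this
  | smul c f _ hf =>
    filter_upwards [hf] with θ h1
    have := NT.smul_mem c h1
    have h0 : (fun n : ℕ => (c • f) n * (cexp ((k * θ : ℝ) * I)) ^ n) =
        c • (fun n : ℕ => f n * (cexp ((k * θ : ℝ) * I)) ^ n) := by
      funext n; simp [mul_assoc]
    rw [h0]; exact this

lemma NT_const_char (c : ℂ) {k : ℝ} (hk : k ≠ 0) :
    ∀ᶠ θ : ℝ in 𝓝[>] 0, (fun n : ℕ => c * (cexp ((k * θ : ℝ) * I)) ^ n) ∈ NT := by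
  have h1 : Tendsto (fun θ : ℝ => k * θ) (𝓝[>] 0) (𝓝 0) := by
    have : Continuous (fun θ : ℝ => k * θ) := by fun_prop
    have h := (this.tendsto 0).mono_left (nhdsWithin_le_nhds (s := Set.Ioi 0))
    simpa using h
  have h2 : ∀ᶠ θ : ℝ in 𝓝[>] 0, k * θ ∈ Set.Ioo (-1 : ℝ) 1 :=
    h1.eventually (Ioo_mem_nhds (by norm_num) (by norm_num))
  filter_upwards [h2, eventually_Ioo] with θ h2 h3
  have hne : cexp ((k * θ : ℝ) * I) ≠ 1 := by
    intro h
    rw [Complex.exp_eq_one_iff] at h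
    obtain ⟨n, hn⟩ := h
    have hn' : k * θ = n * (2 * Real.pi) := by
      have := congrArg Complex.im hn
      simp at this
      exact this
    have hkθ : k * θ ≠ 0 := mul_ne_zero hk h3.1.ne'
    have hn0 : n ≠ 0 := by
      rintro rfl
      apply hkθ
      simpa using hn'
    have h4 : (1 : ℝ) ≤ |(n : ℝ)| := by
      exact_mod_cast Int.one_le_abs hn0
    have h5 : |k * θ| < 1 := abs_lt.mpr ⟨h2.1, h2.2⟩
    rw [hn', abs_mul, abs_of_pos (by positivity : (0 : ℝ) < 2 * Real.pi)] at h5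
    nlinarith [Real.pi_gt_three]
  exact NT.smul_mem c (NT_char (Complex.norm_exp_ofReal_mul_I (k * θ)) hne)

/-- the trigonometric majorant of `|sin|` -/
noncomputable def Pmaj (x : ℝ) : ℝ := (12 - 7 * Real.cos (2 * x) - Real.cos (4 * x)) / 18

lemma abs_sin_le_Pmaj (x : ℝ) : |Real.sin x| ≤ Pmaj x := by
  unfold Pmaj
  have h1 : Real.cos (2 * x) = 1 - 2 * Real.sin x ^ 2 := by
    rw [Real.cos_two_mul, Real.cos_sq']; ring
  have h2 : Real.cos (4 * x) = 1 - 8 * Real.sin x ^ 2 + 8 * Real.sin x ^ 4 := by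
    rw [show 4 * x = 2 * (2 * x) by ring, Real.cos_two_mul, h1]; ring
  rw [h1, h2]
  have h3 : Real.sin x ^ 2 = |Real.sin x| ^ 2 := (sq_abs _).symm
  have h4 : Real.sin x ^ 4 = |Real.sin x| ^ 4 := by
    rw [show (4 : ℕ) = 2 * 2 by norm_num, pow_mul, pow_mul, h3]
  rw [h3, h4]
  have h5 : |Real.sin x| ≤ 1 := Real.abs_sin_le_one x
  have h6 : 0 ≤ |Real.sin x| := abs_nonneg _
  set q := |Real.sin x|
  have : (12 - 7 * (1 - 2 * q ^ 2) - (1 - 8 * q ^ 2 + 8 * q ^ 4)) / 18 - q =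
      (1 - q) * (2 * q - 1) ^ 2 * (q + 2) / 9 := by ring
  have h7 : 0 ≤ (1 - q) * (2 * q - 1) ^ 2 * (q + 2) / 9 := by
    apply div_nonneg _ (by norm_num)
    apply mul_nonneg (mul_nonneg (by linarith) (sq_nonneg _)) (by linarith)
  linarith

lemma cos_eq_exp (x : ℝ) : (Real.cos x : ℂ) = (cexp (x * I) + cexp (-x * I)) / 2 := by
  rw [Complex.ofReal_cos, Complex.cos]

lemma TA.mul_maj {B : ℕ → ℝ} {c : ℝ} (h : TA B c) :
    ∀ᶠ θ : ℝ in 𝓝[>] 0,
      TA (fun n => Real.sqrt 2 * Pmaj (n * θ) * B n) (Real.sqrt 2 * (2 / 3) * c) := by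
  unfold TA at h
  set f : ℕ → ℂ := fun n => (B n : ℂ) - (c : ℂ) with hf
  have a1 := NT_mul_char f h 2
  have a2 := NT_mul_char f h (-2)
  have a3 := NT_mul_char f h 4
  have a4 := NT_mul_char f h (-4)
  have b1 := NT_const_char (c : ℂ) (show (2 : ℝ) ≠ 0 by norm_num)
  have b2 := NT_const_char (c : ℂ) (show (-2 : ℝ) ≠ 0 by norm_num)
  have b3 := NT_const_char (c : ℂ) (show (4 : ℝ) ≠ 0 by norm_num)
  have b4 := NT_const_char (c : ℂ) (show (-4 : ℝ) ≠ 0 by norm_num)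
  filter_upwards [a1, a2, a3, a4, b1, b2, b3, b4] with θ a1 a2 a3 a4 b1 b2 b3 b4
  unfold TA
  have e1 := NT.smul_mem (-(7 / 36 : ℂ)) (NT.add_mem (NT.add_mem a1 a2) (NT.add_mem b1 b2))
  have e2 := NT.smul_mem (-(1 / 36 : ℂ)) (NT.add_mem (NT.add_mem a3 a4) (NT.add_mem b3 b4))
  have e3 := NT.smul_mem (2 / 3 : ℂ) h
  have e4 := NT.smul_mem (Real.sqrt 2 : ℂ) (NT.add_mem (NT.add_mem e1 e2) e3)
  have key : (fun n : ℕ => (((Real.sqrt 2 * Pmaj (n * θ) * B n : ℝ) : ℂ)) -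
      ((Real.sqrt 2 * (2 / 3) * c : ℝ) : ℂ)) =
      (Real.sqrt 2 : ℂ) • (-(7 / 36 : ℂ) • ((fun n : ℕ => f n * cexp ((2 * θ : ℝ) * I) ^ n) +
        (fun n : ℕ => f n * cexp ((-2 * θ : ℝ) * I) ^ n) +
        ((fun n : ℕ => (c : ℂ) * cexp ((2 * θ : ℝ) * I) ^ n) +
        (fun n : ℕ => (c : ℂ) * cexp ((-2 * θ : ℝ) * I) ^ n))) +
        -(1 / 36 : ℂ) • ((fun n : ℕ => f n * cexp ((4 * θ : ℝ) * I) ^ n) +
        (fun n : ℕ => f n * cexp ((-4 * θ : ℝ) * I) ^ n) +
        ((fun n : ℕ => (c : ℂ) * cexp ((4 * θ : ℝ) * I) ^ n) +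
        (fun n : ℕ => (c : ℂ) * cexp ((-4 * θ : ℝ) * I) ^ n))) + (2 / 3 : ℂ) • f) := by
    funext n
    have hc1 : (Real.cos (2 * (n * θ)) : ℂ) =
        (cexp ((2 * θ : ℝ) * I) ^ n + cexp ((-2 * θ : ℝ) * I) ^ n) / 2 := by
      rw [cos_eq_exp, ← Complex.exp_nat_mul, ← Complex.exp_nat_mul]
      have x1 : ((2 * (n * θ) : ℝ) : ℂ) * I = n * ((2 * θ : ℝ) * I) := by push_cast; ring
      have x2 : -((2 * (n * θ) : ℝ) : ℂ) * I = n * ((-2 * θ : ℝ) * I) := by push_cast; ring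
      rw [x1, x2]
    have hc2 : (Real.cos (4 * (n * θ)) : ℂ) =
        (cexp ((4 * θ : ℝ) * I) ^ n + cexp ((-4 * θ : ℝ) * I) ^ n) / 2 := by
      rw [cos_eq_exp, ← Complex.exp_nat_mul, ← Complex.exp_nat_mul]
      have x1 : ((4 * (n * θ) : ℝ) : ℂ) * I = n * ((4 * θ : ℝ) * I) := by push_cast; ring
      have x2 : -((4 * (n * θ) : ℝ) : ℂ) * I = n * ((-4 * θ : ℝ) * I) := by push_cast; ring
      rw [x1, x2]
    have hB : (B n : ℂ) = f n + c := by simp [hf]
    simp only [Pi.add_apply, Pi.smul_apply, smul_eq_mul]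
    rw [show ((Real.sqrt 2 * Pmaj (n * θ) * B n : ℝ) : ℂ) = (Real.sqrt 2 : ℂ) *
      ((12 - 7 * (Real.cos (2 * (n * θ)) : ℂ) - (Real.cos (4 * (n * θ)) : ℂ)) / 18) * (B n : ℂ) by
        unfold Pmaj; push_cast; ring]
    rw [hc1, hc2, hB]
    push_cast
    ring
  rw [key]
  exact e4

end Pool.Agent.Lib.MP_cf5e8f_an
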